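import Pool.Agent.Lib.MP_12e153_co.Average
import Pool.Agent.Lib.MP_12e153_co.Comp.Extract
import Pool.Agent.Lib.MP_12e153_co.Comp.ZPlus

section

/-!
# The prime argument under the star inequality for sets of at most five vertices

Same steps as for prime moduli, for an arbitrary modulus, with the star inequality for sets of at
most five vertices as a hypothesis.
-/

set_option autoImplicit false
set_option linter.unusedSectionVars false

namespace Pool.Agent.Lib.MP_12e153_co

open Finset

variable {V : Type*} [Fintype V] [DecidableEq V] {p : ℕ} {c : V → V → ZMod p}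

/-- A bad colouring with the star inequality for the sets `Q` to which all outside vertices, except
those of a small set `E`, send at least two colours, `|Q| + |E| ≤ 5`. -/
structure Bad4 (c : V → V → ZMod p) : Prop extends Bad c where
  two : 2 ≤ p
  star5 : ∀ Q E : Finset V, Q.Nonempty → Q.card + E.card ≤ 5 →
    (∀ b, b ∉ Q → b ∉ E → 2 ≤ (S c Q b).card) → (B c Q).card + F c Q + 1 ≤ p
  rig : ∀ Q : Finset V, Q.card = 4 → (∀ b, b ∉ Q → (S c Q b).card = 2) →
    (∀ u, u ∉ Q → (B c (insert u Q)).card ≤ 1) →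
    ∀ u u' : V, u ∉ Q → u' ∉ Q → ∀ δ : ZMod p, (∀ q ∈ Q, c q u - c q u' = δ) → 3 * δ = 0 → δ = 0

/-- The same with `p ≠ 6`. -/
structure Bad5 (c : V → V → ZMod p) : Prop extends Bad4 c where
  six : p ≠ 6

theorem Bad4.small (h : Bad4 c) {Q : Finset V} (hQ : Q.Nonempty) (E : Finset V)
    (hQ5 : Q.card + E.card ≤ 5) (hE : ∀ b, b ∉ Q → b ∉ E → 2 ≤ (S c Q b).card) :
    (B c Q).card + 2 ≤ Q.card + E.card := by
  have h1 := h.star5 Q E hQ hQ5 hE
  have h2 : (Qᶜ \ E).card ≤ F c Q := by
    unfold F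
    calc (Qᶜ \ E).card = ∑ b ∈ Qᶜ \ E, 1 := by simp
      _ ≤ ∑ b ∈ Qᶜ \ E, ((S c Q b).card - 1) := by
        apply sum_le_sum
        intro b hb
        have := hE b (by simpa using (mem_sdiff.1 hb).1) (mem_sdiff.1 hb).2
        omega
      _ ≤ ∑ b ∈ Qᶜ, ((S c Q b).card - 1) :=
        sum_le_sum_of_subset sdiff_subset
  have h3 : Qᶜ.card ≤ (Qᶜ \ E).card + E.card := by
    have := card_le_card_sdiff_add_card (s := Qᶜ) (t := E)
    exact this
  have h4 : Q.card + Qᶜ.card = p + 1 := by rw [← h.card]; exact card_add_card_compl Q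
  omega

theorem Bad4.small0 (h : Bad4 c) {Q : Finset V}
    (hQ : Q.Nonempty) (hE : ∀ b, b ∉ Q → 2 ≤ (S c Q b).card)
    (hQ5 : Q.card ≤ 5 := by first | exact card_le_two.trans (by norm_num) | exact card_le_three.trans (by norm_num) | exact card_le_four.trans (by norm_num)) :
    (B c Q).card + 2 ≤ Q.card := by
  have := h.small hQ ∅ (by simpa using hQ5) (fun b hb _ => hE b hb)
  simpa using this

theorem Bad4.small1 (h : Bad4 c) {Q : Finset V}
    (hQ : Q.Nonempty) (e : V) (hE : ∀ b, b ∉ Q → b ≠ e → 2 ≤ (S c Q b).card)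
    (hQ5 : Q.card ≤ 4 := by first | exact card_le_two.trans (by norm_num) | exact card_le_three.trans (by norm_num) | exact card_le_four.trans (by norm_num)) :
    (B c Q).card + 1 ≤ Q.card := by
  have := h.small hQ {e} (by rw [card_singleton]; omega) (fun b hb he => hE b hb (by simpa using he))
  rw [card_singleton] at this
  omega


/-- Each vertex sees at least three colours. -/
theorem Bad4.stepA (h : Bad4 c) (v : V) : 3 ≤ (C c v).card := by
  by_contra hcon
  have hp : 2 ≤ p := h.two
  have hcard := h.card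
  obtain ⟨u, hu⟩ : ∃ u, u ≠ v := by
    have : Nontrivial V := Fintype.one_lt_card_iff_nontrivial.1 (by omega)
    exact exists_ne v
  obtain ⟨w1, hw1⟩ := h.toBad.far v (c v u)
  obtain ⟨w2, hw2⟩ := h.toBad.far v (c v w1)
  have hcol : ∀ b, b ≠ v → c v b = c v u ∨ c v b = c v w1 := by
    intro b hb
    by_contra hcc
    push Not at hcc
    apply hcon
    have : 2 < (C c v).card := two_lt_card.2
      ⟨_, mem_C hu, _, mem_C hw1.1, _, mem_C hb, hw1.2.1.symm, hcc.1.symm, hcc.2.symm⟩
    omega
  have h2 : c v w2 = c v u := (hcol w2 hw2.1).resolve_right hw2.2.1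
  have h3 : 2 ≤ (B c {v, w1, w2}).card := by
    apply tri_two h.symm h.diag hw1.1.symm hw2.1.symm
    rw [h2]
    exact hw1.2.1
  have h4 := h.small0 (Q := {v, w1, w2}) (by simp) (by
    intro b hb
    have hbv : b ≠ v := fun e => hb (by simp [e])
    rcases hcol b hbv with hc | hc
    · exact hw1.two_le h.toBad (by simp) (by simp) hb hc
    · exact hw2.two_le h.toBad (by simp) (by simp) hb hc)
  have h5 : ({v, w1, w2} : Finset V).card ≤ 3 := card_le_three
  omega

/-- At a vertex seeing exactly three colours each of them occurs at least twice. -/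
theorem Bad4.lemma1 (h : Bad4 c) {x : V} (hC : (C c x).card = 3) (b0 : V) :
    ¬ Lone c x b0 := by
  rintro ⟨hb0, hlone⟩
  have h1 : ((C c x).erase (c x b0)).card = 2 := by
    rw [card_erase_of_mem (mem_C hb0), hC]
  obtain ⟨i1, i2, hne, heq⟩ := card_eq_two.1 h1
  have hi1 : i1 ≠ c x b0 := by
    have : i1 ∈ (C c x).erase (c x b0) := by rw [heq]; simp
    exact (mem_erase.1 this).1
  have hi2 : i2 ≠ c x b0 := by
    have : i2 ∈ (C c x).erase (c x b0) := by rw [heq]; simp
    exact (mem_erase.1 this).1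
  have hcol : ∀ b, b ≠ x → b ≠ b0 → c x b = i1 ∨ c x b = i2 := by
    intro b hb hbb
    have : c x b ∈ (C c x).erase (c x b0) :=
      mem_erase.2 ⟨fun e => hbb (hlone b hb e), mem_C hb⟩
    rw [heq] at this
    simpa using this
  obtain ⟨z1, hz1⟩ := h.toBad.far x i1
  obtain ⟨z2, hz2⟩ := h.toBad.far x i2
  by_cases h12 : z1 = z2
  · subst h12
    have hz : z1 = b0 := by
      by_contra hz
      rcases hcol z1 hz1.1 hz with e | e
      · exact hz1.2.1 e
      · exact hz2.2.1 e
    have h4 := h.small0 (Q := {x, z1}) (by simp) (by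
      intro b hb
      have hbv : b ≠ x := fun e => hb (by simp [e])
      have hbz : b ≠ b0 := fun e => hb (by simp [e, hz])
      rcases hcol b hbv hbz with hc | hc
      · exact hz1.two_le h.toBad (by simp) (by simp) hb hc
      · exact hz2.two_le h.toBad (by simp) (by simp) hb hc)
    have h5 : ({x, z1} : Finset V).card ≤ 2 := card_le_two
    have h6 : 1 ≤ (B c {x, z1}).card := card_B_pos (by simp)
    omega
  · by_cases hb : z1 = b0 ∨ z2 = b0
    · have h4 := h.small0 (Q := {x, z1, z2}) (by simp) (by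
        intro b hb'
        have hbv : b ≠ x := fun e => hb' (by simp [e])
        have hbz : b ≠ b0 := by
          intro e
          apply hb'
          rcases hb with e' | e' <;> simp [e, e']
        rcases hcol b hbv hbz with hc | hc
        · exact hz1.two_le h.toBad (by simp) (by simp) hb' hc
        · exact hz2.two_le h.toBad (by simp) (by simp) hb' hc)
      have h5 : ({x, z1, z2} : Finset V).card ≤ 3 := card_le_three
      have h6 : 2 ≤ (B c {x, z1, z2}).card := by
        apply tri_two h.symm h.diag hz1.1.symm hz2.1.symm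
        rcases hb with e | e
        · rw [e]
          intro e'
          exact h12 (e.trans (hlone z2 hz2.1 e'.symm).symm)
        · rw [e]
          intro e'
          exact h12 ((hlone z1 hz1.1 e').trans e.symm)
      omega
    · push Not at hb
      have hc1 : c x z1 = i2 := (hcol z1 hz1.1 hb.1).resolve_left hz1.2.1
      have hc2 : c x z2 = i1 := (hcol z2 hz2.1 hb.2).resolve_right hz2.2.1
      have h4 := h.small1 (Q := {x, z1, z2}) (by simp) b0 (by
        intro b hb' hbz
        have hbv : b ≠ x := fun e => hb' (by simp [e])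
        rcases hcol b hbv hbz with hc | hc
        · exact hz1.two_le h.toBad (by simp) (by simp) hb' hc
        · exact hz2.two_le h.toBad (by simp) (by simp) hb' hc)
      have h5 : ({x, z1, z2} : Finset V).card ≤ 3 := card_le_three
      have h6 : 3 ≤ (B c {x, z1, z2}).card := by
        apply tri_three h.symm h.diag hz1.1.symm hz2.1.symm
        · rw [hc1, hc2]; exact hne.symm
        · rw [hc1, h.symm]
          exact hz2.2.2 z1 hz1.1 h12 hc1
        · rw [hc2]
          exact hz1.2.2 z2 hz2.1 (Ne.symm h12) hc2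
      omega

theorem Bad4.lemma2_aux (h : Bad4 c) {x b2 b3 z : V} {i : ZMod p}
    (hb2 : b2 ≠ x) (hb3 : b3 ≠ x)
    (hcol : ∀ b, b ≠ x → b ≠ b2 → b ≠ b3 → b ≠ z → c x b = i) (hz : Far c x i z)
    (h23 : c x b2 ≠ c x b3) (h2z : c x z ≠ c x b2) (h3z : c x z ≠ c x b3) : False := by
  have key : ∀ b b' : V, b ≠ x → b' ≠ x → (∀ u, u ≠ x → u ≠ b → u ≠ b' → u ≠ z → c x u = i) →
      c x z ≠ c x b' → b ≠ z → b ≠ b' → c b b' = c b x := by
    intro b b' hb hb' hcol hzb hbz hbb
    by_contra hne
    have h4 := h.small0 (Q := {x, z, b'}) (by simp) (by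
      intro u hu
      have hux : u ≠ x := fun e => hu (by simp [e])
      have huz : u ≠ z := fun e => hu (by simp [e])
      have hub' : u ≠ b' := fun e => hu (by simp [e])
      by_cases hub : u = b
      · subst hub
        exact two_le_card_S (q := b') (q' := x) (by simp) (by simp) hne
      · exact hz.two_le h.toBad (by simp) (by simp) hu (hcol u hux hub hub' huz))
    have h5 : ({x, z, b'} : Finset V).card ≤ 3 := card_le_three
    have h6 : 2 ≤ (B c {x, z, b'}).card := tri_two h.symm h.diag hz.1.symm hb'.symm hzb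
    omega
  have e1 := key b2 b3 hb2 hb3 hcol h3z (fun e => h2z (by rw [e])) (fun e => h23 (by rw [e]))
  have e2 := key b3 b2 hb3 hb2 (fun u h1 h2 h3 h4 => hcol u h1 h3 h2 h4) h2z
    (fun e => h3z (by rw [e])) (fun e => h23 (by rw [e]))
  apply h23
  rw [h.symm x b2, h.symm x b3, ← e1, ← e2, h.symm]

/-- At a vertex seeing exactly four colours no three of them occur only once. -/
theorem Bad4.lemma2 (h : Bad4 c) {x b2 b3 b4 : V} (hC : (C c x).card = 4)
    (h2 : Lone c x b2) (h3 : Lone c x b3) (h4 : Lone c x b4) (h23 : b2 ≠ b3) (h24 : b2 ≠ b4)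
    (h34 : b3 ≠ b4) : False := by
  have c23 : c x b2 ≠ c x b3 := fun e => h23 (h3.2 b2 h2.1 e)
  have c24 : c x b2 ≠ c x b4 := fun e => h24 (h4.2 b2 h2.1 e)
  have c34 : c x b3 ≠ c x b4 := fun e => h34 (h4.2 b3 h3.1 e)
  have hcard : ((((C c x).erase (c x b2)).erase (c x b3)).erase (c x b4)).card = 1 := by
    rw [card_erase_of_mem, card_erase_of_mem, card_erase_of_mem, hC]
    · exact mem_C h2.1
    · exact mem_erase.2 ⟨c23.symm, mem_C h3.1⟩
    · exact mem_erase.2 ⟨c34.symm, mem_erase.2 ⟨c24.symm, mem_C h4.1⟩⟩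
  obtain ⟨i, hi⟩ := card_eq_one.1 hcard
  have hcol : ∀ b, b ≠ x → b ≠ b2 → b ≠ b3 → b ≠ b4 → c x b = i := by
    intro b hb e2 e3 e4
    have : c x b ∈ (((C c x).erase (c x b2)).erase (c x b3)).erase (c x b4) :=
      mem_erase.2 ⟨fun e => e4 (h4.2 b hb e), mem_erase.2 ⟨fun e => e3 (h3.2 b hb e),
        mem_erase.2 ⟨fun e => e2 (h2.2 b hb e), mem_C hb⟩⟩⟩
    rw [hi] at this
    simpa using this
  obtain ⟨z, hz⟩ := h.toBad.far x i
  have hz' : z = b2 ∨ z = b3 ∨ z = b4 := by
    by_contra hcon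
    push Not at hcon
    exact hz.2.1 (hcol z hz.1 hcon.1 hcon.2.1 hcon.2.2)
  rcases hz' with rfl | rfl | rfl
  · exact h.lemma2_aux h3.1 h4.1 (fun b e1 e2 e3 e4 => hcol b e1 e4 e2 e3) hz c34 c23 c24
  · exact h.lemma2_aux h2.1 h4.1 (fun b e1 e2 e3 e4 => hcol b e1 e2 e4 e3) hz c24 c23.symm c34
  · exact h.lemma2_aux h2.1 h3.1 (fun b e1 e2 e3 e4 => hcol b e1 e2 e3 e4) hz c23 c24.symm
      c34.symm

theorem Bad5.rigid_card (h : Bad5 c) (hp : 7 ≤ p) {Q : Finset V} (hQ : Q.card = 4)
    (h2 : ∀ b, b ∉ Q → 2 ≤ (S c Q b).card)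
    (hR : ∀ b, b ∉ Q → (S c Q b).card = 2 → 2 ≤ (R c Q b).card) :
    (∀ u, u ∉ Q → (B c (insert u Q)).card ≤ 1) ∧ (∀ b, b ∉ Q → (S c Q b).card = 2) := by
  have hQn : Q.Nonempty := card_pos.1 (by omega)
  have hk : Qᶜ.card + 4 = p + 1 := by
    rw [← h.card, ← hQ, add_comm]
    exact card_add_card_compl Q
  set k := Qᶜ.card with hkdef
  have s0 := h.star5 Q ∅ hQn (by simp; omega) (fun b hb _ => h2 b hb)
  have b0 := card_B_pos (c := c) hQn
  have f0 : k ≤ F c Q := by
    unfold F
    calc k = ∑ b ∈ Qᶜ, 1 := by simp [hkdef]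
      _ ≤ _ := by
        apply sum_le_sum
        intro b hb
        have := h2 b (mem_compl.1 hb)
        omega
  have hu : ∀ u ∈ Qᶜ, (B c (insert u Q)).card + F c Q +
      ((Qᶜ.erase u).filter fun b => c b u ∉ S c Q b).card + 1 ≤ p + ((S c Q u).card - 1) := by
    intro u hu
    have h1 := h.star5 (insert u Q) ∅ (insert_nonempty _ _) (by
      have := card_insert_le u Q
      rw [card_empty]; omega) (fun b hb _ => (h2 b (fun hb' => hb (mem_insert_of_mem hb'))).trans
        (card_le_card (image_subset_image (subset_insert _ _))))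
    have h3 := F_insert (c := c) hQn (mem_compl.1 hu)
    omega
  have hsum := sum_le_sum hu
  rw [sum_add_distrib, sum_add_distrib, sum_add_distrib, sum_add_distrib, sum_R, sum_const,
    sum_const, sum_const, ← hkdef] at hsum
  have hFsum : ∑ u ∈ Qᶜ, ((S c Q u).card - 1) = F c Q := rfl
  rw [hFsum] at hsum
  have hRsum : 4 * k ≤ ∑ b ∈ Qᶜ, (R c Q b).card + 2 * F c Q := by
    unfold F
    rw [mul_sum, ← sum_add_distrib]
    calc 4 * k = ∑ b ∈ Qᶜ, 4 := by simp [hkdef, mul_comm]
      _ ≤ _ := by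
        apply sum_le_sum
        intro b hb
        have h3 := h2 b (mem_compl.1 hb)
        by_cases h4 : (S c Q b).card = 2
        · have := hR b (mem_compl.1 hb) h4
          omega
        · omega
  have hBsum : k ≤ ∑ u ∈ Qᶜ, (B c (insert u Q)).card := by
    calc k = ∑ b ∈ Qᶜ, 1 := by simp [hkdef]
      _ ≤ _ := sum_le_sum fun u _ => card_B_pos (insert_nonempty _ _)
  have hF : F c Q = k ∨ F c Q = k + 1 := by omega
  simp only [smul_eq_mul, mul_one] at hsum
  have hp' : p = k + 3 := by omega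
  have hkp : k * p = k * (k + 3) := congrArg (fun t => k * t) hp'
  rcases hF with hF | hF
  · rw [hF, hkp] at hsum
    rw [hF] at hRsum
    have hle : ∑ u ∈ Qᶜ, (B c (insert u Q)).card ≤ k := by
      have : k * (k + 3) = k * k + 3 * k := by ring
      omega
    refine ⟨?_, ?_⟩
    · intro u hu'
      by_contra hcon
      have hlt : ∑ u ∈ Qᶜ, 1 < ∑ u ∈ Qᶜ, (B c (insert u Q)).card :=
        sum_lt_sum (fun u _ => card_B_pos (insert_nonempty _ _)) ⟨u, mem_compl.2 hu', by omega⟩
      rw [sum_const, smul_eq_mul, mul_one] at hlt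
      omega
    · intro b hb'
      by_contra hcon
      have h2b := h2 b hb'
      have hlt : ∑ u ∈ Qᶜ, 1 < ∑ u ∈ Qᶜ, ((S c Q u).card - 1) :=
        sum_lt_sum (fun u hu => by have := h2 u (mem_compl.1 hu); omega)
          ⟨b, mem_compl.2 hb', by omega⟩
      rw [sum_const, smul_eq_mul, mul_one] at hlt
      unfold F at hF
      omega
  · exfalso
    rw [hF, hkp] at hsum
    rw [hF] at hRsum
    have e1 : k * (k + 3) = k * k + 3 * k := by ring
    have e2 : k * (k + 1) = k * k + k := by ring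
    omega

/-- Rigidity. -/
theorem Bad5.rigid (h : Bad5 c) (hp : 7 ≤ p) {Q : Finset V} (hQ : Q.card = 4)
    (h2 : ∀ b, b ∉ Q → 2 ≤ (S c Q b).card)
    (hR : ∀ b, b ∉ Q → (S c Q b).card = 2 → 2 ≤ (R c Q b).card)
    {q u u' : V} (hq : q ∈ Q) (hu : u ∉ Q) (hu' : u' ∉ Q) : c q u = c q u' := by
  obtain ⟨hB, hS2⟩ := h.rigid_card hp hQ h2 hR
  have key : ∀ u, u ∉ Q → ∀ q ∈ Q, ∑ r ∈ Q, c q r + c q u = ∑ r ∈ Q, c u r := by
    intro u hu q hq
    have h1 := card_le_one.1 (hB u hu) _ (mem_B h.diag (mem_insert_of_mem hq)) _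
      (mem_B h.diag (mem_insert_self u Q))
    rw [sum_insert hu, sum_insert hu, h.diag, zero_add] at h1
    rw [← h1, add_comm]
  have key2 : ∀ u, u ∉ Q → 3 * ∑ r ∈ Q, c u r = ∑ q ∈ Q, ∑ r ∈ Q, c q r := by
    intro u hu
    have h1 := sum_congr rfl (key u hu)
    rw [sum_add_distrib, sum_const, hQ, nsmul_eq_mul] at h1
    rw [sum_congr rfl fun q _ => h.symm q u] at h1
    push_cast at h1
    linear_combination -h1
  have h4 : ∑ r ∈ Q, c u r = ∑ r ∈ Q, c u' r := by
    have h3 := h.rig Q hQ hS2 hB u u' hu hu' (∑ r ∈ Q, c u r - ∑ r ∈ Q, c u' r) (by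
      intro q hq
      have e1 := key u hu q hq
      have e2 := key u' hu' q hq
      linear_combination e1 - e2) (by
      have e1 := key2 u hu
      have e2 := key2 u' hu'
      linear_combination e1 - e2)
    exact sub_eq_zero.1 h3
  have h5 := key u hu q hq
  have h6 := key u' hu' q hq
  rw [h4, ← h6] at h5
  exact add_left_cancel h5

theorem Bad5.R_of_three (h : Bad5 c) {Q : Finset V} {b : V}
    (h2 : (S c Q b).card = 2) : 2 ≤ (R c Q b).card := by
  by_cases hC : 4 ≤ (C c b).card
  · exact R_of_four hC h2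
  · have h3 : (C c b).card = 3 := by
      have := h.stepA b
      omega
    have h5 : (C c b).card ≤ (C c b \ S c Q b).card + (S c Q b).card :=
      card_le_card_sdiff_add_card
    obtain ⟨j, hj⟩ : (C c b \ S c Q b).Nonempty := card_pos.1 (by omega)
    obtain ⟨hj1, hj2⟩ := mem_sdiff.1 hj
    obtain ⟨u, hu, rfl⟩ := exists_of_mem_C hj1
    have hl := h.lemma1 h3 u
    unfold Lone at hl
    push Not at hl
    obtain ⟨u', hu', hc, hne⟩ := hl hu
    have m1 : u ∈ R c Q b := by
      unfold R
      rw [mem_filter, mem_erase, mem_compl]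
      exact ⟨⟨hu, fun hq => hj2 (mem_image_of_mem _ hq)⟩, hj2⟩
    have m2 : u' ∈ R c Q b := by
      unfold R
      rw [mem_filter, mem_erase, mem_compl]
      refine ⟨⟨hu', fun hq => hj2 ?_⟩, hc ▸ hj2⟩
      rw [← hc]
      exact mem_image_of_mem _ hq
    have : 1 < (R c Q b).card := one_lt_card.2 ⟨u, m1, u', m2, hne.symm⟩
    omega

theorem Bad5.stepC_aux (h : Bad5 c) {v : V} {i1 i2 i3 : ZMod p}
    (hcol : ∀ b, b ≠ v → c v b = i1 ∨ c v b = i2 ∨ c v b = i3) {w w' : V}
    (hw1 : Far c v i1 w) (hw2 : Far c v i2 w) (hw3 : Far c v i3 w') : False := by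
  have hc : c v w = i3 := by
    rcases hcol w hw1.1 with e | e | e
    · exact absurd e hw1.2.1
    · exact absurd e hw2.2.1
    · exact e
  have h4 := h.small0 (Q := {v, w, w'}) (by simp) (by
    intro b hb
    have hbv : b ≠ v := fun e => hb (by simp [e])
    rcases hcol b hbv with e | e | e
    · exact hw1.two_le h.toBad4.toBad (by simp) (by simp) hb e
    · exact hw2.two_le h.toBad4.toBad (by simp) (by simp) hb e
    · exact hw3.two_le h.toBad4.toBad (by simp) (by simp) hb e)
  have h5 : ({v, w, w'} : Finset V).card ≤ 3 := card_le_three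
  have h6 : 2 ≤ (B c {v, w, w'}).card := by
    apply tri_two h.symm h.diag hw1.1.symm hw3.1.symm
    rw [hc]
    exact hw3.2.1.symm
  omega

/-- Each vertex sees at least four colours. -/
theorem Bad5.stepC (h : Bad5 c) (v : V) : 4 ≤ (C c v).card := by
  by_contra hcon
  have hC : (C c v).card = 3 := by
    have := h.stepA v
    omega
  have hdeg : ∀ j ∈ C c v, 2 ≤ deg c v j := fun j hj =>
    two_le_deg_of_not_lone hj fun b _ _ => h.lemma1 hC b
  have hp6 : 6 ≤ p := by
    have h1 := sum_deg (c := c) h.card v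
    have h2 := sum_le_sum hdeg
    rw [h1, sum_const, hC, smul_eq_mul] at h2
    omega
  have hp : 7 ≤ p := by
    rcases hp6.lt_or_eq with h1 | h1
    · omega
    · exact absurd h1.symm h.six
  obtain ⟨i1, i2, i3, h12, h13, h23, hCe⟩ := card_eq_three.1 hC
  have hcol : ∀ b, b ≠ v → c v b = i1 ∨ c v b = i2 ∨ c v b = i3 := by
    intro b hb
    have : c v b ∈ C c v := mem_C hb
    rw [hCe] at this
    simpa using this
  obtain ⟨w1, hw1⟩ := h.toBad4.toBad.far v i1
  obtain ⟨w2, hw2⟩ := h.toBad4.toBad.far v i2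
  obtain ⟨w3, hw3⟩ := h.toBad4.toBad.far v i3
  have n12 : w1 ≠ w2 := by
    rintro rfl
    exact h.stepC_aux hcol hw1 hw2 hw3
  have n13 : w1 ≠ w3 := by
    rintro rfl
    exact h.stepC_aux (i1 := i1) (i2 := i3) (i3 := i2) (fun b hb => by
      rcases hcol b hb with e | e | e <;> simp [e]) hw1 hw3 hw2
  have n23 : w2 ≠ w3 := by
    rintro rfl
    exact h.stepC_aux (i1 := i2) (i2 := i3) (i3 := i1) (fun b hb => by
      rcases hcol b hb with e | e | e <;> simp [e]) hw2 hw3 hw1
  have hQ : ({v, w1, w2, w3} : Finset V).card = 4 := by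
    rw [card_insert_of_notMem, card_insert_of_notMem, card_pair n23]
    · simp [n12, n13]
    · simp [hw1.1.symm, hw2.1.symm, hw3.1.symm]
  have hS : ∀ b, b ∉ ({v, w1, w2, w3} : Finset V) →
      2 ≤ (S c ({v, w1, w2, w3} : Finset V) b).card := by
    intro b hb
    have hbv : b ≠ v := fun e => hb (by simp [e])
    rcases hcol b hbv with e | e | e
    · exact hw1.two_le h.toBad4.toBad (by simp) (by simp) hb e
    · exact hw2.two_le h.toBad4.toBad (by simp) (by simp) hb e
    · exact hw3.two_le h.toBad4.toBad (by simp) (by simp) hb e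
  have hrig : ∀ u u' : V, u ∉ ({v, w1, w2, w3} : Finset V) → u' ∉ ({v, w1, w2, w3} : Finset V) →
      c v u = c v u' := by
    intro u u' hu hu'
    exact h.rigid hp hQ hS (fun b _ h2 => h.R_of_three h2) (by simp) hu hu'
  obtain ⟨u, hu⟩ : ∃ u, u ∉ ({v, w1, w2, w3} : Finset V) := by
    by_contra hcc
    push Not at hcc
    have h1 : (univ : Finset V) ⊆ {v, w1, w2, w3} := fun u _ => hcc u
    have h2 := card_le_card h1
    rw [card_univ, h.card, hQ] at h2
    omega
  have huv : u ≠ v := fun e => hu (by simp [e])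
  -- the colours other than that of `v u` live on `w1, w2, w3`
  have h1 : ((C c v).erase (c v u)).card = 2 := by
    rw [card_erase_of_mem (mem_C huv), hC]
  have h2 : ∑ j ∈ (C c v).erase (c v u), 2 ≤ ∑ j ∈ (C c v).erase (c v u),
      ((({w1, w2, w3} : Finset V).filter fun x => c v x ≠ c v u).filter
        fun x => c v x = j).card := by
    apply sum_le_sum
    intro j hj
    obtain ⟨hj1, hj2⟩ := mem_erase.1 hj
    refine (hdeg j hj2).trans (card_le_card ?_)
    intro x hx
    obtain ⟨hx1, hx2⟩ := mem_filter.1 hx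
    have hxv : x ≠ v := (mem_erase.1 hx1).1
    rw [mem_filter, mem_filter]
    refine ⟨⟨?_, by rw [hx2]; exact hj1⟩, hx2⟩
    by_contra hxx
    apply hj1
    rw [← hx2]
    apply hrig
    · simp only [mem_insert, mem_singleton, not_or] at hxx ⊢
      exact ⟨hxv, hxx⟩
    · exact hu
  rw [← card_eq_sum_card_fiberwise (f := c v)
    (s := ({w1, w2, w3} : Finset V).filter fun x => c v x ≠ c v u)
    (t := (C c v).erase (c v u))] at h2
  · rw [sum_const, h1, smul_eq_mul] at h2
    have h3 := card_filter_le ({w1, w2, w3} : Finset V) fun x => c v x ≠ c v u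
    have h4 : ({w1, w2, w3} : Finset V).card ≤ 3 := card_le_three
    omega
  · intro x hx
    have hx' := mem_filter.1 (mem_coe.1 hx)
    apply mem_coe.2
    apply mem_erase.2
    refine ⟨hx'.2, mem_C ?_⟩
    have := hx'.1
    simp only [mem_insert, mem_singleton] at this
    rcases this with e | e | e
    · rw [e]; exact hw1.1
    · rw [e]; exact hw2.1
    · rw [e]; exact hw3.1

theorem Bad5.lemma3_aux (h : Bad5 c) {x b3 b4 z2 : V} {i1 i2 : ZMod p}
    (hC : (C c x).card = 4) (h3 : Lone c x b3) (h4 : Lone c x b4) (h34 : b3 ≠ b4) (h12 : i1 ≠ i2)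
    (hi1 : i1 ∈ C c x) (hi2 : i2 ∈ C c x) (hi13 : i1 ≠ c x b3) (hi14 : i1 ≠ c x b4)
    (hi23 : i2 ≠ c x b3) (hi24 : i2 ≠ c x b4)
    (hcol : ∀ b, b ≠ x → b ≠ b3 → b ≠ b4 → c x b = i1 ∨ c x b = i2)
    (hz1 : Far c x i1 b3) (hz2 : Far c x i2 z2) : False := by
  have c34 : c x b3 ≠ c x b4 := fun e => h34 (h4.2 b3 h3.1 e)
  have hlone : ∀ b, b ≠ x → b ≠ b3 → b ≠ b4 → ¬ Lone c x b := by
    intro b hb hb3 hb4 hl
    exact h.lemma2 hC h3 h4 hl h34 hb3.symm hb4.symm
  by_cases hz : z2 = b3 ∨ z2 = b4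
  · have h4' := h.small0 (Q := {x, b3, b4}) (by simp) (by
      intro b hb
      have hbx : b ≠ x := fun e => hb (by simp [e])
      have hb3 : b ≠ b3 := fun e => hb (by simp [e])
      have hb4 : b ≠ b4 := fun e => hb (by simp [e])
      rcases hcol b hbx hb3 hb4 with e | e
      · exact hz1.two_le h.toBad4.toBad (by simp) (by simp) hb e
      · exact hz2.two_le h.toBad4.toBad (by simp) (by rcases hz with e' | e' <;> simp [e']) hb e)
    have h5 : ({x, b3, b4} : Finset V).card ≤ 3 := card_le_three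
    have h6 : 2 ≤ (B c {x, b3, b4}).card := tri_two h.symm h.diag h3.1.symm h4.1.symm c34
    omega
  · push Not at hz
    have hc2 : c x z2 = i1 := (hcol z2 hz2.1 hz.1 hz.2).resolve_right hz2.2.1
    have hQ : ({x, b3, z2, b4} : Finset V).card = 4 := by
      rw [card_insert_of_notMem, card_insert_of_notMem, card_pair hz.2]
      · simp [h34, hz.1.symm]
      · simp [h3.1.symm, hz2.1.symm, h4.1.symm]
    have hS : ∀ b, b ∉ ({x, b3, z2, b4} : Finset V) →
        2 ≤ (S c ({x, b3, z2, b4} : Finset V) b).card := by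
      intro b hb
      have hbx : b ≠ x := fun e => hb (by simp [e])
      have hb3 : b ≠ b3 := fun e => hb (by simp [e])
      have hb4 : b ≠ b4 := fun e => hb (by simp [e])
      rcases hcol b hbx hb3 hb4 with e | e
      · exact hz1.two_le h.toBad4.toBad (by simp) (by simp) hb e
      · exact hz2.two_le h.toBad4.toBad (by simp) (by simp) hb e
    have hd1 : 2 ≤ deg c x i1 := by
      apply two_le_deg_of_not_lone hi1
      intro b hb hbc
      exact hlone b hb (fun e => hi13 (by rw [← hbc, e])) (fun e => hi14 (by rw [← hbc, e]))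
    have hd2 : 2 ≤ deg c x i2 := by
      apply two_le_deg_of_not_lone hi2
      intro b hb hbc
      exact hlone b hb (fun e => hi23 (by rw [← hbc, e])) (fun e => hi24 (by rw [← hbc, e]))
    have hp6 : 6 ≤ p := by
      have e1 := sum_deg (c := c) h.card x
      have e2 : ∑ j ∈ ({i1, i2, c x b3, c x b4} : Finset (ZMod p)), deg c x j ≤
          ∑ j ∈ C c x, deg c x j := by
        apply sum_le_sum_of_subset
        intro j hj
        simp only [mem_insert, mem_singleton] at hj
        rcases hj with e | e | e | e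
        · rw [e]; exact hi1
        · rw [e]; exact hi2
        · rw [e]; exact mem_C h3.1
        · rw [e]; exact mem_C h4.1
      rw [sum_insert (by simp [h12, hi13, hi14]), sum_insert (by simp [hi23, hi24]),
        sum_insert (by simp [c34]), sum_singleton, e1] at e2
      have e3 := deg_pos (mem_C (c := c) h3.1)
      have e4 := deg_pos (mem_C (c := c) h4.1)
      omega
    have hp : 7 ≤ p := by
      rcases hp6.lt_or_eq with h1 | h1
      · omega
      · exact absurd h1.symm h.six
    -- a second vertex of colour `i1`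
    have hl := hlone z2 hz2.1 hz.1 hz.2
    unfold Lone at hl
    push Not at hl
    obtain ⟨u, hu, huc, hune⟩ := hl hz2.1
    obtain ⟨u', hu', hu'c⟩ := exists_of_mem_C hi2
    have m1 : u ∉ ({x, b3, z2, b4} : Finset V) := by
      simp only [mem_insert, mem_singleton, not_or]
      refine ⟨hu, ?_, hune, ?_⟩
      · rintro rfl; exact hi13 (by rw [huc, hc2])
      · rintro rfl; exact hi14 (by rw [huc, hc2])
    have m2 : u' ∉ ({x, b3, z2, b4} : Finset V) := by
      simp only [mem_insert, mem_singleton, not_or]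
      refine ⟨hu', ?_, ?_, ?_⟩
      · rintro rfl; exact hi23 hu'c.symm
      · rintro rfl; exact h12 (by rw [← hu'c, hc2])
      · rintro rfl; exact hi24 hu'c.symm
    have := h.rigid hp hQ hS (fun b _ h2 => R_of_four (h.stepC b) h2) (by simp : x ∈ _) m1 m2
    apply h12
    rw [← hc2, ← huc, this, hu'c]

/-- At a vertex seeing exactly four colours at most one of them occurs only once. -/
theorem Bad5.lemma3 (h : Bad5 c) {x b3 b4 : V}
    (hC : (C c x).card = 4) (h3 : Lone c x b3) (h4 : Lone c x b4) : b3 = b4 := by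
  by_contra h34
  have c34 : c x b3 ≠ c x b4 := fun e => h34 (h4.2 b3 h3.1 e)
  have hcard : (((C c x).erase (c x b3)).erase (c x b4)).card = 2 := by
    rw [card_erase_of_mem, card_erase_of_mem, hC]
    · exact mem_C h3.1
    · exact mem_erase.2 ⟨c34.symm, mem_C h4.1⟩
  obtain ⟨i1, i2, h12, heq⟩ := card_eq_two.1 hcard
  have hi1 : i1 ≠ c x b4 ∧ i1 ≠ c x b3 ∧ i1 ∈ C c x := by
    have : i1 ∈ ((C c x).erase (c x b3)).erase (c x b4) := by rw [heq]; simp
    simpa [mem_erase] using this
  have hi2 : i2 ≠ c x b4 ∧ i2 ≠ c x b3 ∧ i2 ∈ C c x := by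
    have : i2 ∈ ((C c x).erase (c x b3)).erase (c x b4) := by rw [heq]; simp
    simpa [mem_erase] using this
  have hcol : ∀ b, b ≠ x → b ≠ b3 → b ≠ b4 → c x b = i1 ∨ c x b = i2 := by
    intro b hb e3 e4
    have : c x b ∈ ((C c x).erase (c x b3)).erase (c x b4) :=
      mem_erase.2 ⟨fun e => e4 (h4.2 b hb e), mem_erase.2 ⟨fun e => e3 (h3.2 b hb e), mem_C hb⟩⟩
    rw [heq] at this
    simpa using this
  obtain ⟨z1, hz1⟩ := h.toBad4.toBad.far x i1
  obtain ⟨z2, hz2⟩ := h.toBad4.toBad.far x i2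
  by_cases a1 : z1 = b3
  · subst a1
    exact h.lemma3_aux hC h3 h4 h34 h12 hi1.2.2 hi2.2.2 hi1.2.1 hi1.1 hi2.2.1 hi2.1 hcol hz1 hz2
  by_cases a2 : z1 = b4
  · subst a2
    exact h.lemma3_aux hC h4 h3 (Ne.symm h34) h12 hi1.2.2 hi2.2.2 hi1.1 hi1.2.1 hi2.1 hi2.2.1
      (fun b e1 e2 e3 => hcol b e1 e3 e2) hz1 hz2
  by_cases a3 : z2 = b3
  · subst a3
    exact h.lemma3_aux hC h3 h4 h34 h12.symm hi2.2.2 hi1.2.2 hi2.2.1 hi2.1 hi1.2.1 hi1.1
      (fun b e1 e2 e3 => (hcol b e1 e2 e3).symm) hz2 hz1
  by_cases a4 : z2 = b4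
  · subst a4
    exact h.lemma3_aux hC h4 h3 (Ne.symm h34) h12.symm hi2.2.2 hi1.2.2 hi2.1 hi2.2.1 hi1.1 hi1.2.1
      (fun b e1 e2 e3 => (hcol b e1 e3 e2).symm) hz2 hz1
  have hc1 : c x z1 = i2 := (hcol z1 hz1.1 a1 a2).resolve_left hz1.2.1
  have hc2 : c x z2 = i1 := (hcol z2 hz2.1 a3 a4).resolve_right hz2.2.1
  have hzz : z1 ≠ z2 := fun e => h12 (by rw [← hc2, ← e, hc1])
  have k1 : c z1 z2 ≠ i1 := hz1.2.2 z2 hz2.1 (Ne.symm hzz) hc2
  have k2 : c z1 z2 ≠ i2 := by
    rw [h.symm]
    exact hz2.2.2 z1 hz1.1 hzz hc1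
  -- the two lone vertices are seen in one colour
  have key : ∀ b b' : V, b ≠ x → b' ≠ x → b ≠ z1 → b ≠ z2 → b' ≠ z1 → b' ≠ z2 → b ≠ b' →
      (∀ u, u ≠ x → u ≠ b → u ≠ b' → c x u = i1 ∨ c x u = i2) →
      c b z1 = c b x ∧ c b z2 = c b x := by
    intro b b' hb hb' hb1 hb2 hb1' hb2' hbb hcol
    by_contra hne
    have h5 := h.small1 (Q := {x, z1, z2}) (by simp) b' (by
      intro u hu hub'
      have hux : u ≠ x := fun e => hu (by simp [e])
      by_cases hub : u = b
      · subst hub
        by_cases e1 : c u z1 = c u x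
        · exact two_le_card_S (q := z2) (q' := x) (by simp) (by simp) fun e => hne ⟨e1, e⟩
        · exact two_le_card_S (q := z1) (q' := x) (by simp) (by simp) e1
      · rcases hcol u hux hub hub' with e | e
        · exact hz1.two_le h.toBad4.toBad (by simp) (by simp) hu e
        · exact hz2.two_le h.toBad4.toBad (by simp) (by simp) hu e)
    have h6 : ({x, z1, z2} : Finset V).card ≤ 3 := card_le_three
    have h7 : 3 ≤ (B c {x, z1, z2}).card := by
      apply tri_three h.symm h.diag hz1.1.symm hz2.1.symm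
      · rw [hc1, hc2]; exact h12.symm
      · rw [hc1]; exact k2
      · rw [hc2]; exact k1
    omega
  have key3 := key b3 b4 h3.1 h4.1 (Ne.symm a1) (Ne.symm a3) (Ne.symm a2) (Ne.symm a4) h34 hcol
  have key4 := key b4 b3 h4.1 h3.1 (Ne.symm a2) (Ne.symm a4) (Ne.symm a1) (Ne.symm a3)
    (Ne.symm h34) (fun u e1 e2 e3 => hcol u e1 e3 e2)
  have last : ∀ b b' : V, b ≠ x → b' ≠ x → b ≠ z1 → b ≠ z2 → b' ≠ z1 → b' ≠ z2 → b ≠ b' →
      (∀ u, u ≠ x → u ≠ b → u ≠ b' → c x u = i1 ∨ c x u = i2) →
      c b z1 = c b x → c b z2 = c b x → c b' b = c b' x := by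
    intro b b' hb hb' hb1 hb2 hb1' hb2' hbb hcol e1 e2
    by_contra hne
    have h5 := h.small0 (Q := {x, z1, z2, b}) (by simp) (by
      intro u hu
      have hux : u ≠ x := fun e => hu (by simp [e])
      have hub : u ≠ b := fun e => hu (by simp [e])
      by_cases hub' : u = b'
      · subst hub'
        exact two_le_card_S (q := b) (q' := x) (by simp) (by simp) hne
      · rcases hcol u hux hub hub' with e | e
        · exact hz1.two_le h.toBad4.toBad (by simp) (by simp) hu e
        · exact hz2.two_le h.toBad4.toBad (by simp) (by simp) hu e)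
    have h6 : ({x, z1, z2, b} : Finset V).card ≤ 4 := card_le_four
    have h7 : 3 ≤ (B c {x, z1, z2, b}).card := by
      apply three_le_card_B h.diag (r := x) (s := z1) (t := z2) (by simp) (by simp) (by simp)
      all_goals
        rw [sum_insert (by simp [hz1.1.symm, hz2.1.symm, hb.symm]),
          sum_insert (by simp [hzz, hb1.symm]), sum_insert (by simp [hb2.symm]), sum_singleton,
          sum_insert (by simp [hz1.1.symm, hz2.1.symm, hb.symm]),
          sum_insert (by simp [hzz, hb1.symm]), sum_insert (by simp [hb2.symm]), sum_singleton]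
        simp only [h.diag, h.symm z1 x, h.symm z2 x, h.symm z2 z1, h.symm x b, h.symm z1 b,
          h.symm z2 b, e1, e2, hc1, hc2]
        intro e
      · exact k1 (by linear_combination -e)
      · exact k2 (by linear_combination -e)
      · exact h12 (by linear_combination -e)
    omega
  have l1 := last b3 b4 h3.1 h4.1 (Ne.symm a1) (Ne.symm a3) (Ne.symm a2) (Ne.symm a4) h34 hcol
    key3.1 key3.2
  have l2 := last b4 b3 h4.1 h3.1 (Ne.symm a2) (Ne.symm a4) (Ne.symm a1) (Ne.symm a3)
    (Ne.symm h34) (fun u e1 e2 e3 => hcol u e1 e3 e2) key4.1 key4.2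
  apply c34
  rw [h.symm x b3, h.symm x b4, ← l1, ← l2, h.symm]

theorem Bad5.weight_gt (h : Bad5 c) (x : V) :
    3 - 6 / ((p : ℚ) + 1) < ∑ j ∈ C c x, (1 - ((1 : ℚ) / 2) ^ deg c x j) := by
  apply weight_bound (C c x) (deg c x) p (fun j hj => deg_pos hj) (sum_deg h.card x) (h.stepC x)
  intro hC j hj k hk hj1 hk1
  obtain ⟨b, hb, rfl⟩ := exists_of_mem_C hj
  obtain ⟨b', hb', rfl⟩ := exists_of_mem_C hk
  have := h.lemma3 hC (lone_of_deg_le_one hb hj1.le) (lone_of_deg_le_one hb' hk1.le)
  rw [this]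

end Pool.Agent.Lib.MP_12e153_co
end

section

/-!
# The conditional averaging argument

If the star inequality holds for all sets of at most five vertices and for all sets containing one
fixed vertex `q0`, there is a contradiction.
-/

set_option autoImplicit false
set_option linter.unusedSectionVars false

namespace Pool.Agent.Lib.MP_12e153_co

open Finset

theorem sum_image_erase_card {α β : Type*} [DecidableEq α] [DecidableEq β] (A : Finset α)
    (f : α → β) (j0 : β) :
    ∑ Q ∈ A.powerset, (((Q.image f).erase j0).card : ℚ) =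
      ∑ j ∈ (A.image f).erase j0, ((2 : ℚ) ^ A.card - 2 ^ (A.filter fun a => f a ≠ j).card) := by
  have h1 : ∀ Q ∈ A.powerset, (((Q.image f).erase j0).card : ℚ) =
      ∑ j ∈ (A.image f).erase j0, if j ∈ Q.image f then (1 : ℚ) else 0 := by
    intro Q hQ
    rw [← sum_filter, sum_const, nsmul_eq_mul, mul_one]
    congr 2
    ext j
    simp only [mem_filter, mem_erase]
    exact ⟨fun h => ⟨⟨h.1, image_subset_image (mem_powerset.1 hQ) h.2⟩, h.2⟩,
      fun h => ⟨h.1.1, h.2⟩⟩
  rw [sum_congr rfl h1, sum_comm]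
  apply sum_congr rfl
  intro j _
  rw [← sum_filter, sum_const, nsmul_eq_mul, mul_one]
  have h2 : (A.powerset.filter fun Q => j ∈ Q.image f).card +
      (A.powerset.filter fun Q => j ∉ Q.image f).card = A.powerset.card :=
    card_filter_add_card_filter_not _
  have h3 : (A.powerset.filter fun Q => j ∉ Q.image f) = (A.filter fun a => f a ≠ j).powerset := by
    ext Q
    simp only [mem_filter, mem_powerset, mem_image, not_exists, not_and, subset_iff]
    constructor
    · rintro ⟨h4, h5⟩ a ha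
      exact ⟨h4 ha, h5 a ha⟩
    · intro h4
      exact ⟨fun a ha => (h4 ha).1, fun a ha => (h4 ha).2⟩
  rw [h3, card_powerset, card_powerset] at h2
  have h4 : (((A.powerset.filter fun Q => j ∈ Q.image f).card : ℚ)) +
      2 ^ (A.filter fun a => f a ≠ j).card = 2 ^ A.card := by exact_mod_cast h2
  linarith

variable {V : Type*} [Fintype V] [DecidableEq V] {p : ℕ} {c : V → V → ZMod p}

theorem Bad5.cond_weight (h : Bad5 c) {x q : V} (hq : q ≠ x) :
    (2 : ℚ) ≤ ∑ j ∈ (C c x).erase (c x q), (1 - ((1 : ℚ) / 2) ^ deg c x j) := by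
  have hmem : c x q ∈ C c x := mem_C hq
  have hcard : ((C c x).erase (c x q)).card = (C c x).card - 1 := card_erase_of_mem hmem
  have h4 := h.stepC x
  have hd : ∀ j ∈ (C c x).erase (c x q), 1 ≤ deg c x j := fun j hj =>
    deg_pos (mem_erase.1 hj).2
  by_cases h5 : 5 ≤ (C c x).card
  · calc (2 : ℚ) ≤ ∑ j ∈ (C c x).erase (c x q), (1 / 2 : ℚ) := by
          rw [sum_const, nsmul_eq_mul, hcard]
          have : (4 : ℚ) ≤ (((C c x).card - 1 : ℕ) : ℚ) := by
            have : 4 ≤ (C c x).card - 1 := by omega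
            exact_mod_cast this
          linarith
      _ ≤ _ := by
          apply sum_le_sum
          intro j hj
          have := half_pow_le (hd j hj)
          linarith
  · have h4e : (C c x).card = 4 := by omega
    set T := (C c x).erase (c x q) with hT
    have h1 : (T.filter fun j => deg c x j = 1).card ≤ 1 := by
      rw [card_le_one]
      intro j hj k hk
      rw [mem_filter, hT, mem_erase] at hj hk
      obtain ⟨b, hb, hbj⟩ := exists_of_mem_C hj.1.2
      obtain ⟨b', hb', hbk⟩ := exists_of_mem_C hk.1.2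
      have := h.lemma3 h4e (lone_of_deg_le_one hb (by rw [hbj]; omega))
        (lone_of_deg_le_one hb' (by rw [hbk]; omega))
      rw [← hbj, ← hbk, this]
    have h1' : ((T.filter fun j => deg c x j = 1).card : ℚ) ≤ 1 := by exact_mod_cast h1
    calc (2 : ℚ) ≤ 3 * (3 / 4) - (1 / 4) * (T.filter fun j => deg c x j = 1).card := by
          linarith
      _ = ∑ j ∈ T, ((3 / 4 : ℚ) - (1 / 4) * if deg c x j = 1 then 1 else 0) := by
          rw [sum_sub_distrib, sum_const, nsmul_eq_mul, hcard, h4e, ← mul_sum, ← sum_filter,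
            sum_const, nsmul_eq_mul, mul_one]
          norm_num
      _ ≤ _ := by
          apply sum_le_sum
          intro j hj
          have hj1 := hd j hj
          by_cases h : deg c x j = 1
          · rw [h]; norm_num
          · have := half_pow_le' (d := deg c x j) (by omega)
            simp only [h, if_false]
            linarith

/-- The conditional total: only sets containing `q0` are used. -/
theorem cond_total (hc : Fintype.card V = p + 1) (hp2 : 2 ≤ p) (q0 : V)
    (hstar : ∀ Q : Finset V, q0 ∈ Q → (B c Q).card + F c Q + 1 ≤ p) :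
    ∑ x ∈ univ.erase q0, ∑ j ∈ (C c x).erase (c x q0), (1 - ((1 : ℚ) / 2) ^ deg c x j) ≤
      2 * p - 4 := by
  set A := univ.erase q0 with hA
  have hAcard : A.card = p := by
    rw [hA, card_erase_of_mem (mem_univ _), card_univ, hc, Nat.add_sub_cancel]
  -- bound for each set
  have h1 : ∀ R ∈ A.powerset,
      ∑ b ∈ A \ R, (((R.image (c b)).erase (c b q0)).card : ℚ) ≤ (p : ℚ) - 2 := by
    intro R hR
    rw [mem_powerset] at hR
    have h2 := hstar (insert q0 R) (mem_insert_self _ _)
    have h3 := card_B_pos (c := c) (insert_nonempty q0 R)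
    have h4 : F c (insert q0 R) = ∑ b ∈ A \ R, ((R.image (c b)).erase (c b q0)).card := by
      unfold F
      have e : (insert q0 R)ᶜ = A \ R := by
        ext b
        simp [hA]
      rw [e]
      apply sum_congr rfl
      intro b _
      unfold S
      rw [image_insert]
      by_cases hb : c b q0 ∈ R.image (c b)
      · rw [insert_eq_of_mem hb, card_erase_of_mem hb]
      · rw [card_insert_of_notMem hb, erase_eq_of_notMem hb, Nat.add_sub_cancel]
    have h5 : ∑ b ∈ A \ R, ((R.image (c b)).erase (c b q0)).card + 2 ≤ p := by omega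
    have h6 : ∑ b ∈ A \ R, (((R.image (c b)).erase (c b q0)).card : ℚ) + 2 ≤ p := by
      exact_mod_cast h5
    linarith
  have h2 := sum_le_sum h1
  rw [sum_const, card_powerset, hAcard] at h2
  have hcomm : ∀ f : Finset V → V → ℚ, ∑ R ∈ A.powerset, ∑ b ∈ A \ R, f R b =
      ∑ b ∈ A, ∑ R ∈ (A.erase b).powerset, f R b := by
    intro f
    apply sum_comm'
    intro R b
    simp only [mem_powerset, mem_sdiff]
    constructor
    · rintro ⟨hR, hbA, hbR⟩
      exact ⟨fun q hq => mem_erase.2 ⟨fun e => hbR (e ▸ hq), hR hq⟩, hbA⟩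
    · rintro ⟨hR, hbA⟩
      exact ⟨fun q hq => (mem_erase.1 (hR hq)).2, hbA, fun hb => absurd rfl (mem_erase.1 (hR hb)).1⟩
  rw [hcomm] at h2
  have h3 : ∀ b ∈ A, ∑ R ∈ (A.erase b).powerset, (((R.image (c b)).erase (c b q0)).card : ℚ) =
      2 ^ (p - 1) * ∑ j ∈ (C c b).erase (c b q0), (1 - ((1 : ℚ) / 2) ^ deg c b j) := by
    intro b hb
    have hbq : b ≠ q0 := (mem_erase.1 hb).1
    have hcb : (A.erase b).card = p - 1 := by
      rw [card_erase_of_mem hb, hAcard]
    rw [sum_image_erase_card, hcb]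
    have e : ((A.erase b).image (c b)).erase (c b q0) = (C c b).erase (c b q0) := by
      ext j
      simp only [mem_erase, mem_image, C, hA, mem_univ, and_true]
      constructor
      · rintro ⟨hj, a, ha, rfl⟩
        exact ⟨hj, a, ha.1, rfl⟩
      · rintro ⟨hj, a, ha, rfl⟩
        refine ⟨hj, a, ⟨ha, ?_⟩, rfl⟩
        rintro rfl; exact hj rfl
    rw [e, mul_sum]
    apply sum_congr rfl
    intro j hj
    have hjne : j ≠ c b q0 := (mem_erase.1 hj).1
    have h4 : deg c b j + ((A.erase b).filter fun a => c b a ≠ j).card = p - 1 := by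
      refine Eq.trans ?_ hcb
      have e1 : deg c b j = ((A.erase b).filter fun a => c b a = j).card := by
        unfold deg
        congr 1
        ext a
        simp only [mem_filter, mem_erase, mem_univ, and_true, hA]
        constructor
        · rintro ⟨ha, hja⟩
          refine ⟨⟨ha, ?_⟩, hja⟩
          rintro rfl; exact hjne hja.symm
        · rintro ⟨⟨ha, _⟩, hja⟩
          exact ⟨ha, hja⟩
      rw [e1]
      exact card_filter_add_card_filter_not _
    have h5 : (2 : ℚ) ^ (p - 1) = 2 ^ deg c b j *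
        2 ^ ((A.erase b).filter fun a => c b a ≠ j).card := by
      rw [← pow_add, h4]
    have h6 : (2 : ℚ) ^ deg c b j * (1 / 2) ^ deg c b j = 1 := by
      rw [← mul_pow]; norm_num
    rw [mul_sub, mul_one]
    congr 1
    rw [h5, mul_comm, ← mul_assoc, mul_comm ((1 / 2 : ℚ) ^ deg c b j), h6, one_mul]
  rw [sum_congr rfl h3, ← mul_sum, nsmul_eq_mul] at h2
  push_cast at h2
  have hpos : (0 : ℚ) < 2 ^ (p - 1) := by positivity
  have h4 : (2 : ℚ) ^ p = 2 ^ (p - 1) * 2 := by
    rw [← pow_succ]; congr 1; omega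
  rw [h4] at h2
  have h5 : (2 : ℚ) ^ (p - 1) * ∑ x ∈ A, ∑ j ∈ (C c x).erase (c x q0),
      (1 - ((1 : ℚ) / 2) ^ deg c x j) ≤ 2 ^ (p - 1) * (2 * p - 4) := by
    linarith
  exact le_of_mul_le_mul_left h5 hpos

/-- There is no bad colouring with the star inequality for small sets and for all sets containing
a fixed vertex. -/
theorem Bad5.false (h : Bad5 c) (q0 : V)
    (hstar : ∀ Q : Finset V, q0 ∈ Q → (B c Q).card + F c Q + 1 ≤ p) : False := by
  have h1 := cond_total (c := c) h.card h.two q0 hstar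
  have h2 : ∑ x ∈ univ.erase q0, (2 : ℚ) ≤ ∑ x ∈ univ.erase q0,
      ∑ j ∈ (C c x).erase (c x q0), (1 - ((1 : ℚ) / 2) ^ deg c x j) := by
    apply sum_le_sum
    intro x hx
    exact h.cond_weight (mem_erase.1 hx).1.symm
  rw [sum_const, card_erase_of_mem (mem_univ _), card_univ, h.card, Nat.add_sub_cancel,
    nsmul_eq_mul] at h2
  linarith

end Pool.Agent.Lib.MP_12e153_co
end

section

/-!
# The extraction lemma relative to a subgroup, and class counts for two nested subgroups
-/

set_option autoImplicit false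
set_option linter.unusedSectionVars false

open Finset
open scoped Pointwise

namespace Pool.Agent.Lib.MP_12e153_co

open Pool.Agent.Kneser

variable {G : Type*} [AddCommGroup G] [Fintype G] [DecidableEq G]

theorem qim_mono {K : AddSubgroup G} {X Y : Finset G} (h : X ⊆ Y) : qim K X ⊆ qim K Y := by
  intro z hz
  rw [mem_qim] at hz ⊢
  obtain ⟨a, ha, rfl⟩ := hz
  exact ⟨a, h ha, rfl⟩

theorem qim_pos {K : AddSubgroup G} {X : Finset G} (h : X.Nonempty) : 1 ≤ (qim K X).card :=
  Finset.card_pos.2 (qim_nonempty h)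

/-- `|X / K| ≤ [H : K] |X / H|`. -/
theorem qim_card_le_mul (K H : AddSubgroup G) (hKH : K ≤ H) (X : Finset G) :
    (qim K X).card ≤ K.relIndex H * (qim H X).card := by
  have h1 := card_add_fs K X
  have h2 := card_add_fs H X
  have h3 := relIndex_mul_fs K H hKH
  have h4 : (X + fs K).card ≤ (X + fs H).card := by
    apply Finset.card_le_card
    apply Finset.add_subset_add_left
    intro x hx
    rw [mem_fs] at hx ⊢
    exact hKH hx
  rw [h1, h2, ← h3] at h4
  have h5 : (qim K X).card * (fs K).card ≤ (K.relIndex H * (qim H X).card) * (fs K).card := by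
    refine h4.trans (le_of_eq ?_)
    ring
  exact Nat.le_of_mul_le_mul_right h5 (fs_card_pos K)

open Classical in
/-- For `0 ∈ Δ`: `|Δ/K| - 1 ≤ (|(Δ ∩ H)/K| - 1) + [H:K] (|Δ/H| - 1)`. -/
theorem qim_card_split (K H : AddSubgroup G) (hKH : K ≤ H) (Δ : Finset G) (h0 : (0 : G) ∈ Δ) :
    (qim K Δ).card - 1 ≤ ((qim K (Δ.filter (· ∈ H))).card - 1) +
      K.relIndex H * ((qim H Δ).card - 1) := by
  -- Δ + fs K = ((Δ ∩ H) + fs K) ∪ ((Δ \ H) + fs K)
  have e : Δ + fs K = (Δ.filter (· ∈ H) + fs K) ∪ (Δ.filter (¬ · ∈ H) + fs K) := by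
    rw [← Finset.union_add, Finset.filter_union_filter_not_eq]
  have h1 := card_add_fs K Δ
  have h2 := card_add_fs K (Δ.filter (· ∈ H))
  have h3 : (Δ.filter (¬ · ∈ H) + fs K).card ≤ ((qim H Δ).card - 1) * (fs H).card := by
    have h4 : Δ.filter (¬ · ∈ H) + fs K ⊆ Δ.filter (¬ · ∈ H) + fs H := by
      apply Finset.add_subset_add_left
      intro x hx
      rw [mem_fs] at hx ⊢
      exact hKH hx
    refine (Finset.card_le_card h4).trans ?_
    rw [card_add_fs]
    apply Nat.mul_le_mul_right
    have h5 : qim H (Δ.filter (¬ · ∈ H)) ⊆ (qim H Δ).erase 0 := by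
      intro z hz
      rw [mem_qim] at hz
      obtain ⟨a, ha, rfl⟩ := hz
      rw [mem_filter] at ha
      rw [mem_erase]
      refine ⟨fun h => ha.2 ((QuotientAddGroup.eq_zero_iff a).1 h), mem_qim.2 ⟨a, ha.1, rfl⟩⟩
    have h6 := Finset.card_le_card h5
    have h7 : (0 : G ⧸ H) ∈ qim H Δ := mem_qim.2 ⟨0, h0, rfl⟩
    rw [Finset.card_erase_of_mem h7] at h6
    exact h6
  have h7 := Finset.card_union_le (Δ.filter (· ∈ H) + fs K) (Δ.filter (¬ · ∈ H) + fs K)
  rw [← e, h1, h2] at h7
  have h8 := relIndex_mul_fs K H hKH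
  have h9 : (qim K Δ).card * (fs K).card ≤
      ((qim K (Δ.filter (· ∈ H))).card + K.relIndex H * ((qim H Δ).card - 1)) * (fs K).card := by
    refine h7.trans ?_
    rw [add_mul]
    apply Nat.add_le_add_left
    refine h3.trans (le_of_eq ?_)
    rw [← h8]; ring
  have h10 := Nat.le_of_mul_le_mul_right h9 (fs_card_pos K)
  have h11 : 1 ≤ (qim K (Δ.filter (· ∈ H))).card :=
    Finset.card_pos.2 ⟨_, mem_qim.2 ⟨0, mem_filter.2 ⟨h0, H.zero_mem⟩, rfl⟩⟩
  omega

open Classical in
/-- choice of representatives: for `A' ⊆ Δ / L` containing `0` there is `A ⊆ Δ` containing `0`,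
with image `A'` and at most as many elements. -/
theorem exists_section (L : AddSubgroup G) (Δ : Finset G) (h0 : (0 : G) ∈ Δ)
    (A' : Finset (G ⧸ L)) (hA' : A' ⊆ qim L Δ) (h0' : (0 : G ⧸ L) ∈ A') :
    ∃ A ⊆ Δ, (0 : G) ∈ A ∧ qim L A = A' ∧ A.card ≤ A'.card := by
  have : ∀ z : G ⧸ L, ∃ x : G, z ∈ A' → x ∈ Δ ∧ (x : G ⧸ L) = z ∧ (z = 0 → x = 0) := by
    intro z
    by_cases hz : z ∈ A'
    · by_cases hz0 : z = 0
      · exact ⟨0, fun _ => ⟨h0, by rw [hz0]; rfl, fun _ => rfl⟩⟩
      · obtain ⟨x, hx, hxz⟩ := mem_qim.1 (hA' hz)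
        exact ⟨x, fun _ => ⟨hx, hxz, fun h => absurd h hz0⟩⟩
    · exact ⟨0, fun h => absurd h hz⟩
  choose f hf using this
  refine ⟨A'.image f, ?_, ?_, ?_, card_image_le⟩
  · intro x hx
    rw [mem_image] at hx
    obtain ⟨z, hz, rfl⟩ := hx
    exact (hf z hz).1
  · rw [mem_image]
    exact ⟨0, h0', (hf 0 h0').2.2 rfl⟩
  · ext z
    rw [mem_qim]
    constructor
    · rintro ⟨x, hx, rfl⟩
      rw [mem_image] at hx
      obtain ⟨w, hw, rfl⟩ := hx
      rw [(hf w hw).2.1]; exact hw
    · intro hz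
      exact ⟨f z, mem_image_of_mem _ hz, (hf z hz).2.1⟩

/-- **GL relative to `L`.** -/
theorem gadgetExtractRel {ι : Type*} [DecidableEq ι] (s : Finset ι) (L H : AddSubgroup G)
    (hLH : L < H) (Δ : ι → Finset G) (h0 : ∀ i ∈ s, (0 : G) ∈ Δ i)
    (hΔ : ∀ i ∈ s, ∀ x ∈ Δ i, x ∈ H)
    (hsum : L.relIndex H ≤ ∑ i ∈ s, ((qim L (Δ i)).card - 1) + 1) :
    ∃ (H' : AddSubgroup G) (A : ι → Finset G), L < H' ∧ H' ≤ H ∧
      (∀ i ∈ s, A i ⊆ Δ i) ∧ (∀ i ∈ s, (0 : G) ∈ A i) ∧ fs L + ∑ i ∈ s, A i = fs H' ∧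
      ∑ i ∈ s, ((A i).card - 1) + 1 ≤ L.relIndex H' := by
  classical
  let _ : Fintype (G ⧸ L) := Fintype.ofFinite _
  let π : G →+ G ⧸ L := QuotientAddGroup.mk' L
  have hker : π.ker = L := QuotientAddGroup.ker_mk' L
  have hrel : ∀ K : AddSubgroup G, (fs (K.map π)).card = L.relIndex K := by
    intro K
    rw [fs_card_eq, ← AddSubgroup.relIndex_ker, hker]
  have h2 : 2 ≤ (fs (H.map π)).card := by
    rw [hrel]
    have h1 : L.relIndex H ≠ 0 := by
      rw [AddSubgroup.relIndex]; exact AddSubgroup.index_ne_zero_of_finite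
    have h2 : L.relIndex H ≠ 1 := by
      intro h3
      rw [AddSubgroup.relIndex_eq_one] at h3
      exact absurd (le_antisymm hLH.le h3) hLH.ne
    omega
  obtain ⟨H'', A', hH1, hH2, hA1, hA2, hA3, hA4⟩ := gadgetExtract s (fs (H.map π)).card
    (H.map π) (fun i => qim L (Δ i)) rfl h2 (fun i hi => mem_qim.2 ⟨0, h0 i hi, rfl⟩) (by
      intro i hi z hz
      rw [mem_qim] at hz
      obtain ⟨x, hx, rfl⟩ := hz
      exact ⟨x, hΔ i hi x hx, rfl⟩) (by rw [hrel]; exact hsum)
  have : ∀ i : ι, ∃ A : Finset G, i ∈ s → A ⊆ Δ i ∧ (0 : G) ∈ A ∧ qim L A = A' i ∧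
      A.card ≤ (A' i).card := by
    intro i
    by_cases hi : i ∈ s
    · obtain ⟨A, h1, h2, h3, h4⟩ := exists_section L (Δ i) (h0 i hi) (A' i) (hA1 i hi) (hA2 i hi)
      exact ⟨A, fun _ => ⟨h1, h2, h3, h4⟩⟩
    · exact ⟨∅, fun h => absurd h hi⟩
  choose A hA using this
  have hmap : (H''.comap π).map π = H'' :=
    AddSubgroup.map_comap_eq_self_of_surjective (QuotientAddGroup.mk'_surjective L) H''
  have hLle : L ≤ H''.comap π := by
    intro x hx
    have h3 : π x = 0 := by rw [← AddMonoidHom.mem_ker, hker]; exact hx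
    rw [AddSubgroup.mem_comap, h3]
    exact H''.zero_mem
  refine ⟨H''.comap π, A, ?_, ?_, fun i hi => (hA i hi).1, fun i hi => (hA i hi).2.1, ?_, ?_⟩
  · apply lt_of_le_of_ne hLle
    intro heq
    have h3 := hrel (H''.comap π)
    rw [hmap, ← heq, AddSubgroup.relIndex_self] at h3
    omega
  · intro x hx
    rw [AddSubgroup.mem_comap] at hx
    have hx2 := hH1 hx
    obtain ⟨y, hy, hyx⟩ := hx2
    have h3 : x - y ∈ L := by
      rw [← hker, AddMonoidHom.mem_ker, map_sub, hyx, sub_self]
    have h4 : x = (x - y) + y := by abel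
    rw [h4]
    exact H.add_mem (hLH.le h3) hy
  · -- the sum
    apply Finset.Subset.antisymm
    · intro y hy
      rw [mem_add] at hy
      obtain ⟨l, hl, z, hz, rfl⟩ := hy
      rw [mem_sum_iff] at hz
      obtain ⟨f, hf, rfl⟩ := hz
      rw [mem_fs] at hl ⊢
      rw [AddSubgroup.mem_comap, map_add, map_sum]
      have h3 : π l = 0 := by rw [← AddMonoidHom.mem_ker, hker]; exact hl
      rw [h3, zero_add, ← mem_fs, ← hA3, mem_sum_iff]
      refine ⟨fun i => π (f i), fun i hi => ?_, rfl⟩
      rw [← (hA i hi).2.2.1]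
      exact mem_qim.2 ⟨f i, hf i hi, rfl⟩
    · intro y hy
      rw [mem_fs, AddSubgroup.mem_comap, ← mem_fs, ← hA3, mem_sum_iff] at hy
      obtain ⟨g, hg, hgy⟩ := hy
      have : ∀ i : ι, ∃ x : G, i ∈ s → x ∈ A i ∧ π x = g i := by
        intro i
        by_cases hi : i ∈ s
        · have := hg i hi
          rw [← (hA i hi).2.2.1, mem_qim] at this
          obtain ⟨x, hx, hxe⟩ := this
          exact ⟨x, fun _ => ⟨hx, hxe⟩⟩
        · exact ⟨0, fun h => absurd h hi⟩
      choose f hf using this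
      rw [mem_add]
      refine ⟨y - ∑ i ∈ s, f i, ?_, ∑ i ∈ s, f i, ?_, by abel⟩
      · rw [mem_fs, ← hker, AddMonoidHom.mem_ker, map_sub, map_sum,
          sum_congr rfl (fun i hi => (hf i hi).2), hgy, sub_self]
      · rw [mem_sum_iff]
        exact ⟨f, fun i hi => (hf i hi).1, rfl⟩
  · rw [← hrel, hmap]
    refine le_trans ?_ hA4
    apply Nat.add_le_add_right
    apply Finset.sum_le_sum
    intro i hi
    have := (hA i hi).2.2.2
    omega

end Pool.Agent.Lib.MP_12e153_co
end

section

/-!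
# Based gadgets: (Star) and the saturated inequality (S)
-/

set_option autoImplicit false
set_option linter.unusedSectionVars false

open Finset
open scoped Pointwise

namespace Pool.Agent.Lib.MP_12e153_co.Comp

open Pool.Agent.Kneser Pool.Agent.Lib.MP_12e153_co

variable {V : Type*} [Fintype V] [DecidableEq V]
variable {G : Type*} [AddCommGroup G] [Fintype G] [DecidableEq G]
variable {c : V → V → G}

/-- A gadget for the subgroup `L` based at `q`: the leaves in `P` have colours in `A b`, all of the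
class of `c b q` mod `L`, and the sums of the `A b` cover the whole class. -/
structure Gadget (c : V → V → G) (L : AddSubgroup G) (P Q : Finset V) (q : V)
    (A : V → Finset G) : Prop where
  disj : Disjoint P Q
  mem : q ∈ Q
  sub : ∀ b ∈ P, A b ⊆ S c Q b
  base : ∀ b ∈ P, c b q ∈ A b
  cls : ∀ b ∈ P, ∀ x ∈ A b, x - c b q ∈ L
  gen : ∀ y ∈ L, ∑ b ∈ P, c b q + y ∈ ∑ b ∈ P, A b
  flex : ∑ b ∈ P, ((A b).card - 1) + 1 ≤ (fs L).card

/-- There is a gadget for `L` based at `q`. -/
def HasGadget (c : V → V → G) (L : AddSubgroup G) (q : V) : Prop :=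
  ∃ P Q A, Gadget c L P Q q A

theorem hasGadget_bot (q : V) : HasGadget c (⊥ : AddSubgroup G) q := by
  refine ⟨∅, {q}, fun _ => ∅, by simp, by simp, by simp, by simp, by simp, ?_, ?_⟩
  · intro y hy
    rw [AddSubgroup.mem_bot] at hy
    simp [hy]
  · have := fs_card_pos (⊥ : AddSubgroup G)
    simpa using this

/-- Remove the leaves with a single colour. -/
theorem Gadget.trim {L : AddSubgroup G} {P Q : Finset V} {q : V} {A : V → Finset G}
    (h : Gadget c L P Q q A) :
    Gadget c L (P.filter (fun b => 2 ≤ (A b).card)) Q q A := by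
  classical
  refine ⟨?_, h.mem, ?_, ?_, ?_, ?_, ?_⟩
  · exact Finset.disjoint_of_subset_left (filter_subset _ _) h.disj
  · exact fun b hb => h.sub b (mem_filter.1 hb).1
  · exact fun b hb => h.base b (mem_filter.1 hb).1
  · exact fun b hb => h.cls b (mem_filter.1 hb).1
  · intro y hy
    have h1 := h.gen y hy
    rw [mem_sum_iff] at h1 ⊢
    obtain ⟨f, hf, hfy⟩ := h1
    refine ⟨f, fun b hb => hf b (mem_filter.1 hb).1, ?_⟩
    have h2 := Finset.sum_filter_add_sum_filter_not P (fun b => 2 ≤ (A b).card) f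
    have h3 := Finset.sum_filter_add_sum_filter_not P (fun b => 2 ≤ (A b).card)
      (fun b => c b q)
    have h4 : ∑ b ∈ P.filter (fun b => ¬ 2 ≤ (A b).card), f b =
        ∑ b ∈ P.filter (fun b => ¬ 2 ≤ (A b).card), c b q := by
      apply sum_congr rfl
      intro b hb
      rw [mem_filter] at hb
      have h5 : (A b).card ≤ 1 := by omega
      exact Finset.card_le_one.1 h5 _ (hf b hb.1) _ (h.base b hb.1)
    rw [h4] at h2
    rw [← h3] at hfy
    have h6 : ∑ b ∈ P.filter (fun b => 2 ≤ (A b).card), f b =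
        ∑ b ∈ P, f b - ∑ b ∈ P.filter (fun b => ¬ 2 ≤ (A b).card), c b q := by
      rw [← h2]; abel
    rw [h6, hfy]; abel
  · refine le_trans ?_ h.flex
    apply Nat.add_le_add_right
    exact Finset.sum_le_sum_of_subset (filter_subset _ _)

theorem Gadget.trim_card {L : AddSubgroup G} {P Q : Finset V} {q : V} {A : V → Finset G}
    (h : Gadget c L P Q q A) (hA : ∀ b ∈ P, 2 ≤ (A b).card) : P.card + 1 ≤ (fs L).card := by
  refine le_trans ?_ h.flex
  apply Nat.add_le_add_right
  rw [Finset.card_eq_sum_ones]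
  apply Finset.sum_le_sum
  intro b hb
  have := hA b hb
  omega

/-- Enlarge the middle set of a gadget. -/
theorem Gadget.enlarge {L : AddSubgroup G} {P Q Q' : Finset V} {q : V} {A : V → Finset G}
    (h : Gadget c L P Q q A) (hQ : Q ⊆ Q') (hd : Disjoint P Q') : Gadget c L P Q' q A :=
  ⟨hd, hQ h.mem, fun b hb => (h.sub b hb).trans (S_mono hQ b), h.base, h.cls, h.gen, h.flex⟩

/-- **(Star).** A gadget for `L` based at `q` forces the sum of the full star at `q` out of `L`. -/
theorem Gadget.star (h : NZ c) (hs : ∀ u v, c u v = c v u) {L : AddSubgroup G} {P Q : Finset V}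
    {q : V} {A : V → Finset G} (hG : Gadget c L P Q q A) :
    ∑ v ∈ univ.erase q, c q v ∉ L := by
  classical
  intro hσ
  have h1 := hG.gen _ (L.neg_mem hσ)
  rw [mem_sum_iff] at h1
  obtain ⟨f, hf, hfy⟩ := h1
  refine h.choice (Q := Q) hG.mem (fun b => if b ∈ P then f b else c b q) ?_ ?_
  · intro b hb
    by_cases hbP : b ∈ P
    · simp only [hbP, if_true]
      exact hG.sub b hbP (hf b hbP)
    · simp only [hbP, if_false]
      exact mem_S.2 ⟨q, hG.mem, rfl⟩
  · have e2 : Qᶜ = P ∪ (Q ∪ P)ᶜ := by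
      ext b
      simp only [mem_compl, mem_union]
      by_cases hbQ : b ∈ Q
      · have : b ∉ P := fun hbP => (Finset.disjoint_left.1 hG.disj hbP hbQ)
        simp [hbQ, this]
      · by_cases hbP : b ∈ P
        · simp [hbQ, hbP]
        · simp [hbQ, hbP]
    have d1 : Disjoint P (Q ∪ P)ᶜ := by
      rw [Finset.disjoint_left]
      intro b hbD hb
      simp only [mem_compl, mem_union] at hb
      exact hb (Or.inr hbD)
    have e3 : univ.erase q = Q.erase q ∪ Qᶜ := by
      ext b
      simp only [mem_erase, mem_univ, and_true, mem_union, mem_compl]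
      by_cases hbq : b = q
      · subst hbq; simp [hG.mem]
      · by_cases hbQ : b ∈ Q
        · simp [hbq, hbQ]
        · simp [hbq, hbQ]
    have d3 : Disjoint (Q.erase q) Qᶜ := by
      rw [Finset.disjoint_left]
      intro b hb hb'
      exact (mem_compl.1 hb') (mem_of_mem_erase hb)
    rw [e3, sum_union d3, e2, sum_union d1] at hfy
    rw [e2, sum_union d1]
    have s1 : ∑ b ∈ P, (if b ∈ P then f b else c b q) = ∑ b ∈ P, f b :=
      sum_congr rfl fun b hb => by simp [hb]
    have s2 : ∑ b ∈ (Q ∪ P)ᶜ, (if b ∈ P then f b else c b q) = ∑ b ∈ (Q ∪ P)ᶜ, c b q :=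
      sum_congr rfl fun b hb => by
        have : b ∉ P := fun hD => Finset.disjoint_left.1 d1 hD hb
        simp [this]
    have s3 : ∑ b ∈ P, c q b = ∑ b ∈ P, c b q := sum_congr rfl fun b _ => hs q b
    have s4 : ∑ b ∈ (Q ∪ P)ᶜ, c q b = ∑ b ∈ (Q ∪ P)ᶜ, c b q := sum_congr rfl fun b _ => hs q b
    rw [s1, s2, hfy, s3, s4]
    abel

theorem qim_translate (K : AddSubgroup G) (X : Finset G) (a : G) :
    (qim K (X.image (fun x => x - a))).card = (qim K X).card := by
  classical
  have h1 := card_add_fs K (X.image (fun x => x - a))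
  have h2 := card_add_fs K X
  have h3 : X.image (fun x => x - a) + fs K = (X + fs K).image (fun x => x - a) := by
    ext y
    simp only [mem_add, mem_image]
    constructor
    · rintro ⟨_, ⟨x, hx, rfl⟩, k, hk, rfl⟩
      exact ⟨x + k, ⟨x, hx, k, hk, rfl⟩, by abel⟩
    · rintro ⟨_, ⟨x, hx, k, hk, rfl⟩, rfl⟩
      exact ⟨x - a, ⟨x, hx, rfl⟩, k, hk, by abel⟩
  have h4 : ((X + fs K).image (fun x => x - a)).card = (X + fs K).card :=
    Finset.card_image_of_injective _ (sub_left_injective)
  rw [h3, h4, h2] at h1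
  exact (Nat.eq_of_mul_eq_mul_right (fs_card_pos K) h1).symm

open Classical in
/-- The colours from `v` to `C` relative to the base colour, inside `H`. -/
noncomputable def Dl (c : V → V → G) (q : V) (H : AddSubgroup G) (C : Finset V) (v : V) :
    Finset G := ((S c C v).image (fun x => x - c v q)).filter (· ∈ H)

/-- **Extension of a gadget.** -/
theorem Gadget.extend {K H : AddSubgroup G} {P Q : Finset V}
    {q : V} {A : V → Finset G} (hG : Gadget c K P Q q A) (hKH : K < H)
    {W : Finset V} (hdPW : Disjoint P W) (hdWQ : Disjoint W Q)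
    (hflex : K.relIndex H ≤ ∑ v ∈ W, ((qim K (Dl c q H Q v)).card - 1) + 1) :
    ∃ K' A', K < K' ∧ K' ≤ H ∧ Gadget c K' (P ∪ W) Q q A' ∧ (∀ b ∈ P, A' b = A b) := by
  classical
  have h0 : ∀ v : V, (0 : G) ∈ Dl c q H Q v := by
    intro v
    rw [Dl, mem_filter, mem_image]
    exact ⟨⟨c v q, mem_S.2 ⟨q, hG.mem, rfl⟩, by simp⟩, H.zero_mem⟩
  have hH : ∀ v : V, ∀ x ∈ Dl c q H Q v, x ∈ H := by
    intro v x hx
    rw [Dl, mem_filter] at hx
    exact hx.2
  obtain ⟨K', A', h1, h2, h3, h4, h5, h6⟩ := gadgetExtractRel W K H hKH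
    (Dl c q H Q) (fun v _ => h0 v) (fun v _ => hH v) hflex
  have hsub' : ∀ v ∈ W, ∀ x ∈ A' v, x ∈ K' := by
    intro v hv x hx
    have : x ∈ fs K' := by
      rw [← h5, mem_add]
      refine ⟨0, by simp, x, ?_, by simp⟩
      rw [mem_sum_iff]
      refine ⟨fun w => if w = v then x else 0, ?_, ?_⟩
      · intro w hw
        by_cases hwv : w = v
        · subst hwv; simpa using hx
        · simp only [hwv, if_false]; exact h4 w hw
      · rw [Finset.sum_ite_eq' W v]
        simp [hv]
    simpa using this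
  refine ⟨K', fun v => if v ∈ P then A v else (A' v).image (fun x => x + c v q), h1, h2, ?_,
    fun b hb => by simp [hb]⟩
  have hWP : ∀ b ∈ W, b ∉ P := fun b hb hbP => Finset.disjoint_left.1 hdPW hbP hb
  refine ⟨?_, hG.mem, ?_, ?_, ?_, ?_, ?_⟩
  · rw [disjoint_union_left]
    exact ⟨hG.disj, hdWQ⟩
  · intro b hb
    by_cases hbP : b ∈ P
    · simp only [hbP, if_true]; exact hG.sub b hbP
    · simp only [hbP, if_false]
      have hbW : b ∈ W := (mem_union.1 hb).resolve_left hbP
      intro x hx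
      rw [mem_image] at hx
      obtain ⟨y, hy, rfl⟩ := hx
      have h7 := h3 b hbW hy
      rw [Dl, mem_filter, mem_image] at h7
      obtain ⟨⟨z, hz, hzy⟩, _⟩ := h7
      have : y + c b q = z := by rw [← hzy]; abel
      rw [this]; exact hz
  · intro b hb
    by_cases hbP : b ∈ P
    · simp only [hbP, if_true]; exact hG.base b hbP
    · simp only [hbP, if_false]
      have hbW : b ∈ W := (mem_union.1 hb).resolve_left hbP
      rw [mem_image]
      exact ⟨0, h4 b hbW, by simp⟩
  · intro b hb x hx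
    by_cases hbP : b ∈ P
    · simp only [hbP, if_true] at hx
      exact h1.le (hG.cls b hbP x hx)
    · simp only [hbP, if_false] at hx
      have hbW : b ∈ W := (mem_union.1 hb).resolve_left hbP
      rw [mem_image] at hx
      obtain ⟨y, hy, rfl⟩ := hx
      rw [add_sub_cancel_right]
      exact hsub' b hbW y hy
  · intro y hy
    rw [← mem_fs, ← h5, mem_add] at hy
    obtain ⟨k, hk, z, hz, rfl⟩ := hy
    rw [mem_fs] at hk
    rw [mem_sum_iff] at hz
    obtain ⟨f, hf, rfl⟩ := hz
    have h7 := hG.gen k hk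
    rw [mem_sum_iff] at h7
    obtain ⟨g, hg, hgy⟩ := h7
    rw [mem_sum_iff]
    refine ⟨fun b => if b ∈ P then g b else f b + c b q, ?_, ?_⟩
    · intro b hb
      by_cases hbP : b ∈ P
      · simp only [hbP, if_true]; exact hg b hbP
      · simp only [hbP, if_false]
        have hbW : b ∈ W := (mem_union.1 hb).resolve_left hbP
        exact mem_image_of_mem _ (hf b hbW)
    · rw [sum_union hdPW, sum_union hdPW]
      have s1 : ∑ b ∈ P, (if b ∈ P then g b else f b + c b q) = ∑ b ∈ P, g b :=
        sum_congr rfl fun b hb => by simp [hb]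
      have s2 : ∑ b ∈ W, (if b ∈ P then g b else f b + c b q) = ∑ b ∈ W, (f b + c b q) :=
        sum_congr rfl fun b hb => by simp [hWP b hb]
      rw [s1, s2, hgy, sum_add_distrib]
      abel
  · rw [sum_union hdPW]
    have s1 : ∑ b ∈ P, (((if b ∈ P then A b else (A' b).image (fun x => x + c b q))).card - 1) =
        ∑ b ∈ P, ((A b).card - 1) := sum_congr rfl fun b hb => by simp [hb]
    have s2 : ∑ b ∈ W, (((if b ∈ P then A b else (A' b).image (fun x => x + c b q))).card - 1) =
        ∑ b ∈ W, ((A' b).card - 1) := sum_congr rfl fun b hb => by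
      simp only [hWP b hb, if_false]
      rw [Finset.card_image_of_injective _ (add_left_injective _)]
    rw [s1, s2]
    have h7 := hG.flex
    have h8 := relIndex_mul_fs K K' h1.le
    have h9 := two_le_relIndex h1
    have h10 := fs_card_pos K
    rw [← h8]
    obtain ⟨x, hx⟩ := Nat.exists_eq_add_of_le h9
    obtain ⟨y, hy⟩ := Nat.exists_eq_add_of_le h10
    have h11 : K.relIndex K' + (fs K).card ≤ K.relIndex K' * (fs K).card + 1 := by
      rw [hx, hy]
      nlinarith [Nat.zero_le (x * y)]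
    omega

/-- **(S).** The star inequality mod `K` outside the leaves of a gadget for a subgroup `K` which is
maximal among the subgroups with a gadget based at `q`. -/
theorem Gadget.saturated (h : NZ c) {K : AddSubgroup G} {P Q : Finset V}
    {q : V} {A : V → Finset G} (hG : Gadget c K P Q q A)
    (hmax : ∀ K' : AddSubgroup G, K < K' → ¬ HasGadget c K' q)
    {C : Finset V} (hQC : Q ⊆ C) (hPC : Disjoint P C) :
    (qim K (B c C)).card + ∑ v ∈ (C ∪ P)ᶜ, ((qim K (S c C v)).card - 1) + 1 ≤ K.index := by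
  classical
  have hGC := hG.enlarge hQC hPC
  have hCne : C.Nonempty := ⟨q, hGC.mem⟩
  set W := (C ∪ P)ᶜ with hW
  set T' := (B c C + fs K) + ∑ v ∈ W, S c C v with hT'
  have hCW : Cᶜ = P ∪ W := by
    ext b
    simp only [mem_compl, mem_union, hW]
    by_cases hbQ : b ∈ C
    · have : b ∉ P := fun hbP => (Finset.disjoint_left.1 hPC hbP hbQ)
      simp [hbQ, this]
    · by_cases hbP : b ∈ P
      · simp [hbQ, hbP]
      · simp [hbQ, hbP]
  have hdPW : Disjoint P W := by
    rw [Finset.disjoint_left]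
    intro b hbD hb
    simp only [mem_compl, mem_union, hW] at hb
    exact hb (Or.inr hbD)
  -- T' is not everything
  have hTne : T' ≠ univ := by
    intro hT
    have h0 : -(∑ b ∈ P, c b q) ∈ T' := by rw [hT]; exact mem_univ _
    rw [hT', mem_add] at h0
    obtain ⟨z, hz, w, hw, hzw⟩ := h0
    rw [mem_add] at hz
    obtain ⟨β, hβ, k, hk, rfl⟩ := hz
    rw [B, mem_image] at hβ
    obtain ⟨r, hr, rfl⟩ := hβ
    rw [mem_sum_iff] at hw
    obtain ⟨f, hf, rfl⟩ := hw
    rw [mem_fs] at hk
    have h1 := hG.gen k hk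
    rw [mem_sum_iff] at h1
    obtain ⟨g, hg, hgy⟩ := h1
    refine h.choice hr (fun b => if b ∈ P then g b else f b) ?_ ?_
    · intro b hb
      by_cases hbP : b ∈ P
      · simp only [hbP, if_true]
        exact hGC.sub b hbP (hg b hbP)
      · simp only [hbP, if_false]
        apply hf
        simp [hW, hb, hbP]
    · rw [hCW, sum_union hdPW]
      have s1 : ∑ b ∈ P, (if b ∈ P then g b else f b) = ∑ b ∈ P, g b :=
        sum_congr rfl fun b hb => by simp [hb]
      have s2 : ∑ b ∈ W, (if b ∈ P then g b else f b) = ∑ b ∈ W, f b :=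
        sum_congr rfl fun b hb => by
          have : b ∉ P := fun hD => Finset.disjoint_left.1 hdPW hD hb
          simp [this]
      rw [s1, s2, hgy]
      have e : ∑ q ∈ C.erase r, c r q + (∑ b ∈ P, c b q + k + ∑ b ∈ W, f b) =
          (∑ q ∈ C.erase r, c r q + k + ∑ i ∈ W, f i) + ∑ b ∈ P, c b q := by abel
      rw [e, hzw]
      abel
  have hBne : (B c C + fs K).Nonempty := (B_nonempty hCne).add ⟨0, by simp⟩
  obtain ⟨hHtop, hH⟩ := kneser_proper W (S c C) (B c C + fs K) hBne
    (fun b _ => S_nonempty hCne b) hTne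
  rw [← hT'] at hHtop hH
  have hKH : K ≤ stab T' := by
    rw [hT']
    have e : (B c C + fs K) + ∑ v ∈ W, S c C v = (B c C + ∑ v ∈ W, S c C v) + fs K := by abel
    rw [e]
    exact le_stab_add_fs _ _
  have hBsub : B c C ⊆ B c C + fs K := by
    intro x hx
    rw [mem_add]
    exact ⟨x, hx, 0, by simp, by simp⟩
  have hBm : ∀ H : AddSubgroup G, (qim H (B c C)).card ≤ (qim H (B c C + fs K)).card :=
    fun H => Finset.card_le_card (qim_mono hBsub)
  by_cases heq : stab T' = K
  · rw [heq] at hH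
    have := hBm K
    omega
  · have hlt : K < stab T' := lt_of_le_of_ne hKH (Ne.symm heq)
    set H := stab T' with hHdef
    by_contra hcon
    push Not at hcon
    have hflex : K.relIndex H ≤ ∑ v ∈ W, ((qim K (Dl c q H C v)).card - 1) + 1 := by
      have hsplit : ∀ v ∈ W, (qim K (S c C v)).card - 1 ≤ ((qim K (Dl c q H C v)).card - 1) +
          K.relIndex H * ((qim H (S c C v)).card - 1) := by
        intro v _
        have h1 := qim_card_split K H hKH ((S c C v).image (fun x => x - c v q))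
          (mem_image.2 ⟨c v q, mem_S.2 ⟨q, hGC.mem, rfl⟩, by simp⟩)
        rw [qim_translate, qim_translate] at h1
        exact h1
      have h2 := Finset.sum_le_sum hsplit
      rw [sum_add_distrib, ← mul_sum] at h2
      have h3 := qim_card_le_mul K H hKH (B c C)
      have h4 := hBm H
      have h5 := index_mul K H hKH
      have h6 : K.relIndex H * (qim H (B c C)).card +
          K.relIndex H * ∑ v ∈ W, ((qim H (S c C v)).card - 1) + K.relIndex H ≤ K.index := by
        rw [h5, ← mul_add, ← Nat.mul_succ]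
        apply Nat.mul_le_mul_left
        omega
      omega
    obtain ⟨K', A', h1, h2, h3, h4⟩ := hGC.extend hlt hdPW (W := W) (by
      rw [Finset.disjoint_left]
      intro b hb hbC
      simp only [hW, mem_compl, mem_union] at hb
      exact hb (Or.inl hbC)) hflex
    exact hmax K' h1 ⟨_, _, _, h3⟩

end Pool.Agent.Lib.MP_12e153_co.Comp
end

section

/-!
# Gadget-free vertices
-/

set_option autoImplicit false
set_option linter.unusedSectionVars false

open Finset
open scoped Pointwise

namespace Pool.Agent.Lib.MP_12e153_co.Comp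

open Pool.Agent.Kneser Pool.Agent.Lib.MP_12e153_co

variable {V : Type*} [Fintype V] [DecidableEq V]
variable {G : Type*} [AddCommGroup G] [Fintype G] [DecidableEq G]
variable {c : V → V → G}

/-- The vertex `q` carries no based gadget for a nonzero subgroup. -/
def Free (c : V → V → G) (q : V) : Prop := ∀ K : AddSubgroup G, ⊥ < K → ¬ HasGadget c K q

theorem fs_bot_card : (fs (⊥ : AddSubgroup G)).card = 1 := by
  have : fs (⊥ : AddSubgroup G) = {0} := by
    ext x; simp
  rw [this, card_singleton]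

theorem qim_bot (X : Finset G) : (qim (⊥ : AddSubgroup G) X).card = X.card := by
  have h1 := card_add_fs (⊥ : AddSubgroup G) X
  have h2 : fs (⊥ : AddSubgroup G) = {0} := by
    ext x; simp
  rw [fs_bot_card, mul_one, h2, Finset.add_singleton] at h1
  rw [← h1]
  simp

theorem index_bot' : (⊥ : AddSubgroup G).index = Fintype.card G := by
  rw [AddSubgroup.index_bot, Nat.card_eq_fintype_card]

theorem relIndex_bot' (H : AddSubgroup G) : (⊥ : AddSubgroup G).relIndex H = (fs H).card := by
  rw [AddSubgroup.relIndex_bot_left, fs_card_eq]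

theorem trivialGadget {C : Finset V} {q : V} (hq : q ∈ C) :
    Gadget c (⊥ : AddSubgroup G) ∅ C q (fun _ => ∅) := by
  refine ⟨by simp, hq, by simp, by simp, by simp, ?_, ?_⟩
  · intro y hy
    rw [AddSubgroup.mem_bot] at hy
    simp [hy]
  · rw [fs_bot_card]; simp

/-- The full star inequality `(*)` for sets containing a gadget-free vertex. -/
theorem Free.star (h : NZ c) {C : Finset V} {q : V} (hF : Free c q) (hq : q ∈ C) :
    (B c C).card + ∑ v ∈ Cᶜ, ((S c C v).card - 1) + 1 ≤ Fintype.card G := by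
  have h1 := (trivialGadget (c := c) hq).saturated h hF (Finset.Subset.refl C)
    (Finset.disjoint_empty_left C)
  rw [qim_bot, index_bot', union_empty] at h1
  refine le_trans (le_of_eq ?_) h1
  congr 2
  apply sum_congr rfl
  intro v _
  rw [qim_bot]

/-- At a gadget-free vertex the flex inside every subgroup is small. -/
theorem Free.flex {C : Finset V} {q : V} (hF : Free c q) (hq : q ∈ C) (H : AddSubgroup G)
    (hH : ⊥ < H) {W : Finset V} (hW : Disjoint W C) :
    ∑ v ∈ W, ((Dl c q H C v).card - 1) + 2 ≤ (fs H).card := by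
  by_contra hcon
  push Not at hcon
  obtain ⟨K', A', h1, h2, h3, -⟩ := (trivialGadget (c := c) hq).extend hH
    (Finset.disjoint_empty_left W) hW (by
      rw [relIndex_bot']
      have e : ∑ v ∈ W, ((qim ⊥ (Dl c q H C v)).card - 1) =
          ∑ v ∈ W, ((Dl c q H C v).card - 1) :=
        sum_congr rfl fun v _ => by rw [qim_bot]
      rw [e]
      omega)
  exact hF K' h1 ⟨_, _, _, h3⟩

/-- Among the subgroups with a gadget at `q` there is a maximal one. -/
theorem exists_maximal_gadget (q : V) : ∃ K : AddSubgroup G, HasGadget c K q ∧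
    ∀ K', K < K' → ¬ HasGadget c K' q := by
  classical
  have hfin : ({K : AddSubgroup G | HasGadget c K q}).Finite := Set.toFinite _
  obtain ⟨K, hK⟩ := hfin.exists_maximal ⟨⊥, hasGadget_bot q⟩
  refine ⟨K, hK.prop, ?_⟩
  intro K' hlt hK'
  exact absurd (hK.le_of_ge hK' hlt.le) (not_le_of_gt hlt)

end Pool.Agent.Lib.MP_12e153_co.Comp
end

section

/-!
# The modulus six with the star inequality for all sets
-/

set_option autoImplicit false
set_option linter.unusedSectionVars false

namespace Pool.Agent.Lib.MP_12e153_co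

open Finset

theorem sum_image_card3 {α β : Type*} [DecidableEq α] [DecidableEq β] (A : Finset α) (f : α → β)
    (n : ℕ) :
    ∑ Q ∈ A.powersetCard n, (Q.image f).card =
      ∑ j ∈ A.image f, (A.card.choose n - (A.filter fun a => f a ≠ j).card.choose n) := by
  have h1 : ∀ Q ∈ A.powersetCard n, (Q.image f).card =
      ∑ j ∈ A.image f, if j ∈ Q.image f then 1 else 0 := by
    intro Q hQ
    rw [← card_filter]
    congr 1
    ext j
    simp only [mem_filter]
    exact ⟨fun h => ⟨image_subset_image (mem_powersetCard.1 hQ).1 h, h⟩, fun h => h.2⟩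
  rw [sum_congr rfl h1, sum_comm]
  apply sum_congr rfl
  intro j _
  rw [← card_filter]
  have h2 : ((A.powersetCard n).filter fun Q => j ∈ Q.image f).card +
      ((A.powersetCard n).filter fun Q => j ∉ Q.image f).card = (A.powersetCard n).card :=
    card_filter_add_card_filter_not _
  have h3 : ((A.powersetCard n).filter fun Q => j ∉ Q.image f) =
      (A.filter fun a => f a ≠ j).powersetCard n := by
    ext Q
    simp only [mem_filter, mem_powersetCard, mem_image, not_exists, not_and, subset_iff]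
    constructor
    · rintro ⟨⟨h4, h4'⟩, h5⟩
      exact ⟨fun a ha => ⟨h4 ha, h5 a ha⟩, h4'⟩
    · rintro ⟨h4, h4'⟩
      exact ⟨⟨fun a ha => (h4 ha).1, h4'⟩, fun a ha => (h4 ha).2⟩
  rw [h3, card_powersetCard, card_powersetCard] at h2
  omega

variable {V : Type*} [Fintype V] [DecidableEq V] {c : V → V → ZMod 6}

theorem g_one {d : ℕ} (h : 1 ≤ d) (h6 : d ≤ 6) : 10 ≤ 20 - (6 - d).choose 3 := by
  interval_cases d <;> decide

theorem g_two {d : ℕ} (h : 2 ≤ d) (h6 : d ≤ 6) : 16 ≤ 20 - (6 - d).choose 3 := by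
  interval_cases d <;> decide

theorem Bad4.six_weight (h : Bad4 c) (b : V) :
    41 ≤ ∑ Q ∈ (univ.erase b).powersetCard 3, (Q.image (c b)).card := by
  have hA : (univ.erase b).card = 6 := by
    rw [card_erase_of_mem (mem_univ _), card_univ, h.card]
  rw [sum_image_card3, hA]
  have hsum := sum_deg (c := c) h.card b
  have hdeg : ∀ j, ((univ.erase b).filter fun a => c b a ≠ j).card = 6 - deg c b j := by
    intro j
    have : deg c b j + ((univ.erase b).filter fun a => c b a ≠ j).card = 6 := by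
      refine Eq.trans ?_ hA
      exact card_filter_add_card_filter_not _
    omega
  have hC : (univ.erase b).image (c b) = C c b := rfl
  rw [hC]
  have e20 : Nat.choose 6 3 = 20 := by decide
  rw [e20]
  have hle6 : ∀ j ∈ C c b, deg c b j ≤ 6 := by
    intro j hj
    exact (single_le_sum (f := fun j => deg c b j) (fun _ _ => Nat.zero_le _) hj).trans
      (le_of_eq hsum)
  have hpos : ∀ j ∈ C c b, 1 ≤ deg c b j := fun j hj => deg_pos hj
  have hg1 : ∀ j ∈ C c b, 10 ≤ 20 - ((univ.erase b).filter fun a => c b a ≠ j).card.choose 3 := by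
    intro j hj
    rw [hdeg]; exact g_one (hpos j hj) (hle6 j hj)
  have h3 := h.stepA b
  by_cases h5 : 5 ≤ (C c b).card
  · calc 41 ≤ (C c b).card * 10 := by omega
      _ = ∑ j ∈ C c b, 10 := by rw [sum_const, smul_eq_mul]
      _ ≤ _ := sum_le_sum hg1
  by_cases h4 : (C c b).card = 4
  · obtain ⟨j, hj, hj2⟩ : ∃ j ∈ C c b, 2 ≤ deg c b j := by
      by_contra hcon
      push Not at hcon
      have : ∑ j ∈ C c b, deg c b j ≤ ∑ j ∈ C c b, 1 :=
        sum_le_sum fun j hj => by have := hcon j hj; omega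
      rw [hsum, sum_const, h4] at this
      simp at this
    rw [← add_sum_erase _ _ hj]
    have e1 : 16 ≤ 20 - ((univ.erase b).filter fun a => c b a ≠ j).card.choose 3 := by
      rw [hdeg]; exact g_two hj2 (hle6 j hj)
    have e2 : ∑ k ∈ (C c b).erase j, 10 ≤ ∑ k ∈ (C c b).erase j,
        (20 - ((univ.erase b).filter fun a => c b a ≠ k).card.choose 3) :=
      sum_le_sum fun k hk => hg1 k (mem_erase.1 hk).2
    rw [sum_const, card_erase_of_mem hj, h4, smul_eq_mul] at e2
    omega
  · have hC3 : (C c b).card = 3 := by omega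
    have hg2 : ∀ j ∈ C c b, 16 ≤ 20 -
        ((univ.erase b).filter fun a => c b a ≠ j).card.choose 3 := by
      intro j hj
      rw [hdeg]
      exact g_two (two_le_deg_of_not_lone hj fun u _ _ => h.lemma1 hC3 u) (hle6 j hj)
    calc 41 ≤ (C c b).card * 16 := by omega
      _ = ∑ j ∈ C c b, 16 := by rw [sum_const, smul_eq_mul]
      _ ≤ _ := sum_le_sum hg2

theorem Bad4.six_false (h : Bad4 c)
    (hstar : ∀ Q : Finset V, Q.Nonempty → (B c Q).card + F c Q + 1 ≤ 6) : False := by
  have hcard := h.card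
  -- double counting
  have hcomm : ∑ Q ∈ (univ : Finset V).powersetCard 3, ∑ b ∈ Qᶜ, (Q.image (c b)).card =
      ∑ b : V, ∑ Q ∈ (univ.erase b).powersetCard 3, (Q.image (c b)).card := by
    apply sum_comm'
    intro Q b
    simp only [mem_powersetCard, mem_compl, subset_univ, true_and, mem_univ, and_true]
    constructor
    · rintro ⟨h3, hb⟩
      exact ⟨fun q hq => mem_erase.2 ⟨fun e => hb (e ▸ hq), mem_univ _⟩, h3⟩
    · rintro ⟨hQ, h3⟩
      exact ⟨h3, fun hb => absurd rfl (mem_erase.1 (hQ hb)).1⟩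
  have hup : ∑ Q ∈ (univ : Finset V).powersetCard 3, ∑ b ∈ Qᶜ, (Q.image (c b)).card ≤
      ∑ Q ∈ (univ : Finset V).powersetCard 3, 8 := by
    apply sum_le_sum
    intro Q hQ
    have hQ3 := (mem_powersetCard.1 hQ).2
    have hQn : Q.Nonempty := card_pos.1 (by omega)
    have h1 := hstar Q hQn
    have h2 := card_B_pos (c := c) hQn
    have h3 : Q.card + Qᶜ.card = 7 := by
      rw [card_add_card_compl, hcard]
    have h4 : ∑ b ∈ Qᶜ, (Q.image (c b)).card = F c Q + ∑ b ∈ Qᶜ, 1 := by
      unfold F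
      rw [← sum_add_distrib]
      apply sum_congr rfl
      intro b _
      have : 1 ≤ (S c Q b).card := (hQn.image _).card_pos
      unfold S at this ⊢
      omega
    rw [h4, sum_const, smul_eq_mul]
    omega
  have hlow : ∑ b : V, 41 ≤ ∑ b : V, ∑ Q ∈ (univ.erase b).powersetCard 3,
      (Q.image (c b)).card := sum_le_sum fun b _ => h.six_weight b
  rw [hcomm] at hup
  rw [sum_const, card_powersetCard, card_univ, hcard, smul_eq_mul] at hup
  rw [sum_const, card_univ, hcard, smul_eq_mul] at hlow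
  have e35 : Nat.choose (6 + 1) 3 = 35 := by decide
  rw [e35] at hup
  omega

end Pool.Agent.Lib.MP_12e153_co
end
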