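import Pool.Agent.Lib.MP_12e153_co.Mg.G003
import Pool.Agent.Lib.MP_12e153_co.Mg.G001

section

/-!
# Lemma X, the count (1) and Case B
-/

set_option autoImplicit false
set_option linter.unusedSectionVars false

open Finset
open scoped Pointwise

namespace Pool.Agent.Lib.MP_12e153_co.Comp

open Pool.Agent.Kneser Pool.Agent.Lib.MP_12e153_co

variable {V : Type*} [Fintype V] [DecidableEq V]
variable {G : Type*} [AddCommGroup G] [Fintype G] [DecidableEq G]
variable {c : V → V → G}

/-- Kneser for `B + ∑ S i`. -/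
theorem kneser_add {ι : Type*} [DecidableEq ι] (s : Finset ι) (S : ι → Finset G)
    (B : Finset G) (hB : B.Nonempty) (hS : ∀ i ∈ s, (S i).Nonempty) :
    (qim (stab (B + ∑ i ∈ s, S i)) B).card +
      ∑ i ∈ s, ((qim (stab (B + ∑ i ∈ s, S i)) (S i)).card - 1) ≤
      (qim (stab (B + ∑ i ∈ s, S i)) (B + ∑ i ∈ s, S i)).card := by
  classical
  set T := B + ∑ i ∈ s, S i with hTdef
  let S' : Option ι → Finset G := fun o => o.elim B S
  have hs : ∑ o ∈ insertNone s, S' o = T := by
    rw [Finset.sum_insertNone]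
    rfl
  have h1 := kneser_quot (insertNone s) S' (by
    intro o ho
    rcases o with _ | i
    · exact hB
    · exact hS i (by simpa using ho))
  rw [hs, Finset.sum_insertNone] at h1
  have h3 : 1 ≤ (qim (stab T) B).card := Finset.card_pos.2 (qim_nonempty hB)
  have h4 : ((qim (stab T) (S' none)).card - 1) = (qim (stab T) B).card - 1 := rfl
  have h5 : ∀ i ∈ s, ((qim (stab T) (S' (some i))).card - 1) = (qim (stab T) (S i)).card - 1 :=
    fun i _ => rfl
  rw [h4, Finset.sum_congr rfl h5] at h1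
  omega

open Classical in
/-- **The count (1).** -/
theorem count_far (h : NZ c) (hV : Fintype.card V = Fintype.card G + 1) {N : Finset V}
    {w y0 : V} (hwN : w ∉ N) (hyN : y0 ∉ N) (hy : ∀ v ∈ N, c v y0 = 0)
    (hw : ∀ v ∈ N, c v w ≠ 0) (hN : Fintype.card G ≤ 2 * N.card) {H : AddSubgroup G}
    (hHb : H ≠ ⊥) (hHt : H ≠ ⊤) :
    (N.filter (fun v => c v w ∈ H)).card + 2 ≤ (fs H).card := by
  by_contra hcon
  push Not at hcon
  set W := N.filter (fun v => c v w ∈ H) with hW
  have hH2 : 2 ≤ (fs H).card := by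
    have h1 := fs_card_pos H
    have h2 : (fs H).card ≠ 1 := by
      intro h3
      apply hHb
      rw [fs_card_eq] at h3
      exact AddSubgroup.card_eq_one.1 h3
    omega
  obtain ⟨H', A, h1, h2, h3, h4, h5, h6⟩ := gadgetExtract W (fs H).card H
    (fun v => ({0, c v w} : Finset G)) rfl hH2 (fun i _ => by simp) (by
      intro i hi x hx
      rw [hW, mem_filter] at hi
      rw [mem_insert, mem_singleton] at hx
      rcases hx with rfl | rfl
      · exact H.zero_mem
      · exact hi.2) (by
      have e : ∑ i ∈ W, ((({0, c i w} : Finset G)).card - 1) = ∑ i ∈ W, 1 := by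
        apply sum_congr rfl
        intro i hi
        rw [hW, mem_filter] at hi
        rw [card_pair (Ne.symm (hw i hi.1))]
      rw [e, sum_const, smul_eq_mul, mul_one]
      omega)
  set D := W.filter (fun v => 2 ≤ (A v).card) with hD
  have hDsub : D ⊆ W := filter_subset _ _
  have hDN : D ⊆ N := hDsub.trans (filter_subset _ _)
  have hDcard : D.card + 1 ≤ (fs H').card := by
    refine le_trans ?_ h6
    apply Nat.add_le_add_right
    rw [Finset.card_eq_sum_ones]
    refine le_trans ?_ (Finset.sum_le_sum_of_subset hDsub)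
    apply Finset.sum_le_sum
    intro b hb
    rw [hD, mem_filter] at hb
    omega
  have hDsum : fs H' ⊆ ∑ v ∈ D, A v := by
    intro y hy
    rw [← h5, mem_sum_iff] at hy
    obtain ⟨f, hf, rfl⟩ := hy
    rw [mem_sum_iff]
    refine ⟨f, fun b hb => hf b (hDsub hb), ?_⟩
    rw [← Finset.sum_filter_add_sum_filter_not W (fun b => 2 ≤ (A b).card) f]
    have h7 : ∑ b ∈ W.filter (fun b => ¬ 2 ≤ (A b).card), f b = 0 := by
      apply sum_eq_zero
      intro b hb
      rw [mem_filter] at hb
      have h8 : (A b).card ≤ 1 := by omega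
      exact Finset.card_le_one.1 h8 _ (hf b hb.1) _ (h4 b hb.1)
    rw [h7, add_zero]
  have hz := zplus h hV (C := {y0, w}) (D := D) (L := H') (A := A) (by simp) (by
      rw [Finset.disjoint_left]
      intro b hb hbD
      rw [mem_insert, mem_singleton] at hb
      rcases hb with rfl | rfl
      · exact hyN (hDN hbD)
      · exact hwN (hDN hbD)) (by
      intro d hd x hx
      have h7 := h3 d (hDsub hd) hx
      rw [mem_insert, mem_singleton] at h7
      rw [mem_S]
      rcases h7 with rfl | rfl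
      · exact ⟨y0, by simp, hy d (hDN hd)⟩
      · exact ⟨w, by simp, rfl⟩) 0 (by
      intro y hyL
      rw [smul_zero, zero_add]
      exact hDsum (by simpa using hyL))
  have h7 : N \ D ⊆ (({y0, w} ∪ D)ᶜ).filter (fun b => ∃ x ∈ S c {y0, w} b, x - 0 ∈ H') := by
    intro v hv
    rw [mem_sdiff] at hv
    rw [mem_filter, mem_compl, mem_union, mem_insert, mem_singleton]
    refine ⟨?_, 0, mem_S.2 ⟨y0, by simp, hy v hv.1⟩, by simp⟩
    rintro ((rfl | rfl) | h8)
    · exact hyN hv.1
    · exact hwN hv.1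
    · exact hv.2 h8
  have h8 := Finset.card_le_card h7
  have h9 := Finset.card_sdiff_add_card_eq_card hDN
  have h10 := index_mul_card_fs H'
  have h11 : 2 ≤ H'.index := by
    have h12 : H'.index ≠ 0 := AddSubgroup.index_ne_zero_of_finite
    have h13 : H'.index ≠ 1 := by
      intro h14
      rw [AddSubgroup.index_eq_one] at h14
      exact hHt (top_le_iff.1 (h14 ▸ h1))
    omega
  obtain ⟨a, ha⟩ := Nat.exists_eq_add_of_le h2
  obtain ⟨b, hb⟩ := Nat.exists_eq_add_of_le h11
  rw [ha, hb] at h10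
  rw [ha] at hDcard
  rw [hb] at hz
  nlinarith [Nat.zero_le (a * b)]

section
variable {K : AddSubgroup G} {P Q : Finset V} {x : V} {A : V → Finset G}

theorem card_ge_of_periodic {T : Finset G} {H : AddSubgroup G}
    (hH : H = stab T) : T.card = (qim H T).card * (fs H).card := by
  have h1 := card_add_fs H T
  rwa [add_fs_stab T H hH.le] at h1

open Classical in
/-- counting the nonconstant pairs mod `H` -/
theorem pair_count (W : Finset V) (w : V) (H : AddSubgroup G) :
    W.card ≤ ∑ v ∈ W, ((qim H ({0, c v w} : Finset G)).card - 1) +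
      (W.filter (fun v => c v w ∈ H)).card := by
  have h1 := Finset.card_filter_add_card_filter_not (s := W) (fun v => c v w ∈ H)
  have h2 : (W.filter (fun v => ¬ c v w ∈ H)).card ≤
      ∑ v ∈ W, ((qim H ({0, c v w} : Finset G)).card - 1) := by
    rw [Finset.card_eq_sum_ones]
    refine le_trans ?_ (Finset.sum_le_sum_of_subset
      (Finset.filter_subset (fun v => ¬ c v w ∈ H) W))
    apply Finset.sum_le_sum
    intro v hv
    rw [mem_filter] at hv
    have h3 := two_le_qim (K := H) (A := ({0, c v w} : Finset G)) (x := 0) (y := c v w)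
      (by simp) (by simp) H.zero_mem hv.2
    omega
  have h4 : (W.filter (fun v => c v w ∈ H)).card + (W.filter (fun v => ¬ c v w ∈ H)).card =
    W.card := h1
  omega

open Classical in
/-- `E_all` is a full coset of `K`. -/
theorem xB_cover {K : AddSubgroup G} {W R : Finset V} {w x : V} {A : V → Finset G}
    (hW : ∀ v ∈ W, c v w ∈ K) (hR : ∀ t ∈ R, ∀ y ∈ A t, y - c t x ∈ K)
    (hRb : ∀ t ∈ R, c t x ∈ A t)
    (hcount : ∀ H : AddSubgroup G, H ≠ ⊥ → H ≠ ⊤ →
      (W.filter (fun v => c v w ∈ H)).card + 2 ≤ (fs H).card)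
    (hKt : K ≠ ⊤) (hw0 : ∀ v ∈ W, c v w ≠ 0)
    {F : ℕ} (hE : F + 1 ≤ (∑ t ∈ R, A t).card) (hF : (fs K).card ≤ W.card + F + 1) :
    ∀ y ∈ K, ∑ t ∈ R, c t x + y ∈ ∑ t ∈ R, A t + ∑ v ∈ W, ({0, c v w} : Finset G) := by
  set a := ∑ t ∈ R, c t x with ha
  set E := ∑ t ∈ R, A t with hEdef
  set T := E + ∑ v ∈ W, ({0, c v w} : Finset G) with hT
  have haE : a ∈ E := by
    rw [hEdef, mem_sum_iff]
    exact ⟨fun t => c t x, hRb, rfl⟩
  have h0 : (0 : G) ∈ ∑ v ∈ W, ({0, c v w} : Finset G) := zero_mem_sum _ _ (by simp)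
  have haT : a ∈ T := by
    rw [hT, mem_add]
    exact ⟨a, haE, 0, h0, add_zero a⟩
  have hTK : ∀ t ∈ T, t - a ∈ K := by
    intro t ht
    rw [hT, mem_add] at ht
    obtain ⟨e, he, z, hz, rfl⟩ := ht
    have h1 : z ∈ K := by
      have := sum_subset_fs W (fun v => ({0, c v w} : Finset G)) K (by
        intro v hv y hy
        rw [mem_insert, mem_singleton] at hy
        rcases hy with rfl | rfl
        · exact K.zero_mem
        · exact hW v hv) hz
      simpa using this
    have h2 : e - a ∈ K := by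
      rw [hEdef, mem_sum_iff] at he
      obtain ⟨f, hf, rfl⟩ := he
      rw [ha, ← sum_sub_distrib]
      exact K.sum_mem fun t ht => hR t ht _ (hf t ht)
    have e1 : e + z - a = (e - a) + z := by abel
    rw [e1]
    exact K.add_mem h2 h1
  -- it suffices to count
  have hcard : (fs K).card ≤ T.card := by
    have hkn := kneser_add W (fun v => ({0, c v w} : Finset G)) E ⟨a, haE⟩ (by simp)
    rw [← hT] at hkn
    set H := stab T with hH
    have hper := card_ge_of_periodic (T := T) hH
    have hHK : H ≤ K := by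
      intro g hg
      have h1 := (hg a).2 haT
      have h2 := hTK _ h1
      simpa using h2
    have hpc := pair_count (c := c) W w H
    have hEc : E.card ≤ (qim H E).card * (fs H).card := by
      rw [← card_add_fs]
      apply Finset.card_le_card
      intro y hy
      rw [mem_add]
      exact ⟨y, hy, 0, by simp, by simp⟩
    by_cases hb : H = ⊥
    · have h1 : W.filter (fun v => c v w ∈ H) = ∅ := by
        rw [filter_eq_empty_iff]
        intro v hv hvH
        rw [hb, AddSubgroup.mem_bot] at hvH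
        exact hw0 v hv hvH
      rw [h1, card_empty] at hpc
      have h2 : (fs H).card = 1 := by rw [hb]; exact fs_bot_card
      rw [h2] at hper hEc
      omega
    · have h1 := hcount H hb (fun ht => hKt (top_le_iff.1 (ht ▸ hHK)))
      have h2 := relIndex_mul_fs H K hHK
      rw [hper, ← h2]
      apply Nat.mul_le_mul_right
      by_contra hcon
      push Not at hcon
      have h3 : (qim H E).card ≤ (qim H T).card := by omega
      obtain ⟨r, hr⟩ := Nat.exists_eq_add_of_le (Nat.succ_le_of_lt (lt_of_le_of_lt h3 hcon))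
      have hd : 2 ≤ (fs H).card := by omega
      obtain ⟨d, hd⟩ := Nat.exists_eq_add_of_le hd
      rw [hd] at hEc h1 h2
      rw [hr] at h2 hcon
      rw [← h2] at hF
      have e1 : ((qim H E).card.succ + r) * (2 + d) =
        (qim H E).card * (2 + d) + (1 + r) * (2 + d) := by
        rw [Nat.succ_eq_add_one]; ring
      rw [e1] at hF
      have e2 : (1 + r) * (2 + d) = 2 + d + 2 * r + r * d := by ring
      rw [e2] at hF
      have := Nat.zero_le (r * d)
      omega
  intro y hy
  have h1 : T.image (fun t => t - a) = fs K := by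
    apply Finset.eq_of_subset_of_card_le
    · intro z hz
      rw [mem_image] at hz
      obtain ⟨t, ht, rfl⟩ := hz
      rw [mem_fs]
      exact hTK t ht
    · rw [Finset.card_image_of_injective _ (sub_left_injective)]
      exact hcard
  have h2 : y ∈ T.image (fun t => t - a) := by rw [h1, mem_fs]; exact hy
  rw [mem_image] at h2
  obtain ⟨t, ht, rfl⟩ := h2
  have e1 : a + (t - a) = t := by abel
  rw [e1]
  exact ht

open Classical in
/-- **Case B of Lemma X.** -/
theorem xB (h : NZ c) (hs : ∀ u v, c u v = c v u) (hV : Fintype.card V = Fintype.card G + 1)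
    (hK : ⊥ < K) (hmax : ∀ K' : AddSubgroup G, K < K' → ¬ HasGadget c K' x)
    (hA : KS c K P Q x A) (hSG : SG P A)
    (hM : ∀ u ∈ MM c K P Q x, ∀ v, v ∉ P → v ≠ u → c u v = 0) {w : V} (hwP : w ∈ P)
    (hw : ∀ u, u ∉ P → c w u ≠ 0) (hall : ∀ v ∈ MM c K P Q x, c v w ∈ K) : False := by
  set M := MM c K P Q x with hMdef
  have hidx := hA.index_ge h hmax
  have hN := hA.card_N h hs hV hmax hK
  have hP := hA.P_card
  have hQ := hA.Q_card
  have hKc := index_mul_card_fs K
  have hK2 : 2 ≤ (fs K).card := by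
    have h1 := fs_card_pos K
    have h2 : (fs K).card ≠ 1 := by
      intro h3
      rw [fs_card_eq] at h3
      exact hK.ne' (AddSubgroup.card_eq_one.1 h3)
    omega
  have hKt : K ≠ ⊤ := by
    rintro rfl
    rw [AddSubgroup.index_top] at hidx
    omega
  have hPQ : (P ∪ Q).card = P.card + Q.card := card_union_of_disjoint hA.disj
  have hUc := card_add_card_compl (P ∪ Q)
  have hPc := card_add_card_compl P
  have hMsub : M ⊆ (P ∪ Q)ᶜ := by
    intro u hu
    rw [hMdef, mem_MM] at hu
    rw [mem_compl, mem_union, not_or]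
    exact ⟨hu.1, hu.2.1⟩
  have hMc := Finset.card_sdiff_add_card_eq_card hMsub
  rw [← hMdef] at hN
  -- `|M| ≥ 2`
  have hM2 : 2 ≤ M.card := by
    obtain ⟨k, hk⟩ := Nat.exists_eq_add_of_le hidx
    obtain ⟨d, hd⟩ := Nat.exists_eq_add_of_le hK2
    rw [hk, hd] at hKc
    have := Nat.zero_le (k * d)
    have e1 : (2 + k) * (2 + d) = 4 + 2 * k + 2 * d + k * d := by ring
    omega
  obtain ⟨y0, hy0⟩ : M.Nonempty := Finset.card_pos.1 (by omega)
  have hy0' := hy0
  rw [hMdef, mem_MM] at hy0'
  obtain ⟨hyP, hyQ, -⟩ := hy0'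
  have hMP : ∀ v ∈ M, v ∉ P := fun v hv => (mem_MM.1 (hMdef ▸ hv)).1
  have hMQ : ∀ v ∈ M, v ∉ Q := fun v hv => (mem_MM.1 (hMdef ▸ hv)).2.1
  -- the count
  set N := (Pᶜ).erase y0 with hNdef
  have hNcard : N.card + 1 = (Pᶜ).card := Finset.card_erase_add_one (mem_compl.2 hyP)
  have hcN : ∀ H : AddSubgroup G, H ≠ ⊥ → H ≠ ⊤ →
      (N.filter (fun v => c v w ∈ H)).card + 2 ≤ (fs H).card := by
    intro H hb ht
    refine count_far h hV (N := N) (w := w) (y0 := y0) ?_ ?_ ?_ ?_ ?_ hb ht
    · intro hwN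
      rw [hNdef, mem_erase, mem_compl] at hwN
      exact hwN.2 hwP
    · exact notMem_erase _ _
    · intro v hv
      rw [hNdef, mem_erase, mem_compl] at hv
      rw [hs]
      exact hM y0 hy0 v hv.2 hv.1
    · intro v hv
      rw [hNdef, mem_erase, mem_compl] at hv
      rw [hs]
      exact hw v hv.2
    · obtain ⟨k, hk⟩ := Nat.exists_eq_add_of_le hidx
      rw [hk] at hKc
      have e1 : (2 + k) * (fs K).card = 2 * (fs K).card + k * (fs K).card := by ring
      have := Nat.zero_le (k * (fs K).card)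
      omega
  have hcK := hcN K hK.ne' hKt
  -- `k = 2`
  have hMN : M.erase y0 ⊆ N.filter (fun v => c v w ∈ K) := by
    intro v hv
    rw [mem_erase] at hv
    rw [mem_filter, hNdef, mem_erase, mem_compl]
    exact ⟨⟨hv.1, hMP v hv.2⟩, hall v hv.2⟩
  have hMN' := Finset.card_le_card hMN
  have hMe := Finset.card_erase_add_one hy0
  have hk2 : K.index = 2 := by
    by_contra hne
    obtain ⟨k, hk⟩ := Nat.exists_eq_add_of_le (show 3 ≤ K.index by omega)
    obtain ⟨d, hd⟩ := Nat.exists_eq_add_of_le hK2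
    rw [hk, hd] at hKc
    have := Nat.zero_le (k * d)
    have e1 : (3 + k) * (2 + d) = 6 + 2 * k + 3 * d + k * d := by ring
    omega
  have hMeq : M = (P ∪ Q)ᶜ := by
    apply Finset.Subset.antisymm hMsub
    intro v hv
    by_contra hvM
    have h1 : ((P ∪ Q)ᶜ \ M).card = 0 := by omega
    rw [Finset.card_eq_zero] at h1
    have : v ∈ (P ∪ Q)ᶜ \ M := mem_sdiff.2 ⟨hv, hvM⟩
    rw [h1] at this
    exact absurd this (notMem_empty v)
  rw [hk2] at hKc
  -- the root in `Q`
  obtain ⟨r, hrN, hrK⟩ : ∃ r ∈ N, c r w ∉ K := by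
    by_contra hcon
    push Not at hcon
    have h1 : N.filter (fun v => c v w ∈ K) = N := by
      rw [filter_eq_self]
      exact hcon
    rw [h1] at hcK
    omega
  have hrN' := hrN
  rw [hNdef, mem_erase, mem_compl] at hrN'
  obtain ⟨hry, hrP⟩ := hrN'
  have hrQ : r ∈ Q := by
    by_contra hrQ
    apply hrK
    apply hall
    rw [hMeq, mem_compl, mem_union, not_or]
    exact ⟨hrP, hrQ⟩
  have hwQ : w ∉ Q := fun hq => Finset.disjoint_left.1 hA.disj hwP hq
  have hwy : w ≠ y0 := fun e => hyP (e ▸ hwP)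
  have hrw : r ≠ w := fun e => hrP (e ▸ hwP)
  set C := insert y0 Q with hC
  have hsat := hA.toGadget.saturated h hmax (C := C) (subset_insert _ _) (by
    rw [hC, disjoint_insert_right]
    exact ⟨hyP, hA.disj⟩)
  rw [hk2] at hsat
  have hyC : y0 ∈ C := mem_insert_self _ _
  have hrC : r ∈ C := mem_insert_of_mem hrQ
  have hwC : w ∉ C := by
    rw [hC, mem_insert, not_or]
    exact ⟨hwy, hwQ⟩
  have hσy : ∑ q ∈ C.erase y0, c y0 q = 0 := by
    apply sum_eq_zero
    intro q hq
    rw [hC, erase_insert hyQ] at hq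
    apply hM y0 hy0 q
    · exact fun hqP => Finset.disjoint_left.1 hA.disj hqP hq
    · rintro rfl; exact hyQ hq
  have hσr : ∑ q ∈ C.erase r, c r q ∈ K := by
    by_contra hcon
    have h1 := two_le_qim (K := K) (A := B c C) (x := ∑ q ∈ C.erase y0, c y0 q)
      (y := ∑ q ∈ C.erase r, c r q) (mem_image_of_mem _ hyC) (mem_image_of_mem _ hrC)
      (by rw [hσy]; exact K.zero_mem) hcon
    omega
  -- the sums at the two roots of `C' = insert w C`
  set C' := insert w C with hC'
  have hσ' : ∀ ρ ∈ C, ∑ q ∈ C'.erase ρ, c ρ q = c ρ w + ∑ q ∈ C.erase ρ, c ρ q := by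
    intro ρ hρ
    have h1 : C'.erase ρ = insert w (C.erase ρ) := by
      rw [hC', erase_insert_of_ne]
      rintro rfl; exact hwC hρ
    rw [h1, sum_insert]
    intro h2
    exact hwC (mem_of_mem_erase h2)
  set a := ∑ t ∈ P.erase w, c t x with ha
  obtain ⟨ρ, hρ, hρa⟩ : ∃ ρ ∈ C, -(∑ q ∈ C'.erase ρ, c ρ q) - a ∈ K := by
    by_cases haK : a ∈ K
    · refine ⟨y0, hyC, ?_⟩
      rw [hσ' y0 hyC, hσy, add_zero]
      exact K.sub_mem (K.neg_mem (hall y0 hy0)) haK
    · refine ⟨r, hrC, ?_⟩
      rw [hσ' r hrC]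
      have h1 : c r w + ∑ q ∈ C.erase r, c r q ∉ K := by
        rwa [AddSubgroup.add_mem_cancel_right _ hσr]
      have h2 : (c r w + ∑ q ∈ C.erase r, c r q) + a ∈ K := by
        rw [AddSubgroup.add_mem_iff_of_index_two hk2]
        exact ⟨fun h3 => absurd h3 h1, fun h3 => absurd h3 haK⟩
      have h3 := K.neg_mem h2
      have e1 : -(c r w + ∑ q ∈ C.erase r, c r q) - a =
        -((c r w + ∑ q ∈ C.erase r, c r q) + a) := by abel
      rw [e1]
      exact h3
  -- covering
  have hflex := hA.flex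
  have hsmall := hA.small
  have hPw := Finset.card_erase_add_one hwP
  have hsumP := Finset.add_sum_erase P (fun t => (A t).card - 1) hwP
  have hSGE := hSG (P.erase w) (erase_subset _ _)
  have hPF : (P.erase w).card ≤ ∑ t ∈ P.erase w, ((A t).card - 1) := by
    rw [Finset.card_eq_sum_ones]
    apply Finset.sum_le_sum
    intro t ht
    have := hA.two t (mem_of_mem_erase ht)
    omega
  have hcov := xB_cover (c := c) (K := K) (W := M.erase y0) (R := P.erase w) (w := w) (x := x)
    (A := A) (fun v hv => hall v (mem_of_mem_erase hv))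
    (fun t ht y hy => hA.cls t (mem_of_mem_erase ht) y hy)
    (fun t ht => hA.base t (mem_of_mem_erase ht)) (by
      intro H hb ht
      refine le_trans ?_ (hcN H hb ht)
      apply Nat.add_le_add_right
      apply Finset.card_le_card
      intro v hv
      rw [mem_filter, mem_erase] at hv
      rw [mem_filter, hNdef, mem_erase, mem_compl]
      exact ⟨⟨hv.1.1, hMP v hv.1.2⟩, hv.2⟩) hKt (by
      intro v hv
      rw [hs]
      exact hw v (hMP v (mem_of_mem_erase hv))) hSGE (by
      rw [← hMeq] at hUc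
      omega) (-(∑ q ∈ C'.erase ρ, c ρ q) - a) hρa
  have e1 : a + (-(∑ q ∈ C'.erase ρ, c ρ q) - a) = -(∑ q ∈ C'.erase ρ, c ρ q) := by abel
  rw [← ha, e1, mem_add] at hcov
  obtain ⟨e, he, z, hz, hez⟩ := hcov
  rw [mem_sum_iff] at he hz
  obtain ⟨f, hf, rfl⟩ := he
  obtain ⟨g, hg, rfl⟩ := hz
  have hwM : w ∉ M := fun hwM => hMP w hwM hwP
  have hcompl : C'ᶜ = P.erase w ∪ M.erase y0 := by
    ext v
    rw [hMeq]
    simp only [hC', hC, mem_compl, mem_insert, mem_union, mem_erase, not_or]
    constructor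
    · rintro ⟨h1, h2, h3⟩
      by_cases hvP : v ∈ P
      · exact Or.inl ⟨h1, hvP⟩
      · exact Or.inr ⟨h2, hvP, h3⟩
    · rintro (⟨h1, h2⟩ | ⟨h1, h2, h3⟩)
      · exact ⟨h1, fun e => hyP (e ▸ h2), fun hq => Finset.disjoint_left.1 hA.disj h2 hq⟩
      · exact ⟨fun e => h2 (e ▸ hwP), h1, h3⟩
  have hdj : Disjoint (P.erase w) (M.erase y0) := by
    rw [Finset.disjoint_left]
    intro v hv hv'
    exact hMP v (mem_of_mem_erase hv') (mem_of_mem_erase hv)
  refine h.choice (Q := C') (r := ρ) (mem_insert_of_mem hρ) (fun v => if v ∈ P then f v else g v)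
    ?_ ?_
  · intro v hv
    rw [← mem_compl, hcompl, mem_union] at hv
    rcases hv with hv | hv
    · have hvP := mem_of_mem_erase hv
      simp only [hvP, if_true]
      exact S_mono ((subset_insert _ _).trans (subset_insert _ _)) v (hA.sub v hvP (hf v hv))
    · have hvP := hMP v (mem_of_mem_erase hv)
      simp only [hvP, if_false]
      have h1 := hg v hv
      rw [mem_insert, mem_singleton] at h1
      rw [mem_S]
      rcases h1 with h1 | h1
      · refine ⟨y0, mem_insert_of_mem hyC, ?_⟩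
        rw [h1, hs]
        exact hM y0 hy0 v hvP (ne_of_mem_erase hv)
      · exact ⟨w, mem_insert_self _ _, h1.symm⟩
  · rw [hcompl, sum_union hdj]
    have s1 : ∑ v ∈ P.erase w, (if v ∈ P then f v else g v) = ∑ v ∈ P.erase w, f v :=
      sum_congr rfl fun v hv => by simp [mem_of_mem_erase hv]
    have s2 : ∑ v ∈ M.erase y0, (if v ∈ P then f v else g v) = ∑ v ∈ M.erase y0, g v :=
      sum_congr rfl fun v hv => by simp [hMP v (mem_of_mem_erase hv)]
    rw [s1, s2, hez]
    abel

end

end Pool.Agent.Lib.MP_12e153_co.Comp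
end

section

/-!
# Lemma X
-/

set_option autoImplicit false
set_option linter.unusedSectionVars false

open Finset
open scoped Pointwise

namespace Pool.Agent.Lib.MP_12e153_co.Comp

open Pool.Agent.Kneser Pool.Agent.Lib.MP_12e153_co

variable {V : Type*} [Fintype V] [DecidableEq V]
variable {G : Type*} [AddCommGroup G] [Fintype G] [DecidableEq G]
variable {c : V → V → G}
variable {K : AddSubgroup G} {P Q : Finset V} {x : V} {A : V → Finset G}

/-- The set `M` has at least two elements. -/
theorem KS.two_le_MM (h : NZ c) (hs : ∀ u v, c u v = c v u)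
    (hV : Fintype.card V = Fintype.card G + 1) (hK : ⊥ < K)
    (hmax : ∀ K' : AddSubgroup G, K < K' → ¬ HasGadget c K' x)
    (hA : KS c K P Q x A) : 2 ≤ (MM c K P Q x).card := by
  classical
  have hidx := hA.index_ge h hmax
  have hN := hA.card_N h hs hV hmax hK
  have hP := hA.P_card
  have hQ := hA.Q_card
  have hm := fs_mul_index K
  have hh := two_le_fs hK
  have hsub : MM c K P Q x ⊆ (P ∪ Q)ᶜ := by
    intro u hu
    rw [mem_MM] at hu
    rw [mem_compl, mem_union, not_or]
    exact ⟨hu.1, hu.2.1⟩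
  have h1 := card_sdiff_add_card_eq_card hsub
  have h2 := card_add_card_compl (P ∪ Q)
  have h3 := card_union_le P Q
  obtain ⟨k', hk'⟩ := Nat.exists_eq_add_of_le hidx
  obtain ⟨h', hh'⟩ := Nat.exists_eq_add_of_le hh
  have h4 : (fs K).card * K.index + 4 = 2 * (fs K).card + 2 * K.index + k' * h' := by
    rw [hk', hh']; ring
  omega

/-- **Lemma X.** -/
theorem lemmaX (h : NZ c) (hs : ∀ u v, c u v = c v u)
    (hV : Fintype.card V = Fintype.card G + 1) (hK : ⊥ < K)
    (hmax : ∀ K' : AddSubgroup G, K < K' → ¬ HasGadget c K' x)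
    (hA : KS c K P Q x A) (hSG : SG P A)
    (hM : ∀ u ∈ MM c K P Q x, ∀ v, v ∉ P → v ≠ u → c u v = 0) : False := by
  classical
  have h2 := hA.two_le_MM h hs hV hK hmax
  obtain ⟨y0, hy0⟩ : (MM c K P Q x).Nonempty := card_pos.1 (by omega)
  obtain ⟨w, hwy, hyw, hw⟩ := far0 h y0
  have hwP : w ∈ P := by
    by_contra hwP
    exact hyw (hM y0 hy0 w hwP hwy)
  have hfar : ∀ u, u ∉ P → c w u ≠ 0 := by
    intro u hu
    by_cases huy : u = y0
    · rw [huy, hs]; exact hyw
    · exact hw u huy (fun e => hu (e ▸ hwP)) (hM y0 hy0 u hu huy)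
  have hX : XS c K P Q x A w :=
    ⟨h, hs, hV, hK, hA, hSG, hA.index_ge h hmax, hM, hwP, hfar⟩
  by_cases hB : ∀ v ∈ MM c K P Q x, c v w ∈ K
  · exact xB h hs hV hK hmax hA hSG hM hwP hfar hB
  · push Not at hB
    obtain ⟨v1, hv1, hδ⟩ := hB
    obtain ⟨y, hy, hyv⟩ := exists_mem_ne (by omega : 1 < (MM c K P Q x).card) v1
    exact hX.caseA hy hv1 hyv.symm hδ

end Pool.Agent.Lib.MP_12e153_co.Comp
end
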