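import Pool.Agent.Lib.Kneser.Quot

section

/-!
# Covering and extraction lemmas from Kneser's theorem
-/

set_option autoImplicit false

open Finset
open scoped Pointwise

namespace Pool.Agent.Lib.MP_12e153_co

open Pool.Agent.Kneser

variable {G : Type*} [AddCommGroup G] [Fintype G] [DecidableEq G]

theorem relIndex_mul_fs (K H : AddSubgroup G) (h : K ≤ H) :
    K.relIndex H * (fs K).card = (fs H).card := by
  have h1 := AddSubgroup.relIndex_mul_index h
  have h2 := index_mul_card_fs K
  have h3 := index_mul_card_fs H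
  have h4 : 0 < H.index := Nat.pos_of_ne_zero AddSubgroup.index_ne_zero_of_finite
  apply Nat.eq_of_mul_eq_mul_left h4
  rw [h3, ← h2, ← h1]
  ring

/-- membership in a sum of finsets, as a choice -/
theorem mem_sum_iff {ι : Type*} [DecidableEq ι] (s : Finset ι) (S : ι → Finset G) (y : G) :
    y ∈ ∑ i ∈ s, S i ↔ ∃ f : ι → G, (∀ i ∈ s, f i ∈ S i) ∧ ∑ i ∈ s, f i = y := by
  induction s using Finset.induction_on generalizing y with
  | empty =>
    simp only [sum_empty, notMem_empty, false_implies, implies_true, true_and]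
    constructor
    · intro h
      exact ⟨fun _ => 0, by simpa [eq_comm] using h⟩
    · rintro ⟨_, rfl⟩; simp
  | insert a s ha ih =>
    rw [sum_insert ha, mem_add]
    constructor
    · rintro ⟨x, hx, z, hz, rfl⟩
      obtain ⟨f, hf, rfl⟩ := (ih z).1 hz
      refine ⟨Function.update f a x, ?_, ?_⟩
      · intro i hi
        by_cases h : i = a
        · subst h; simpa using hx
        · rw [Function.update_of_ne h]
          exact hf i ((mem_insert.1 hi).resolve_left h)
      · rw [sum_insert ha, Function.update_self, sum_congr rfl (g := f)]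
        intro i hi
        rw [Function.update_of_ne]
        rintro rfl; exact ha hi
    · rintro ⟨f, hf, rfl⟩
      refine ⟨f a, hf a (mem_insert_self _ _), ∑ i ∈ s, f i, ?_, (sum_insert ha).symm⟩
      exact (ih _).2 ⟨f, fun i hi => hf i (mem_insert_of_mem hi), rfl⟩

theorem sum_sets_mono {ι : Type*} [DecidableEq ι] (s : Finset ι) (S S' : ι → Finset G)
    (h : ∀ i ∈ s, S i ⊆ S' i) : ∑ i ∈ s, S i ⊆ ∑ i ∈ s, S' i := by
  intro y hy
  rw [mem_sum_iff] at hy ⊢
  obtain ⟨f, hf, rfl⟩ := hy
  exact ⟨f, fun i hi => h i hi (hf i hi), rfl⟩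

/-- The number of classes mod `K` of a set meeting `L ≤ K` and not contained in `K` is `≥ 2`. -/
theorem two_le_qim {K : AddSubgroup G} {A : Finset G} {x y : G} (hx : x ∈ A) (hy : y ∈ A)
    (hxK : x ∈ K) (hyK : y ∉ K) : 2 ≤ (qim K A).card := by
  have : 1 < (qim K A).card := by
    rw [one_lt_card]
    refine ⟨(x : G ⧸ K), mem_qim.2 ⟨x, hx, rfl⟩, (y : G ⧸ K), mem_qim.2 ⟨y, hy, rfl⟩, ?_⟩
    intro h
    rw [QuotientAddGroup.eq] at h
    apply hyK
    have := K.add_mem hxK h
    simpa using this
  omega

open Classical in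
/-- **Covering criterion (K1).**  `L ≤ H`, sets `Δ i ⊆ H` (`i ∈ s`) each containing an element of
`L`; if for every `L ≤ K < H` at least `[H:K] - 1` of the sets are not contained in `K`, then
`L + ∑ Δ i = H`. -/
theorem cover {ι : Type*} [DecidableEq ι] (s : Finset ι) (Δ : ι → Finset G)
    (L H : AddSubgroup G) (hLH : L ≤ H) (hΔ : ∀ i ∈ s, ∀ x ∈ Δ i, x ∈ H)
    (hL : ∀ i ∈ s, ∃ x ∈ Δ i, x ∈ L)
    (hK : ∀ K : AddSubgroup G, L ≤ K → K < H →
      K.relIndex H ≤ (s.filter (fun i => ∃ x ∈ Δ i, x ∉ K)).card + 1) :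
    fs L + ∑ i ∈ s, Δ i = fs H := by
  set T := fs L + ∑ i ∈ s, Δ i with hT
  have hsub : T ⊆ fs H := by
    intro y hy
    rw [hT, mem_add] at hy
    obtain ⟨l, hl, z, hz, rfl⟩ := hy
    rw [mem_sum_iff] at hz
    obtain ⟨f, hf, rfl⟩ := hz
    rw [mem_fs] at hl ⊢
    exact H.add_mem (hLH hl) (H.sum_mem fun i hi => hΔ i hi _ (hf i hi))
  have hne : ∀ i ∈ s, (Δ i).Nonempty := fun i hi => ⟨_, (hL i hi).choose_spec.1⟩
  -- an element of T in L, hence 0 ∈ T
  have h0 : (0 : G) ∈ T := by
    have : ∀ i : ι, ∃ x, i ∈ s → x ∈ Δ i ∧ x ∈ L := by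
      intro i
      by_cases hi : i ∈ s
      · obtain ⟨x, hx, hx'⟩ := hL i hi
        exact ⟨x, fun _ => ⟨hx, hx'⟩⟩
      · exact ⟨0, fun h => absurd h hi⟩
    choose f hf using this
    rw [hT, mem_add]
    refine ⟨-∑ i ∈ s, f i, ?_, ∑ i ∈ s, f i, ?_, by simp⟩
    · rw [mem_fs]
      exact L.neg_mem (L.sum_mem fun i hi => (hf i hi).2)
    · rw [mem_sum_iff]
      exact ⟨f, fun i hi => (hf i hi).1, rfl⟩
  have hLstab : L ≤ stab T := by
    rw [hT, add_comm]; exact le_stab_add_fs _ _
  have hstabH : stab T ≤ H := by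
    intro g hg
    have := (hg 0).2 h0
    have := hsub this
    simpa using this
  by_cases heq : stab T = H
  · apply Finset.Subset.antisymm hsub
    intro y hy
    rw [mem_fs, ← heq] at hy
    have := (hy 0).2 h0
    simpa using this
  · exfalso
    have hlt : stab T < H := lt_of_le_of_ne hstabH heq
    have hk := hK (stab T) hLstab hlt
    -- Kneser
    have hfam := kneser_quot (insertNone s) (fun o : Option ι => o.elim (fs L) Δ) (by
      intro o ho
      rcases o with _ | i
      · exact ⟨0, by simp⟩
      · exact hne i (by simpa using ho))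
    have hs : ∑ o ∈ insertNone s, (fun o : Option ι => o.elim (fs L) Δ) o = T := by
      rw [Finset.sum_insertNone]; rfl
    rw [hs, Finset.sum_insertNone] at hfam
    have h5 : (s.filter (fun i => ∃ x ∈ Δ i, x ∉ stab T)).card ≤
        ∑ i ∈ s, ((qim (stab T) (Δ i)).card - 1) := by
      rw [Finset.card_filter]
      apply Finset.sum_le_sum
      intro i hi
      split_ifs with hx
      · obtain ⟨x, hx, hxK⟩ := hx
        obtain ⟨y, hy, hyL⟩ := hL i hi
        have := two_le_qim hy hx (hLstab hyL) hxK
        omega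
      · omega
    have h6 : (qim (stab T) T).card * (fs (stab T)).card = T.card := by
      rw [← card_add_fs, add_fs_stab _ _ le_rfl]
    have h7 : T.card < (fs H).card := by
      apply Finset.card_lt_card
      refine ⟨hsub, ?_⟩
      intro hsup
      have hTH : T = fs H := Finset.Subset.antisymm hsub hsup
      apply heq
      apply le_antisymm hstabH
      rw [hTH]
      intro g hg x
      simp only [mem_fs]
      exact ⟨fun h => (AddSubgroup.add_mem_cancel_left H hg).1 h,
        fun h => AddSubgroup.add_mem H hg h⟩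
    rw [← relIndex_mul_fs _ _ hstabH, ← h6] at h7
    have h8 : (qim (stab T) T).card < (stab T).relIndex H := Nat.lt_of_mul_lt_mul_right h7
    have h9 : ∑ i ∈ s, ((qim (stab T) (Δ i)).card - 1) + 1 ≤ (qim (stab T) T).card := by
      refine le_trans ?_ hfam
      apply Nat.add_le_add_right
      exact Nat.le_add_left _ _
    omega

/-- Greedy choice: from `X + Δ` pick `A ⊆ Δ` containing a given element with `X + A = X + Δ` and
`|A| - 1 ≤ |X + Δ| - |X|`. -/
theorem greedy_step (X Δ : Finset G) (h0 : (0 : G) ∈ Δ) :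
    ∃ A ⊆ Δ, (0 : G) ∈ A ∧ X + A = X + Δ ∧ A.card + X.card ≤ (X + Δ).card + 1 := by
  have : ∀ y : G, ∃ d, y ∈ X + Δ → d ∈ Δ ∧ ∃ x ∈ X, x + d = y := by
    intro y
    by_cases hy : y ∈ X + Δ
    · rw [mem_add] at hy
      obtain ⟨x, hx, d, hd, rfl⟩ := hy
      exact ⟨d, fun _ => ⟨hd, x, hx, rfl⟩⟩
    · exact ⟨0, fun h => absurd h hy⟩
  choose f hf using this
  refine ⟨insert 0 (((X + Δ) \ X).image f), ?_, mem_insert_self _ _, ?_, ?_⟩
  · intro d hd
    rw [mem_insert, mem_image] at hd
    rcases hd with rfl | ⟨y, hy, rfl⟩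
    · exact h0
    · exact (hf y (mem_sdiff.1 hy).1).1
  · apply Finset.Subset.antisymm
    · apply Finset.add_subset_add_left
      intro d hd
      rw [mem_insert, mem_image] at hd
      rcases hd with rfl | ⟨y, hy, rfl⟩
      · exact h0
      · exact (hf y (mem_sdiff.1 hy).1).1
    · intro y hy
      by_cases hyX : y ∈ X
      · rw [mem_add]
        exact ⟨y, hyX, 0, mem_insert_self _ _, by simp⟩
      · obtain ⟨hd, x, hx, hxy⟩ := hf y hy
        rw [mem_add]
        exact ⟨x, hx, f y, mem_insert_of_mem (mem_image_of_mem _ (mem_sdiff.2 ⟨hy, hyX⟩)), hxy⟩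
  · have h1 : (insert 0 (((X + Δ) \ X).image f)).card ≤ ((X + Δ) \ X).card + 1 :=
      (card_insert_le _ _).trans (Nat.add_le_add_right card_image_le _)
    have hsub : X ⊆ X + Δ := by
      intro x hx
      rw [mem_add]
      exact ⟨x, hx, 0, h0, by simp⟩
    have h2 : ((X + Δ) \ X).card + X.card = (X + Δ).card := card_sdiff_add_card_eq_card hsub
    omega

/-- Greedy choice for a family. -/
theorem greedy {ι : Type*} [DecidableEq ι] (s : Finset ι) (Δ : ι → Finset G)
    (h0 : ∀ i ∈ s, (0 : G) ∈ Δ i) :
    ∃ A : ι → Finset G, (∀ i ∈ s, A i ⊆ Δ i) ∧ (∀ i ∈ s, (0 : G) ∈ A i) ∧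
      ∑ i ∈ s, A i = ∑ i ∈ s, Δ i ∧
      ∑ i ∈ s, ((A i).card - 1) + 1 ≤ (∑ i ∈ s, Δ i).card := by
  induction s using Finset.induction_on with
  | empty =>
    exact ⟨fun _ => ∅, by simp, by simp, by simp, by simp⟩
  | insert a s ha ih =>
    obtain ⟨A, hA1, hA2, hA3, hA4⟩ := ih (fun i hi => h0 i (mem_insert_of_mem hi))
    obtain ⟨A0, h1, h2, h3, h4⟩ := greedy_step (∑ i ∈ s, Δ i) (Δ a) (h0 a (mem_insert_self _ _))
    have hne : ∀ i ∈ s, i ≠ a := fun i hi h => ha (h ▸ hi)
    refine ⟨Function.update A a A0, ?_, ?_, ?_, ?_⟩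
    · intro i hi
      by_cases h : i = a
      · subst h; simpa using h1
      · rw [Function.update_of_ne h]
        exact hA1 i ((mem_insert.1 hi).resolve_left h)
    · intro i hi
      by_cases h : i = a
      · subst h; simpa using h2
      · rw [Function.update_of_ne h]
        exact hA2 i ((mem_insert.1 hi).resolve_left h)
    · rw [sum_insert ha, sum_insert ha, Function.update_self,
        sum_congr rfl (g := A) (fun i hi => Function.update_of_ne (hne i hi) _ _), hA3,
        add_comm, h3, add_comm]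
    · rw [sum_insert ha, sum_insert ha, Function.update_self,
        sum_congr rfl (g := fun i => (A i).card - 1)
          (fun i hi => by rw [Function.update_of_ne (hne i hi)])]
      have h5 : 1 ≤ A0.card := Finset.card_pos.2 ⟨0, h2⟩
      rw [add_comm (Δ a)]
      omega

end Pool.Agent.Lib.MP_12e153_co
end

section

/-!
# Selection of subfamilies by minimality

Given finite sets `D t` (`t ∈ I`) with base points `b t ∈ D t` and a nested family `ch` of index
sets, one can choose `b t ∈ A t ⊆ D t` with the same sums over all members of `ch` and such that the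
sums of the `A t` grow by at least `|A t| - 1` with every index.
-/

set_option autoImplicit false

open Finset
open scoped Pointwise

namespace Pool.Agent.Lib.MP_12e153_co.Comp

open Pool.Agent.Kneser

variable {G : Type*} [AddCommGroup G] [Fintype G] [DecidableEq G]

/-- Growth: if every element of `A`, except the base point, is essential in `X + A` and `X` is
`L`-periodic, then `|X + A| ≥ |X| + |L| (|A| - 1)`. -/
theorem growth (X A : Finset G) (b : G) (hb : b ∈ A) (L : AddSubgroup G) (hL : L ≤ stab X)
    (hess : ∀ a ∈ A, a ≠ b → X + A.erase a ≠ X + A) :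
    X.card + (fs L).card * (A.card - 1) ≤ (X + A).card := by
  have hper : ∀ B : Finset G, ∀ y ∈ X + B, ∀ l ∈ L, y + l ∈ X + B := by
    intro B y hy l hl
    rw [mem_add] at hy ⊢
    obtain ⟨x, hx, z, hz, rfl⟩ := hy
    exact ⟨x + l, (stab_add_mem (hL hl)).2 hx, z, hz, by abel⟩
  have hpriv : ∀ a ∈ A, a ≠ b → ∃ y ∈ X + A, y ∉ X + A.erase a := by
    intro a ha hab
    by_contra hcon
    push Not at hcon
    exact hess a ha hab (Subset.antisymm (add_subset_add_left (erase_subset _ _)) hcon)
  have key : ∀ E : Finset G, E ⊆ A.erase b →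
      X.card + (fs L).card * E.card ≤ (X + insert b E).card := by
    intro E
    induction E using Finset.induction_on with
    | empty =>
      intro _
      simp only [card_empty, mul_zero, add_zero, insert_empty_eq]
      rw [card_add_singleton]
    | insert a E haE ih =>
      intro hE
      have haA := hE (mem_insert_self a E)
      rw [mem_erase] at haA
      have hEA : E ⊆ A.erase b := fun z hz => hE (mem_insert_of_mem hz)
      have ih' := ih hEA
      obtain ⟨y, hy, hy'⟩ := hpriv a haA.2 haA.1
      -- the coset y + L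
      have hYinj : Function.Injective (fun l : G => y + l) := fun _ _ h => add_left_cancel h
      have hYcard : ((fs L).image (fun l => y + l)).card = (fs L).card :=
        card_image_of_injective _ hYinj
      have hya : y ∈ X + {a} := by
        rw [mem_add] at hy
        obtain ⟨x, hx, z, hz, rfl⟩ := hy
        by_cases hza : z = a
        · subst hza; exact add_mem_add hx (mem_singleton_self _)
        · exact absurd (add_mem_add hx (mem_erase.2 ⟨hza, hz⟩)) hy'
      have hdisj : Disjoint (X + insert b E) ((fs L).image (fun l => y + l)) := by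
        rw [Finset.disjoint_left]
        intro w hw hw'
        rw [mem_image] at hw'
        obtain ⟨l, hl, rfl⟩ := hw'
        rw [mem_fs] at hl
        apply hy'
        have h1 : y + l ∈ X + A.erase a := by
          refine add_subset_add_left ?_ hw
          intro z hz
          rw [mem_insert] at hz
          rw [mem_erase]
          rcases hz with rfl | hz
          · exact ⟨fun h => haA.1 h.symm, hb⟩
          · exact ⟨fun h => haE (h ▸ hz), (mem_erase.1 (hEA hz)).2⟩
        have h2 := hper _ _ h1 (-l) (L.neg_mem hl)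
        rwa [add_neg_cancel_right] at h2
      have hsub : (X + insert b E) ∪ ((fs L).image (fun l => y + l)) ⊆
          X + insert b (insert a E) := by
        apply union_subset
        · apply add_subset_add_left
          intro z hz
          rw [mem_insert] at hz ⊢
          rcases hz with rfl | hz
          · exact Or.inl rfl
          · exact Or.inr (mem_insert_of_mem hz)
        · intro w hw
          rw [mem_image] at hw
          obtain ⟨l, hl, rfl⟩ := hw
          rw [mem_fs] at hl
          have h1 := hper _ _ hya l hl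
          refine add_subset_add_left ?_ h1
          intro z hz
          rw [mem_singleton] at hz
          subst hz
          exact mem_insert_of_mem (mem_insert_self _ _)
      have h3 := card_le_card hsub
      rw [card_union_of_disjoint hdisj, hYcard] at h3
      rw [card_insert_of_notMem haE, mul_add, mul_one]
      omega
  have h1 := key (A.erase b) (Subset.refl _)
  rwa [insert_erase hb, card_erase_of_mem hb] at h1

variable {ι : Type*} [DecidableEq ι]

/-- **Selection lemma.** -/
theorem select (I : Finset ι) (D : ι → Finset G) (b : ι → G) (hb : ∀ t ∈ I, b t ∈ D t)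
    (ch : Finset (Finset ι))
    (hnest : ∀ S ∈ ch, ∀ S' ∈ ch, S ⊆ S' ∨ S' ⊆ S) :
    ∃ A : ι → Finset G, (∀ t ∈ I, b t ∈ A t) ∧ (∀ t ∈ I, A t ⊆ D t) ∧
      (∀ S ∈ ch, ∑ t ∈ S, A t = ∑ t ∈ S, D t) ∧
      (∀ J ⊆ I, ∑ t ∈ J, ((A t).card - 1) + 1 ≤ (∑ t ∈ J, A t).card) ∧
      (∀ S ∈ ch, ∀ L : AddSubgroup G, L ≤ stab (∑ t ∈ S, A t) → ∀ J, S ⊆ J → J ⊆ I →
        (∑ t ∈ S, A t).card + (fs L).card * ∑ t ∈ J \ S, ((A t).card - 1) ≤
          (∑ t ∈ J, A t).card) := by
  classical
  let P : ℕ → Prop := fun n => ∃ A : ι → Finset G, (∀ t ∈ I, b t ∈ A t) ∧ (∀ t ∈ I, A t ⊆ D t) ∧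
      (∀ S ∈ ch, ∑ t ∈ S, A t = ∑ t ∈ S, D t) ∧ ∑ t ∈ I, (A t).card = n
  have hP : ∃ n, P n := ⟨_, D, hb, fun _ _ => Subset.refl _, fun _ _ => rfl, rfl⟩
  obtain ⟨A, hA1, hA2, hA3, hA4⟩ := Nat.find_spec hP
  have hmin : ∀ A' : ι → Finset G, (∀ t ∈ I, b t ∈ A' t) → (∀ t ∈ I, A' t ⊆ D t) →
      (∀ S ∈ ch, ∑ t ∈ S, A' t = ∑ t ∈ S, D t) → ∑ t ∈ I, (A t).card ≤ ∑ t ∈ I, (A' t).card := by
    intro A' h1 h2 h3
    rw [hA4]
    exact Nat.find_min' hP ⟨A', h1, h2, h3, rfl⟩
  -- essential elements
  have hess : ∀ t ∈ I, ∀ a ∈ A t, a ≠ b t → ∃ S ∈ ch, t ∈ S ∧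
      ∑ s ∈ S.erase t, A s + (A t).erase a ≠ ∑ s ∈ S.erase t, A s + A t := by
    intro t ht a ha hab
    by_contra hcon
    push Not at hcon
    have h1 := hmin (Function.update A t ((A t).erase a)) ?_ ?_ ?_
    · have h2 : ∑ s ∈ I, (Function.update A t ((A t).erase a) s).card <
          ∑ s ∈ I, (A s).card := by
        apply sum_lt_sum
        · intro s _
          by_cases hs : s = t
          · subst hs; rw [Function.update_self]; exact card_le_card (erase_subset _ _)
          · rw [Function.update_of_ne hs]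
        · exact ⟨t, ht, by rw [Function.update_self]; exact card_erase_lt_of_mem ha⟩
      omega
    · intro s hs
      by_cases hst : s = t
      · subst hst; rw [Function.update_self]; exact mem_erase.2 ⟨hab.symm, hA1 s hs⟩
      · rw [Function.update_of_ne hst]; exact hA1 s hs
    · intro s hs
      by_cases hst : s = t
      · subst hst; rw [Function.update_self]; exact (erase_subset _ _).trans (hA2 s hs)
      · rw [Function.update_of_ne hst]; exact hA2 s hs
    · intro S hS
      rw [← hA3 S hS]
      by_cases htS : t ∈ S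
      · rw [← sum_erase_add S _ htS, ← sum_erase_add S A htS, Function.update_self]
        rw [← hcon S hS htS]
        congr 1
        apply sum_congr rfl
        intro s hs
        rw [Function.update_of_ne (ne_of_mem_erase hs)]
      · apply sum_congr rfl
        intro s hs
        rw [Function.update_of_ne]
        rintro rfl; exact htS hs
  -- choice of the last index
  have hlast : ∀ J : Finset ι, J ⊆ I → J.Nonempty → ∃ t ∈ J, ∀ S ∈ ch, t ∈ S → J ⊆ S := by
    intro J hJ hJne
    obtain ⟨t, ht, htmin⟩ := exists_min_image J (fun t => (ch.filter (fun S => t ∈ S)).card) hJne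
    refine ⟨t, ht, ?_⟩
    intro S hS htS s hs
    by_contra hsS
    have h1 := htmin s hs
    have h2 : ch.filter (fun S' => s ∈ S') ⊂ ch.filter (fun S' => t ∈ S') := by
      rw [Finset.ssubset_iff_of_subset]
      · exact ⟨S, by simp [hS, htS], by simp [hsS]⟩
      · intro S' hS'
        rw [mem_filter] at hS' ⊢
        refine ⟨hS'.1, ?_⟩
        rcases hnest S hS S' hS'.1 with h | h
        · exact h htS
        · exact absurd (h hS'.2) hsS
    exact absurd (card_lt_card h2) (by omega)
  -- one step
  have hstep : ∀ J : Finset ι, J ⊆ I → ∀ t ∈ J, (∀ S ∈ ch, t ∈ S → J ⊆ S) →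
      ∀ L : AddSubgroup G, L ≤ stab (∑ s ∈ J.erase t, A s) →
      (∑ s ∈ J.erase t, A s).card + (fs L).card * ((A t).card - 1) ≤ (∑ s ∈ J, A s).card := by
    intro J hJ t ht htlast L hL
    rw [← sum_erase_add J A ht]
    apply growth _ _ (b t) (hA1 t (hJ ht)) L hL
    intro a ha hab heq
    obtain ⟨S, hS, htS, hne⟩ := hess t (hJ ht) a ha hab
    apply hne
    have hJS := htlast S hS htS
    have h1 : S.erase t = (J.erase t) ∪ (S \ J) := by
      ext s
      simp only [mem_erase, mem_union, mem_sdiff]
      constructor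
      · rintro ⟨h1, h2⟩
        by_cases hsJ : s ∈ J
        · exact Or.inl ⟨h1, hsJ⟩
        · exact Or.inr ⟨h2, hsJ⟩
      · rintro (⟨h1, h2⟩ | ⟨h1, h2⟩)
        · exact ⟨h1, hJS h2⟩
        · exact ⟨fun h => h2 (h ▸ ht), h1⟩
    have h2 : Disjoint (J.erase t) (S \ J) := by
      rw [Finset.disjoint_left]
      intro s hs hs'
      exact (mem_sdiff.1 hs').2 (mem_of_mem_erase hs)
    rw [h1, sum_union h2]
    have e1 : ∑ s ∈ J.erase t, A s + ∑ s ∈ S \ J, A s + (A t).erase a =
        (∑ s ∈ J.erase t, A s + (A t).erase a) + ∑ s ∈ S \ J, A s := by abel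
    have e2 : ∑ s ∈ J.erase t, A s + ∑ s ∈ S \ J, A s + A t =
        (∑ s ∈ J.erase t, A s + A t) + ∑ s ∈ S \ J, A s := by abel
    rw [e1, e2, heq]
  refine ⟨A, hA1, hA2, hA3, ?_, ?_⟩
  · -- SG
    intro J
    obtain ⟨n, hn⟩ : ∃ n, n = J.card := ⟨_, rfl⟩
    induction n generalizing J with
    | zero =>
      intro _
      have : J = ∅ := card_eq_zero.1 hn.symm
      subst this
      simp
    | succ n ih =>
      intro hJ
      obtain ⟨t, ht, hlt⟩ := hlast J hJ (card_pos.1 (by omega))
      have h1 := hstep J hJ t ht hlt ⊥ bot_le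
      have h2 := ih (J.erase t) (by rw [card_erase_of_mem ht]; omega)
        ((erase_subset _ _).trans hJ)
      have h3 : 1 ≤ (fs (⊥ : AddSubgroup G)).card := fs_card_pos _
      rw [← sum_erase_add J (fun t => (A t).card - 1) ht]
      have h4 : (A t).card - 1 ≤ (fs (⊥ : AddSubgroup G)).card * ((A t).card - 1) :=
        Nat.le_mul_of_pos_left _ h3
      omega
  · -- SL
    intro S₀ hS₀ L hL J
    obtain ⟨n, hn⟩ : ∃ n, n = (J \ S₀).card := ⟨_, rfl⟩
    induction n generalizing J with
    | zero =>
      intro h1 _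
      have : J \ S₀ = ∅ := card_eq_zero.1 hn.symm
      have h2 : J = S₀ := Subset.antisymm (sdiff_eq_empty_iff_subset.1 this) h1
      subst h2
      simp
    | succ n ih =>
      intro hSJ hJ
      obtain ⟨t, ht, hlt⟩ := hlast J hJ (by
        obtain ⟨s, hs⟩ := card_pos.1 (by omega : 0 < (J \ S₀).card)
        exact ⟨s, (mem_sdiff.1 hs).1⟩)
      have htS : t ∉ S₀ := by
        intro h
        have h1 := hlt S₀ hS₀ h
        have : J \ S₀ = ∅ := sdiff_eq_empty_iff_subset.2 h1
        rw [this, card_empty] at hn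
        omega
      have hsub : S₀ ⊆ J.erase t := by
        intro s hs
        rw [mem_erase]
        exact ⟨fun h => htS (h ▸ hs), hSJ hs⟩
      have he : J.erase t \ S₀ = (J \ S₀).erase t := by
        ext s
        simp only [mem_sdiff, mem_erase]
        tauto
      have htJS : t ∈ J \ S₀ := mem_sdiff.2 ⟨ht, htS⟩
      have h2 := ih (J.erase t) (by rw [he, card_erase_of_mem htJS]; omega) hsub
        ((erase_subset _ _).trans hJ)
      have hstab : L ≤ stab (∑ s ∈ J.erase t, A s) := by
        refine hL.trans ?_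
        have e : J.erase t = (J.erase t \ S₀) ∪ S₀ := (sdiff_union_of_subset hsub).symm
        rw [e, sum_union sdiff_disjoint]
        exact stab_le_stab_add _ _
      have h1 := hstep J hJ t ht hlt L hstab
      rw [he] at h2
      rw [← sum_erase_add (J \ S₀) (fun t => (A t).card - 1) htJS, mul_add]
      omega

end Pool.Agent.Lib.MP_12e153_co.Comp
end
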