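import Mathlib

section

/-!
# A domination lemma proved by a maximal cut
-/

set_option autoImplicit false

open Finset

namespace Pool.Agent.Lib.MP_12e153_co.Comp

variable {V : Type*} [DecidableEq V]

open Classical in
/-- the number of cut pairs -/
noncomputable def cutN (X R : Finset V) (E : V → V → Prop) (D : Finset V) : ℕ :=
  ((R ×ˢ X).filter (fun p => E p.1 p.2 ∧ ¬ (p.1 ∈ D ↔ p.2 ∈ D))).card

/-- **Domination lemma.** `R ⊆ X`, every `v ∈ R` has an out-neighbour in `X`, and the relation is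
symmetric on `R`.  Then there is a set `D ⊆ X` such that every vertex of `R` has an out-neighbour
on the other side of the partition `D, X \ D`. -/
theorem exists_cut (X R : Finset V) (hR : R ⊆ X) (E : V → V → Prop) (hirr : ∀ v, ¬ E v v)
    (hout : ∀ v ∈ R, ∃ u ∈ X, E v u) (hsym : ∀ v ∈ R, ∀ u ∈ R, E v u → E u v) :
    ∃ D ⊆ X, ∀ v ∈ R, ∃ u ∈ X, E v u ∧ ¬ (v ∈ D ↔ u ∈ D) := by
  classical
  obtain ⟨D, hD, hmax⟩ := Finset.exists_max_image X.powerset (cutN X R E) ⟨∅, by simp⟩
  rw [mem_powerset] at hD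
  refine ⟨D, hD, ?_⟩
  by_contra hcon
  push Not at hcon
  obtain ⟨v, hv, hall⟩ := hcon
  -- switch v
  set D' := if v ∈ D then D.erase v else insert v D with hD'
  have hD'X : D' ⊆ X := by
    rw [hD']
    split_ifs
    · exact (erase_subset _ _).trans hD
    · exact insert_subset (hR hv) hD
  have hmem : ∀ u, u ≠ v → (u ∈ D' ↔ u ∈ D) := by
    intro u hu
    rw [hD']
    split_ifs <;> simp [hu]
  have hmemv : v ∈ D' ↔ v ∉ D := by
    rw [hD']
    split_ifs with h <;> simp [h]
  have hle := hmax D' (mem_powerset.2 hD'X)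
  apply absurd hle
  rw [not_le, cutN, cutN]
  apply Finset.card_lt_card
  obtain ⟨u, hu, hvu⟩ := hout v hv
  have huv : u ≠ v := fun h => hirr v (by rw [h] at hvu; exact hvu)
  rw [Finset.ssubset_iff_of_subset]
  · refine ⟨(v, u), ?_, ?_⟩
    · rw [mem_filter, mem_product]
      refine ⟨⟨hv, hu⟩, hvu, ?_⟩
      have h1 := hall u hu hvu
      simp only [hmemv, hmem u huv]
      tauto
    · rw [mem_filter]
      rintro ⟨_, _, h2⟩
      exact h2 (hall u hu hvu)
  · rintro ⟨x, y⟩ hxy
    rw [mem_filter, mem_product] at hxy ⊢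
    obtain ⟨⟨hx, hy⟩, hE, hcut⟩ := hxy
    simp only at hx hy hE hcut ⊢
    refine ⟨⟨hx, hy⟩, hE, ?_⟩
    have hne : x ≠ y := fun h => hirr x (by rw [← h] at hE; exact hE)
    by_cases hxv : x = v
    · subst hxv
      exact absurd (hall y hy hE) hcut
    · by_cases hyv : y = v
      · subst hyv
        have h3 := hall x (hR hx) (hsym x hx y hv hE)
        exact absurd h3.symm hcut
      · rw [hmem x hxv, hmem y hyv]
        exact hcut

/-- **Domination lemma, half size.**  -/
theorem exists_half (X R : Finset V) (hR : R ⊆ X) (E : V → V → Prop) (hirr : ∀ v, ¬ E v v)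
    (hout : ∀ v ∈ R, ∃ u ∈ X, E v u) (hsym : ∀ v ∈ R, ∀ u ∈ R, E v u → E u v) :
    ∃ D ⊆ X, X.card ≤ 2 * D.card ∧ ∀ v ∈ D, v ∈ R → ∃ u ∈ X \ D, E v u := by
  classical
  obtain ⟨D, hD, h⟩ := exists_cut X R hR E hirr hout hsym
  have hc := card_sdiff_add_card_eq_card hD
  by_cases hle : X.card ≤ 2 * D.card
  · refine ⟨D, hD, hle, ?_⟩
    intro v hv hvR
    obtain ⟨u, hu, hE, hcut⟩ := h v hvR
    refine ⟨u, mem_sdiff.2 ⟨hu, fun huD => hcut ⟨fun _ => huD, fun _ => hv⟩⟩, hE⟩
  · refine ⟨X \ D, sdiff_subset, by omega, ?_⟩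
    intro v hv hvR
    obtain ⟨u, hu, hE, hcut⟩ := h v hvR
    rw [mem_sdiff] at hv
    refine ⟨u, ?_, hE⟩
    rw [mem_sdiff, mem_sdiff]
    refine ⟨hu, ?_⟩
    rintro ⟨_, huD⟩
    exact hcut ⟨fun hvD => absurd hvD hv.2, fun h => absurd h huD⟩

end Pool.Agent.Lib.MP_12e153_co.Comp
end

section

/-!
# Two-colourings with at most one unsatisfied vertex
-/

set_option autoImplicit false

open Finset

namespace Pool.Agent.Lib.MP_12e153_co.Comp

variable {V : Type*} [DecidableEq V]

/-- Switch the side of `v` in `D` so that it is in `D` iff `b`. -/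
noncomputable def setSide (D : Finset V) (v : V) (b : Prop) [Decidable b] : Finset V :=
  if b then insert v D else D.erase v

theorem setSide_self (D : Finset V) (v : V) (b : Prop) [Decidable b] :
    v ∈ setSide D v b ↔ b := by
  unfold setSide
  split_ifs with h <;> simp [h]

theorem setSide_other (D : Finset V) (v : V) (b : Prop) [Decidable b] {w : V} (h : w ≠ v) :
    w ∈ setSide D v b ↔ w ∈ D := by
  unfold setSide
  split_ifs <;> simp [h]

open Classical in
/-- **Two-colouring lemma.** `E` is a relation on the non-free vertices of `X` such that every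
non-free vertex has an out-neighbour in `X`; vertices of equal type are joined symmetrically,
vertices of different types in at least one direction.  Then there is a 2-colouring of `X` such
that all vertices except at most one are free or have an out-neighbour of the other colour. -/
theorem exists_split {τ : Type*} (X Fr : Finset V) (a : V → τ) (E : V → V → Prop)
    (hirr : ∀ v, ¬ E v v)
    (h1 : ∀ v ∈ X, v ∉ Fr → ∃ w ∈ X, E v w)
    (h2 : ∀ v ∈ X, v ∉ Fr → ∀ w ∈ X, w ∉ Fr → a v = a w → E v w → E w v)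
    (h3 : ∀ v ∈ X, v ∉ Fr → ∀ w ∈ X, w ∉ Fr → a v ≠ a w → E v w ∨ E w v) :
    ∃ D : Finset V,
      (X.filter (fun v => ¬ (v ∈ Fr ∨ ∃ w ∈ X, E v w ∧ ¬ (v ∈ D ↔ w ∈ D)))).card ≤ 1 := by
  -- stage 1
  let P : Finset V → Prop := fun S => S ⊆ X ∧
    ∃ D : Finset V, ∀ v ∈ S, v ∈ Fr ∨ ∃ w ∈ S, E v w ∧ ¬ (v ∈ D ↔ w ∈ D)
  obtain ⟨S, hS, hSmax⟩ := Finset.exists_max_image (X.powerset.filter P) Finset.card
    ⟨∅, by simp [P]⟩
  rw [mem_filter] at hS
  obtain ⟨-, hSX, D, hD⟩ := hS
  have hbig : ∀ S', P S' → S'.card ≤ S.card := fun S' h =>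
    hSmax S' (mem_filter.2 ⟨mem_powerset.2 h.1, h⟩)
  have hfree : ∀ v ∈ X, v ∉ S → v ∉ Fr := by
    intro v hv hvS hvF
    have := hbig (insert v S) ⟨insert_subset hv hSX, D, by
      intro x hx
      rw [mem_insert] at hx
      rcases hx with rfl | hx
      · exact Or.inl hvF
      · rcases hD x hx with h | ⟨w, hw, hE, hc⟩
        · exact Or.inl h
        · exact Or.inr ⟨w, mem_insert_of_mem hw, hE, hc⟩⟩
    rw [card_insert_of_notMem hvS] at this
    omega
  have hnoS : ∀ v ∈ X, v ∉ S → ∀ w ∈ S, ¬ E v w := by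
    intro v hv hvS w hw hE
    have hwv : w ≠ v := fun h => hvS (h ▸ hw)
    have := hbig (insert v S) ⟨insert_subset hv hSX, setSide D v (w ∉ D), by
      intro x hx
      rw [mem_insert] at hx
      rcases hx with rfl | hx
      · refine Or.inr ⟨w, mem_insert_of_mem hw, hE, ?_⟩
        rw [setSide_self, setSide_other _ _ _ hwv]
        tauto
      · have hxv : x ≠ v := fun h => hvS (h ▸ hx)
        rcases hD x hx with h | ⟨w', hw', hE', hc'⟩
        · exact Or.inl h
        · have hwv' : w' ≠ v := fun h => hvS (h ▸ hw')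
          refine Or.inr ⟨w', mem_insert_of_mem hw', hE', ?_⟩
          rw [setSide_other _ _ _ hwv', setSide_other _ _ _ hxv]
          exact hc'⟩
    rw [card_insert_of_notMem hvS] at this
    omega
  have hnomut : ∀ v ∈ X, v ∉ S → ∀ w ∈ X, w ∉ S → E v w → ¬ E w v := by
    intro v hv hvS w hw hwS hE hE'
    have hvw : v ≠ w := fun h => hirr v (by rw [← h] at hE; exact hE)
    have := hbig (insert v (insert w S))
      ⟨insert_subset hv (insert_subset hw hSX), setSide (setSide D w False) v True, by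
      intro x hx
      rw [mem_insert, mem_insert] at hx
      rcases hx with rfl | rfl | hx
      · refine Or.inr ⟨w, by simp, hE, ?_⟩
        rw [setSide_self, setSide_other _ _ _ hvw.symm, setSide_self]
        tauto
      · refine Or.inr ⟨v, by simp, hE', ?_⟩
        rw [setSide_self, setSide_other _ _ _ hvw.symm, setSide_self]
        tauto
      · have hxv : x ≠ v := fun h => hvS (h ▸ hx)
        have hxw : x ≠ w := fun h => hwS (h ▸ hx)
        rcases hD x hx with h | ⟨w', hw', hE', hc'⟩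
        · exact Or.inl h
        · have hwv' : w' ≠ v := fun h => hvS (h ▸ hw')
          have hww' : w' ≠ w := fun h => hwS (h ▸ hw')
          refine Or.inr ⟨w', by simp [hw'], hE', ?_⟩
          rw [setSide_other _ _ _ hwv', setSide_other _ _ _ hxv, setSide_other _ _ _ hww',
            setSide_other _ _ _ hxw]
          exact hc'⟩
    rw [card_insert_of_notMem (by simp [hvS, hvw]), card_insert_of_notMem hwS] at this
    omega
  -- stage 2
  by_cases hT : X ⊆ S
  · refine ⟨D, ?_⟩
    have : (X.filter (fun v => ¬ (v ∈ Fr ∨ ∃ w ∈ X, E v w ∧ ¬ (v ∈ D ↔ w ∈ D)))) = ∅ := by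
      rw [Finset.filter_eq_empty_iff]
      intro v hv hn
      apply hn
      rcases hD v (hT hv) with h | ⟨w, hw, hE, hc⟩
      · exact Or.inl h
      · exact Or.inr ⟨w, hSX hw, hE, hc⟩
    rw [this]; simp
  · obtain ⟨x0, hx0, hx0S⟩ := Finset.not_subset.1 hT
    let P2 : Finset V → Prop := fun S' => S' ⊆ X \ S ∧ ∃ x ∈ S', ∃ D' : Finset V,
      ∀ v ∈ S', v ≠ x → ∃ w ∈ S', E v w ∧ ¬ (v ∈ D' ↔ w ∈ D')
    obtain ⟨S', hS', hmax'⟩ := Finset.exists_max_image ((X \ S).powerset.filter P2) Finset.card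
      ⟨{x0}, by
        rw [mem_filter, mem_powerset]
        refine ⟨by simp [hx0, hx0S], by simp [hx0, hx0S], x0, by simp, ∅, ?_⟩
        intro v hv hvx
        exact absurd (mem_singleton.1 hv) hvx⟩
    rw [mem_filter] at hS'
    obtain ⟨-, hS'T, x, hx, D', hD'⟩ := hS'
    have hbig' : ∀ S'', P2 S'' → S''.card ≤ S'.card := fun S'' h =>
      hmax' S'' (mem_filter.2 ⟨mem_powerset.2 h.1, h⟩)
    have hno' : ∀ v ∈ X \ S, v ∉ S' → ∀ w ∈ S', ¬ E v w := by
      intro v hv hvS' w hw hE
      have hwv : w ≠ v := fun h => hvS' (h ▸ hw)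
      have := hbig' (insert v S') ⟨insert_subset hv hS'T, x, mem_insert_of_mem hx,
        setSide D' v (w ∉ D'), by
        intro y hy hyx
        rw [mem_insert] at hy
        rcases hy with rfl | hy
        · refine ⟨w, mem_insert_of_mem hw, hE, ?_⟩
          rw [setSide_self, setSide_other _ _ _ hwv]
          tauto
        · have hyv : y ≠ v := fun h => hvS' (h ▸ hy)
          obtain ⟨w', hw', hE', hc'⟩ := hD' y hy hyx
          have hwv' : w' ≠ v := fun h => hvS' (h ▸ hw')
          refine ⟨w', mem_insert_of_mem hw', hE', ?_⟩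
          rw [setSide_other _ _ _ hwv', setSide_other _ _ _ hyv]
          exact hc'⟩
      rw [card_insert_of_notMem hvS'] at this
      omega
    have hall : X \ S ⊆ S' := by
      intro v hv
      by_contra hvS'
      have hvX := (mem_sdiff.1 hv).1
      have hvS := (mem_sdiff.1 hv).2
      obtain ⟨w, hw, hE⟩ := h1 v hvX (hfree v hvX hvS)
      have hwS : w ∉ S := fun h => hnoS v hvX hvS w h hE
      have hwS' : w ∉ S' := fun h => hno' v hv hvS' w h hE
      have hne : a v ≠ a w := by
        intro h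
        exact hnomut v hvX hvS w hw hwS hE
          (h2 v hvX (hfree v hvX hvS) w hw (hfree w hw hwS) h hE)
      -- u with a u ≠ a x
      obtain ⟨u, huX, huS, huS', hu⟩ : ∃ u, u ∈ X ∧ u ∉ S ∧ u ∉ S' ∧ a u ≠ a x := by
        by_cases h : a v = a x
        · exact ⟨w, hw, hwS, hwS', fun h' => hne (h.trans h'.symm)⟩
        · exact ⟨v, hvX, hvS, hvS', h⟩
      have hxX := (mem_sdiff.1 (hS'T hx)).1
      have hxS := (mem_sdiff.1 (hS'T hx)).2
      have hxu : E x u := by
        rcases h3 x hxX (hfree x hxX hxS) u huX (hfree u huX huS) (Ne.symm hu) with h | h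
        · exact h
        · exact absurd h (hno' u (mem_sdiff.2 ⟨huX, huS⟩) huS' x hx)
      have hxne : x ≠ u := fun h => huS' (h ▸ hx)
      have := hbig' (insert u S') ⟨insert_subset (mem_sdiff.2 ⟨huX, huS⟩) hS'T, u,
        mem_insert_self _ _, setSide D' u (x ∉ D'), by
        intro y hy hyu
        rw [mem_insert] at hy
        have hy' : y ∈ S' := hy.resolve_left hyu
        by_cases hyx : y = x
        · subst hyx
          refine ⟨u, mem_insert_self _ _, hxu, ?_⟩
          rw [setSide_self, setSide_other _ _ _ hxne]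
          tauto
        · obtain ⟨w', hw', hE', hc'⟩ := hD' y hy' hyx
          have hwv' : w' ≠ u := fun h => huS' (h ▸ hw')
          refine ⟨w', mem_insert_of_mem hw', hE', ?_⟩
          rw [setSide_other _ _ _ hwv', setSide_other _ _ _ hyu]
          exact hc'⟩
      rw [card_insert_of_notMem huS'] at this
      omega
    -- combine
    refine ⟨(D ∩ S) ∪ (D' \ S), ?_⟩
    have hDS : ∀ v ∈ S, (v ∈ (D ∩ S) ∪ (D' \ S) ↔ v ∈ D) := by
      intro v hv; simp [hv]
    have hDT : ∀ v, v ∉ S → (v ∈ (D ∩ S) ∪ (D' \ S) ↔ v ∈ D') := by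
      intro v hv; simp [hv]
    have hsub : (X.filter (fun v => ¬ (v ∈ Fr ∨ ∃ w ∈ X, E v w ∧
        ¬ (v ∈ (D ∩ S) ∪ (D' \ S) ↔ w ∈ (D ∩ S) ∪ (D' \ S))))) ⊆ {x} := by
      intro v hv
      rw [mem_filter] at hv
      obtain ⟨hvX, hn⟩ := hv
      rw [mem_singleton]
      by_contra hvx
      apply hn
      by_cases hvS : v ∈ S
      · rcases hD v hvS with h | ⟨w, hw, hE, hc⟩
        · exact Or.inl h
        · refine Or.inr ⟨w, hSX hw, hE, ?_⟩
          rw [hDS v hvS, hDS w hw]
          exact hc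
      · have hvS' : v ∈ S' := hall (mem_sdiff.2 ⟨hvX, hvS⟩)
        obtain ⟨w, hw, hE, hc⟩ := hD' v hvS' hvx
        have hwT := mem_sdiff.1 (hS'T hw)
        refine Or.inr ⟨w, hwT.1, hE, ?_⟩
        rw [hDT v hvS, hDT w hwT.2]
        exact hc
    exact (card_le_card hsub).trans (by simp)

end Pool.Agent.Lib.MP_12e153_co.Comp
end
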