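import Pool.Agent.Lib.MP_12e153_co.Mg.G002
import Pool.Agent.Lib.MP_12e153_co.Mg.G001
import Pool.Agent.Lib.MP_12e153_co.Mg.G005

section

/-!
# The descent: a structure whose constant vertices are exactly constant
-/

set_option autoImplicit false
set_option linter.unusedSectionVars false

open Finset
open scoped Pointwise

namespace Pool.Agent.Lib.MP_12e153_co.Comp

open Pool.Agent.Kneser Pool.Agent.Lib.MP_12e153_co

section Translates

variable {G : Type*} [AddCommGroup G] [Fintype G] [DecidableEq G]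

/-- `Y` contains a translate of `X`. -/
def Tr (X Y : Finset G) : Prop := ∃ g, ∀ y ∈ X, y + g ∈ Y

theorem Tr.refl (X : Finset G) : Tr X X := ⟨0, fun y hy => by simpa using hy⟩

theorem Tr.card_le {X Y : Finset G} (h : Tr X Y) : X.card ≤ Y.card := by
  obtain ⟨g, hg⟩ := h
  exact card_le_card_of_injOn (fun y => y + g) hg (fun _ _ _ _ h => add_right_cancel h)

theorem Tr.trans {X Y Z : Finset G} (h1 : Tr X Y) (h2 : Tr Y Z) : Tr X Z := by
  obtain ⟨g, hg⟩ := h1
  obtain ⟨g', hg'⟩ := h2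
  exact ⟨g + g', fun y hy => by rw [← add_assoc]; exact hg' _ (hg y hy)⟩

theorem Tr.stab_eq {X Y : Finset G} (h : Tr X Y) (hc : Y.card ≤ X.card) : stab Y = stab X := by
  obtain ⟨g, hg⟩ := h
  have himg : X.image (fun y => y + g) = Y := by
    apply eq_of_subset_of_card_le
    · intro z hz
      rw [mem_image] at hz
      obtain ⟨y, hy, rfl⟩ := hz
      exact hg y hy
    · rw [card_image_of_injective _ (add_left_injective g)]; exact hc
  have hm : ∀ z, z ∈ Y ↔ z - g ∈ X := by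
    intro z
    rw [← himg, mem_image]
    constructor
    · rintro ⟨y, hy, rfl⟩; rwa [add_sub_cancel_right]
    · intro h; exact ⟨z - g, h, sub_add_cancel z g⟩
  ext k
  rw [mem_stab, mem_stab]
  constructor
  · intro h z
    have := h (z + g)
    rw [hm, hm, add_sub_cancel_right] at this
    rwa [← add_assoc, add_sub_cancel_right] at this
  · intro h z
    rw [hm, hm]
    have := h (z - g)
    rwa [← add_sub_assoc] at this

theorem tr_sum_mono {ι : Type*} [DecidableEq ι] {S₁ S₂ : Finset ι} (h : S₁ ⊆ S₂)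
    (A : ι → Finset G) (hA : ∀ t ∈ S₂, (A t).Nonempty) :
    Tr (∑ t ∈ S₁, A t) (∑ t ∈ S₂, A t) := by
  obtain ⟨z, hz⟩ := sum_nonempty (S₂ \ S₁) A (fun t ht => hA t (mem_sdiff.1 ht).1)
  refine ⟨z, fun y hy => ?_⟩
  rw [← sum_sdiff h, add_comm y z]
  exact add_mem_add hz hy

/-- The coset `a + L`. -/
noncomputable def cs (L : AddSubgroup G) (a : G) : Finset G := by
  classical exact univ.filter (fun y => y - a ∈ L)

theorem mem_cs {L : AddSubgroup G} {a y : G} : y ∈ cs L a ↔ y - a ∈ L := by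
  classical
  simp [cs]

theorem cs_bot (a : G) : cs (⊥ : AddSubgroup G) a = {a} := by
  ext y
  rw [mem_cs, AddSubgroup.mem_bot, mem_singleton, sub_eq_zero]

theorem cs_card (L : AddSubgroup G) (a : G) : (cs L a).card = (fs L).card := by
  apply card_bij (fun y _ => y - a)
  · intro y hy
    rw [mem_fs]; exact mem_cs.1 hy
  · intro y _ z _ h
    exact sub_left_injective h
  · intro z hz
    refine ⟨z + a, ?_, by simp⟩
    rw [mem_cs]
    simpa using mem_fs.1 hz

theorem cs_mono {L L' : AddSubgroup G} (h : L' ≤ L) {a a' : G} (ha : a' ∈ cs L a) :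
    cs L' a' ⊆ cs L a := by
  intro y hy
  rw [mem_cs] at *
  have := L.add_mem (h hy) ha
  simpa using this

theorem sum_cs {ι : Type*} [DecidableEq ι] (T : Finset ι) (A : ι → Finset G)
    (L : AddSubgroup G) (a : G) (hA : ∀ t ∈ T, A t ⊆ cs L a) :
    ∑ t ∈ T, A t ⊆ cs L (T.card • a) := by
  intro y hy
  rw [mem_sum_iff] at hy
  obtain ⟨f, hf, rfl⟩ := hy
  rw [mem_cs, ← sum_const, ← sum_sub_distrib]
  exact L.sum_mem fun t ht => mem_cs.1 (hA t ht (hf t ht))

theorem stab_le_of_cs {X : Finset G} (hX : X.Nonempty) {L : AddSubgroup G} {b : G}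
    (h : X ⊆ cs L b) : stab X ≤ L := by
  intro g hg
  obtain ⟨y, hy⟩ := hX
  have h1 := mem_cs.1 (h hy)
  have h2 := mem_cs.1 (h ((hg y).2 hy))
  have := L.sub_mem h2 h1
  have e : g + y - b - (y - b) = g := by abel
  rwa [e] at this

/-- If `X + {α, β}` is not larger than `X` then `β - α` is in the stabiliser. -/
theorem sub_mem_stab {X : Finset G} {α β : G} (h : (X + {α, β}).card ≤ X.card) :
    β - α ∈ stab X := by
  have h1 : X + {α} ⊆ X + {α, β} := add_subset_add_left (by simp)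
  have h2 : X + {α, β} = X + {α} := by
    symm
    apply eq_of_subset_of_card_le h1
    rw [card_add_singleton]; exact h
  have h3 : ∀ y ∈ X, β - α + y ∈ X := by
    intro y hy
    have h4 : y + β ∈ X + {α, β} := add_mem_add hy (by simp)
    rw [h2, add_singleton] at h4
    rw [mem_vadd_finset] at h4
    obtain ⟨z, hz, hze⟩ := h4
    have : β - α + y = z := by
      have : z + α = y + β := hze
      rw [← add_sub_cancel_right z α, this]; abel
    rw [this]; exact hz
  exact mem_stab_of_add_subset X (β - α) h3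

end Translates

section Structures

variable {V : Type*} [Fintype V] [DecidableEq V]
variable {G : Type*} [AddCommGroup G] [Fintype G] [DecidableEq G]
variable {c : V → V → G} {K : AddSubgroup G} {x : V}

/-- A trimmed gadget with a small middle set. -/
structure Str (c : V → V → G) (K : AddSubgroup G) (x : V) where
  P : Finset V
  Q : Finset V
  A : V → Finset G
  gad : Gadget c K P Q x A
  two : ∀ b ∈ P, 2 ≤ (A b).card
  small : Q.card ≤ 1 + ∑ b ∈ P, ((A b).card - 1)

/-- The vertices outside `P ∪ Q` whose colours to the complement of `P` are in one class. -/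
noncomputable def Str.M (s : Str c K x) : Finset V := by
  classical exact
    (s.Pᶜ \ s.Q).filter (fun u => ∀ v ∈ (s.Pᶜ).erase u, c u v - c u x ∈ K)

theorem Str.mem_M {s : Str c K x} {u : V} : u ∈ s.M ↔
    (u ∉ s.P ∧ u ∉ s.Q) ∧ ∀ v, v ≠ u → v ∉ s.P → c u v - c u x ∈ K := by
  classical
  simp [Str.M]

/-- All edges from `M` to the complement of `P` have colours in `κ`. -/
def Str.Medges (s : Str c K x) (κ : Finset G) : Prop :=
  ∀ u ∈ s.M, ∀ v, v ≠ u → v ∉ s.P → c u v ∈ κ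

/-- Subfamily sums grow. -/
def Str.SG (s : Str c K x) : Prop :=
  ∀ J ⊆ s.P, ∑ t ∈ J, ((s.A t).card - 1) + 1 ≤ (∑ t ∈ J, s.A t).card

/-- The leaves with all colours in `κ`. -/
def Str.Pk (s : Str c K x) (κ : Finset G) : Finset V := s.P.filter (fun t => s.A t ⊆ κ)

/-- The sums of the leaves with all colours in `κ`. -/
def Str.X (s : Str c K x) (κ : Finset G) : Finset G := ∑ t ∈ s.Pk κ, s.A t

theorem Str.nonempty (s : Str c K x) {t : V} (ht : t ∈ s.P) : (s.A t).Nonempty :=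
  ⟨_, s.gad.base t ht⟩

theorem Str.X_nonempty (s : Str c K x) (κ : Finset G) : (s.X κ).Nonempty :=
  sum_nonempty _ _ (fun _ ht => s.nonempty (mem_filter.1 ht).1)

theorem Str.x_notMem (s : Str c K x) : x ∉ s.P := fun h =>
  Finset.disjoint_left.1 s.gad.disj h s.gad.mem

theorem Str.ne_x {s : Str c K x} {u : V} (hu : u ∈ s.M) : x ≠ u := fun h =>
  (Str.mem_M.1 hu).1.2 (h ▸ s.gad.mem)

open Classical in
/-- **Construction of structures.** -/
theorem build {I C0 : Finset V} {D : V → Finset G} (hd : Disjoint I C0) (hx : x ∈ C0)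
    (hsub : ∀ t ∈ I, D t ⊆ S c C0 t) (hbase : ∀ t ∈ I, c t x ∈ D t)
    (hcls : ∀ t ∈ I, ∀ y ∈ D t, y - c t x ∈ K)
    (hgen : ∀ y ∈ K, ∑ t ∈ I, c t x + y ∈ ∑ t ∈ I, D t)
    (ch : Finset (Finset V)) (hch : ∀ S ∈ ch, S ⊆ I)
    (hnest : ∀ S ∈ ch, ∀ S' ∈ ch, S ⊆ S' ∨ S' ⊆ S) :
    ∃ s : Str c K x, s.P ⊆ I ∧ s.Q ⊆ C0 ∧ (∀ t ∈ s.P, s.A t ⊆ D t) ∧
      (∀ S ∈ ch, Tr (∑ t ∈ S, D t) (∑ t ∈ s.P ∩ S, s.A t)) ∧ s.SG ∧
      (∀ S ∈ ch, ∀ L : AddSubgroup G, L ≤ stab (∑ t ∈ S, D t) →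
        (∑ t ∈ S, D t).card + (fs L).card * ∑ t ∈ s.P \ S, ((s.A t).card - 1) ≤
          (fs K).card) := by
  obtain ⟨A, hA1, hA2, hA3, hA4, hA5⟩ := select I D (fun t => c t x) hbase (insert I ch) (by
    intro S hS S' hS'
    rw [mem_insert] at hS hS'
    rcases hS with rfl | hS
    · rcases hS' with rfl | hS'
      · exact Or.inl (Subset.refl _)
      · exact Or.inr (hch _ hS')
    · rcases hS' with rfl | hS'
      · exact Or.inl (hch _ hS)
      · exact hnest _ hS _ hS')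
  -- the whole sum lies in a coset of K
  have hsubK : ∀ T ⊆ I, ∀ y ∈ ∑ t ∈ T, A t, y - ∑ t ∈ T, c t x ∈ K := by
    intro T hT y hy
    rw [mem_sum_iff] at hy
    obtain ⟨f, hf, rfl⟩ := hy
    rw [← sum_sub_distrib]
    exact K.sum_mem fun t ht => hcls t (hT ht) _ (hA2 t (hT ht) (hf t ht))
  have hcardI : (∑ t ∈ I, A t).card ≤ (fs K).card := by
    apply card_le_card_of_injOn (fun y => y - ∑ t ∈ I, c t x)
    · intro y hy
      rw [mem_coe, mem_fs]
      exact hsubK I (Subset.refl _) y hy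
    · intro y _ z _ h
      exact sub_left_injective h
  have hG0 : Gadget c K I C0 x A :=
    { disj := hd
      mem := hx
      sub := fun b hb => (hA2 b hb).trans (hsub b hb)
      base := hA1
      cls := fun b hb y hy => hcls b hb y (hA2 b hb hy)
      gen := fun y hy => by
        rw [hA3 I (mem_insert_self _ _)]; exact hgen y hy
      flex := (hA4 I (Subset.refl _)).trans hcardI }
  have hG1 := hG0.trim
  set P := I.filter (fun b => 2 ≤ (A b).card) with hP
  have hPI : P ⊆ I := filter_subset _ _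
  -- supporters
  have hsup : ∀ t : V, ∀ a : G, ∃ q, t ∈ I → a ∈ A t → q ∈ C0 ∧ c t q = a := by
    intro t a
    by_cases h : t ∈ I ∧ a ∈ A t
    · obtain ⟨q, hq, hqe⟩ := mem_S.1 (hG0.sub t h.1 h.2)
      exact ⟨q, fun _ _ => ⟨hq, hqe⟩⟩
    · exact ⟨x, fun h1 h2 => absurd ⟨h1, h2⟩ h⟩
  choose q hq using hsup
  set Q := insert x (P.biUnion fun t => ((A t).erase (c t x)).image (q t)) with hQ
  have hQC : Q ⊆ C0 := by
    intro z hz
    rw [hQ, mem_insert, mem_biUnion] at hz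
    rcases hz with rfl | ⟨t, ht, hz⟩
    · exact hx
    · rw [mem_image] at hz
      obtain ⟨a, ha, rfl⟩ := hz
      exact (hq t a (hPI ht) (mem_of_mem_erase ha)).1
  have hdisj : Disjoint P Q :=
    Finset.disjoint_of_subset_right hQC hG1.disj
  refine ⟨⟨P, Q, A, ?_, ?_, ?_⟩, hPI, hQC, ?_, ?_, ?_, ?_⟩
  · refine ⟨hdisj, mem_insert_self _ _, ?_, hG1.base, hG1.cls, hG1.gen, hG1.flex⟩
    intro t ht a ha
    rw [mem_S]
    by_cases hax : a = c t x
    · exact ⟨x, mem_insert_self _ _, hax.symm⟩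
    · refine ⟨q t a, ?_, (hq t a (hPI ht) ha).2⟩
      rw [hQ, mem_insert, mem_biUnion]
      exact Or.inr ⟨t, ht, mem_image_of_mem _ (mem_erase.2 ⟨hax, ha⟩)⟩
  · intro b hb
    exact (mem_filter.1 hb).2
  · rw [hQ]
    refine (card_insert_le _ _).trans ?_
    rw [add_comm]
    apply Nat.add_le_add_left
    refine card_biUnion_le.trans (sum_le_sum fun t ht => ?_)
    refine card_image_le.trans ?_
    rw [card_erase_of_mem (hA1 t (hPI ht))]
  · intro t ht
    exact hA2 t (hPI ht)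
  · intro S hS
    have hSI := hch S hS
    rw [← hA3 S (mem_insert_of_mem hS)]
    refine ⟨-∑ t ∈ S \ P, c t x, fun y hy => ?_⟩
    rw [mem_sum_iff] at hy ⊢
    obtain ⟨f, hf, rfl⟩ := hy
    refine ⟨f, fun t ht => hf t (mem_inter.1 ht).2, ?_⟩
    have e : S = (P ∩ S) ∪ (S \ P) := by
      ext t
      simp only [mem_union, mem_inter, mem_sdiff]
      tauto
    have hdis : Disjoint (P ∩ S) (S \ P) := by
      rw [Finset.disjoint_left]
      intro t ht ht'
      exact (mem_sdiff.1 ht').2 (mem_inter.1 ht).1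
    have e2 : ∑ t ∈ S \ P, f t = ∑ t ∈ S \ P, c t x := by
      apply sum_congr rfl
      intro t ht
      rw [mem_sdiff] at ht
      have h5 : (A t).card ≤ 1 := by
        have : t ∉ P := ht.2
        rw [hP, mem_filter, not_and] at this
        have := this (hSI ht.1)
        omega
      exact card_le_one.1 h5 _ (hf t ht.1) _ (hA1 t (hSI ht.1))
    have e3 : ∑ t ∈ S, f t = ∑ t ∈ P ∩ S, f t + ∑ t ∈ S \ P, f t := by
      rw [← sum_union hdis, ← e]
    rw [e3, e2]
    abel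
  · intro J hJ
    exact hA4 J (hJ.trans hPI)
  · intro S hS L hL
    have h1 := hA5 S (mem_insert_of_mem hS) L (by rw [hA3 S (mem_insert_of_mem hS)]; exact hL) I
      (hch S hS) (Subset.refl _)
    rw [hA3 S (mem_insert_of_mem hS)] at h1
    refine le_trans ?_ (h1.trans hcardI)
    apply Nat.add_le_add_left
    apply Nat.mul_le_mul_left
    apply sum_le_sum_of_subset
    exact sdiff_subset_sdiff hPI (Subset.refl _)

theorem Str.Pk_mono (s : Str c K x) {κ κ' : Finset G} (h : κ ⊆ κ') : s.Pk κ ⊆ s.Pk κ' := by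
  intro t ht
  rw [Str.Pk, mem_filter] at ht ⊢
  exact ⟨ht.1, ht.2.trans h⟩

theorem Str.Pk_subset (s : Str c K x) (κ : Finset G) : s.Pk κ ⊆ s.P := filter_subset _ _

/-- Select again, along a chain of cosets. -/
theorem reselect (s : Str c K x) (kk : Finset (Finset G))
    (hnest : ∀ κ ∈ kk, ∀ κ' ∈ kk, κ ⊆ κ' ∨ κ' ⊆ κ) :
    ∃ s' : Str c K x, s'.P ⊆ s.P ∧ s'.SG ∧
      ∀ κ ∈ kk, (∀ t ∈ s'.P ∩ s.Pk κ, s'.A t ⊆ κ) ∧
        Tr (s.X κ) (∑ t ∈ s'.P ∩ s.Pk κ, s'.A t) ∧ Tr (s.X κ) (s'.X κ) ∧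
        ∀ L : AddSubgroup G, L ≤ stab (s.X κ) →
          (s.X κ).card + (fs L).card * ∑ t ∈ s'.P \ s.Pk κ, ((s'.A t).card - 1) ≤
            (fs K).card := by
  obtain ⟨s', h1, h2, h3, h4, h5, h6⟩ := build (D := s.A) s.gad.disj s.gad.mem s.gad.sub
    s.gad.base s.gad.cls s.gad.gen (kk.image s.Pk) (by
      intro S hS
      rw [mem_image] at hS
      obtain ⟨κ, _, rfl⟩ := hS
      exact s.Pk_subset κ) (by
      intro S hS S' hS'
      rw [mem_image] at hS hS'
      obtain ⟨κ, hκ, rfl⟩ := hS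
      obtain ⟨κ', hκ', rfl⟩ := hS'
      rcases hnest κ hκ κ' hκ' with h | h
      · exact Or.inl (s.Pk_mono h)
      · exact Or.inr (s.Pk_mono h))
  refine ⟨s', h1, h5, ?_⟩
  intro κ hκ
  have hS : s.Pk κ ∈ kk.image s.Pk := mem_image_of_mem _ hκ
  have hsub : ∀ t ∈ s'.P ∩ s.Pk κ, s'.A t ⊆ κ := by
    intro t ht
    rw [mem_inter] at ht
    exact (h3 t ht.1).trans (mem_filter.1 ht.2).2
  refine ⟨hsub, h4 _ hS, (h4 _ hS).trans (tr_sum_mono ?_ _ ?_), h6 _ hS⟩
  · intro t ht
    rw [Str.Pk, mem_filter]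
    exact ⟨(mem_inter.1 ht).1, hsub t ht⟩
  · intro t ht
    exact s'.nonempty (s'.Pk_subset κ ht)

/-- Add a leaf. -/
theorem addLeaf (s : Str c K x) (kk : Finset (Finset G))
    (hnest : ∀ κ ∈ kk, ∀ κ' ∈ kk, κ ⊆ κ' ∨ κ' ⊆ κ) {u u' : V} (hu : u ∈ s.M) (huu : u' ≠ u)
    (hu' : u' ∉ s.P) (h1 : ∀ κ ∈ kk, c u x ∈ κ) (h2 : ∀ κ ∈ kk, c u u' ∈ κ) :
    ∃ s' : Str c K x, s'.P ⊆ insert u s.P ∧
      ∀ κ ∈ kk, Tr (s.X κ + {c u x, c u u'}) (s'.X κ) := by
  have huM := Str.mem_M.1 hu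
  have huP := huM.1.1
  have hD : ∀ T : Finset V, T ⊆ s.P →
      ∑ t ∈ insert u T, (if t = u then {c u x, c u u'} else s.A t) =
        ∑ t ∈ T, s.A t + {c u x, c u u'} := by
    intro T hT
    have huT : u ∉ T := fun h => huP (hT h)
    rw [sum_insert huT, if_pos rfl, add_comm]
    congr 1
    apply sum_congr rfl
    intro t ht
    rw [if_neg]
    rintro rfl
    exact huT ht
  obtain ⟨s', g1, g2, g3, g4, g5, g6⟩ := build (c := c) (K := K) (x := x) (I := insert u s.P)
    (C0 := insert u' s.Q) (D := fun t => if t = u then {c u x, c u u'} else s.A t) (by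
      rw [disjoint_insert_left, mem_insert, not_or]
      refine ⟨⟨huu.symm, huM.1.2⟩, ?_⟩
      rw [disjoint_insert_right]
      exact ⟨hu', s.gad.disj⟩) (mem_insert_of_mem s.gad.mem) (by
      intro t ht
      by_cases htu : t = u
      · subst htu
        simp only [if_true]
        intro y hy
        rw [mem_insert, mem_singleton] at hy
        rw [mem_S]
        rcases hy with rfl | rfl
        · exact ⟨x, mem_insert_of_mem s.gad.mem, rfl⟩
        · exact ⟨u', mem_insert_self _ _, rfl⟩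
      · simp only [htu, if_false]
        rw [mem_insert] at ht
        exact (s.gad.sub t (ht.resolve_left htu)).trans (S_mono (subset_insert _ _) t)) (by
      intro t ht
      by_cases htu : t = u
      · subst htu
        simp
      · simp only [htu, if_false]
        rw [mem_insert] at ht
        exact s.gad.base t (ht.resolve_left htu)) (by
      intro t ht y hy
      by_cases htu : t = u
      · subst htu
        simp only [if_true, mem_insert, mem_singleton] at hy
        rcases hy with rfl | rfl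
        · simp
        · exact huM.2 u' huu hu'
      · simp only [htu, if_false] at hy
        rw [mem_insert] at ht
        exact s.gad.cls t (ht.resolve_left htu) y hy) (by
      intro y hy
      rw [hD s.P (Subset.refl _), sum_insert huP]
      have e : c u x + ∑ t ∈ s.P, c t x + y = (∑ t ∈ s.P, c t x + y) + c u x := by abel
      rw [e]
      exact add_mem_add (s.gad.gen y hy) (by simp))
    (kk.image (fun κ => insert u (s.Pk κ))) (by
      intro S hS
      rw [mem_image] at hS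
      obtain ⟨κ, _, rfl⟩ := hS
      exact insert_subset_insert _ (s.Pk_subset κ)) (by
      intro S hS S' hS'
      rw [mem_image] at hS hS'
      obtain ⟨κ, hκ, rfl⟩ := hS
      obtain ⟨κ', hκ', rfl⟩ := hS'
      rcases hnest κ hκ κ' hκ' with h | h
      · exact Or.inl (insert_subset_insert _ (s.Pk_mono h))
      · exact Or.inr (insert_subset_insert _ (s.Pk_mono h)))
  refine ⟨s', g1, ?_⟩
  intro κ hκ
  have hS : insert u (s.Pk κ) ∈ kk.image (fun κ => insert u (s.Pk κ)) :=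
    mem_image_of_mem _ hκ
  have h5 := g4 _ hS
  rw [hD _ (s.Pk_subset κ)] at h5
  refine h5.trans (tr_sum_mono ?_ _ ?_)
  · intro t ht
    rw [mem_inter] at ht
    rw [Str.Pk, mem_filter]
    refine ⟨ht.1, (g3 t ht.1).trans ?_⟩
    by_cases htu : t = u
    · simp only [htu, if_true]
      intro y hy
      rw [mem_insert, mem_singleton] at hy
      rcases hy with rfl | rfl
      · exact h1 κ hκ
      · exact h2 κ hκ
    · simp only [htu, if_false]
      have := ht.2
      rw [mem_insert] at this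
      exact (mem_filter.1 (this.resolve_left htu)).2
  · intro t ht
    exact s'.nonempty (s'.Pk_subset κ ht)

theorem arithM {k h : ℕ} (hk : 2 ≤ k) (hh : 2 ≤ h) : 2 * k + 2 * h ≤ k * h + 4 := by
  obtain ⟨a, rfl⟩ := Nat.exists_eq_add_of_le hk
  obtain ⟨b, rfl⟩ := Nat.exists_eq_add_of_le hh
  nlinarith [Nat.zero_le (a * b)]

theorem Str.P_card (s : Str c K x) : s.P.card + 1 ≤ (fs K).card := s.gad.trim_card s.two

theorem Str.Q_card (s : Str c K x) : s.Q.card ≤ (fs K).card := by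
  have h1 := s.small
  have h2 := s.gad.flex
  omega

theorem Str.PQ_card (s : Str c K x) : (s.Pᶜ \ s.Q).card + s.P.card + s.Q.card =
    Fintype.card V := by
  have h1 : s.Q ⊆ s.Pᶜ := by
    intro q hq
    rw [mem_compl]
    exact fun h => Finset.disjoint_left.1 s.gad.disj h hq
  have h2 := card_sdiff_add_card_eq_card h1
  have h3 := card_add_card_compl s.P
  omega

/-- The constant vertices are at least two. -/
theorem Str.M_card (s : Str c K x) (hV : Fintype.card V = Fintype.card G + 1)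
    (hk : 2 ≤ K.index) (hh : 2 ≤ (fs K).card)
    (hS2 : ((s.Pᶜ \ s.Q) \ s.M).card + 4 ≤ 2 * K.index) : 2 ≤ s.M.card := by
  have h1 := s.PQ_card
  have h2 := s.P_card
  have h3 := s.Q_card
  have h4 := index_mul_card_fs K
  have h5 := arithM hk hh
  have h6 := card_le_card_sdiff_add_card (s := s.Pᶜ \ s.Q) (t := s.M)
  omega

theorem Str.comp1 (s s' : Str c K x) {u : V} (hP : s'.P ⊆ insert u s.P) (hM : 2 ≤ s.M.card) :
    ∃ v ∈ s.M, v ∉ s'.P := by
  obtain ⟨v, hv, hvu⟩ := exists_mem_ne (by omega : 1 < s.M.card) u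
  refine ⟨v, hv, fun h => ?_⟩
  have := hP h
  rw [mem_insert] at this
  exact (Str.mem_M.1 hv).1.1 (this.resolve_left hvu)

theorem Str.comp2 (s s' : Str c K x) (hV : Fintype.card V = Fintype.card G + 1)
    (hk : 2 ≤ K.index) (hh : 2 ≤ (fs K).card)
    (hS2 : ((s'.Pᶜ \ s'.Q) \ s'.M).card + 4 ≤ 2 * K.index) {u : V}
    (hP : s'.P ⊆ insert u s.P) : ∃ w ∈ s'.M, w ∉ s.P := by
  by_contra hcon
  push Not at hcon
  have h2 := s.P_card
  have h3 := s'.Q_card
  have h4 := index_mul_card_fs K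
  have h5 := arithM hk hh
  have h7 := card_add_card_compl s.P
  have h8 : s.Pᶜ ⊆ insert u (s'.Q ∪ ((s'.Pᶜ \ s'.Q) \ s'.M)) := by
    intro v hv
    rw [mem_compl] at hv
    rw [mem_insert, mem_union, mem_sdiff, mem_sdiff, mem_compl]
    by_cases hvu : v = u
    · exact Or.inl hvu
    · right
      by_cases hvQ : v ∈ s'.Q
      · exact Or.inl hvQ
      · right
        refine ⟨⟨fun h => ?_, hvQ⟩, fun h => hv (hcon v h)⟩
        have := hP h
        rw [mem_insert] at this
        exact hv (this.resolve_left hvu)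
  have h9 := card_le_card h8
  have h10 := card_insert_le u (s'.Q ∪ ((s'.Pᶜ \ s'.Q) \ s'.M))
  have h11 := card_union_le s'.Q ((s'.Pᶜ \ s'.Q) \ s'.M)
  omega

/-- Comparison of the common classes of two structures. -/
theorem Str.comp_class (hs : ∀ a b, c a b = c b a) (s s' : Str c K x) {L : AddSubgroup G}
    {a a' : G} (h1 : s.Medges (cs L a)) (h2 : s'.Medges (cs L a'))
    (h3 : ∃ v ∈ s.M, v ∉ s'.P) (h4 : ∃ w ∈ s'.M, w ∉ s.P) : a' - a ∈ L := by
  obtain ⟨v, hv, hvP⟩ := h3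
  obtain ⟨w, hw, hwP⟩ := h4
  by_cases hvw : v = w
  · subst hvw
    have e1 := mem_cs.1 (h1 v hv x (Str.ne_x hv) s.x_notMem)
    have e2 := mem_cs.1 (h2 v hw x (Str.ne_x hw) s'.x_notMem)
    have := L.sub_mem e1 e2
    simpa using this
  · have e1 := mem_cs.1 (h1 v hv w (fun h => hvw h.symm) hwP)
    have e2 := mem_cs.1 (h2 w hw v hvw hvP)
    rw [hs w v] at e2
    have := L.sub_mem e1 e2
    simpa using this

theorem Str.medges_of_const (hs : ∀ a b, c a b = c b a) (s : Str c K x) {L : AddSubgroup G}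
    (h1 : ∀ u ∈ s.M, ∀ v, v ≠ u → v ∉ s.P → c u v - c u x ∈ L) {y : V} (hy : y ∈ s.M) :
    s.Medges (cs L (c y x)) := by
  intro u hu v hvu hvP
  rw [mem_cs]
  have e0 := h1 u hu v hvu hvP
  by_cases huy : u = y
  · subst huy; exact e0
  · have e1 := h1 u hu y (fun h => huy h.symm) (Str.mem_M.1 hy).1.1
    have e2 := h1 y hy u huy (Str.mem_M.1 hu).1.1
    rw [hs y u] at e2
    have := L.add_mem (L.sub_mem e0 e1) e2
    have e : c u v - c u x - (c u y - c u x) + (c u y - c y x) = c u v - c y x := by abel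
    rwa [e] at this

theorem Str.medges_mono (s : Str c K x) {κ κ' : Finset G} (h : κ ⊆ κ') (h1 : s.Medges κ) :
    s.Medges κ' := fun u hu v hvu hvP => h (h1 u hu v hvu hvP)

/-- A move from `s` to `s'`. -/
def Move (kk : Finset (Finset G)) (s s' : Str c K x) : Prop :=
  (∃ u, s'.P ⊆ insert u s.P) ∧ ∀ κ ∈ kk, Tr (s.X κ) (s'.X κ)


theorem exists_max {α : Type*} (P : α → Prop) (f : α → ℕ) (N : ℕ) (hN : ∀ a, P a → f a ≤ N)
    (hne : ∃ a, P a) : ∃ a, P a ∧ ∀ b, P b → f b ≤ f a := by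
  classical
  let R : ℕ → Prop := fun n => ∃ a, P a ∧ N - f a = n
  have hR : ∃ n, R n := by
    obtain ⟨a, ha⟩ := hne
    exact ⟨_, a, ha, rfl⟩
  obtain ⟨a, ha, hfa⟩ := Nat.find_spec hR
  refine ⟨a, ha, fun b hb => ?_⟩
  have h1 := Nat.find_min' hR ⟨b, hb, rfl⟩
  have h2 := hN a ha
  have h3 := hN b hb
  omega

theorem arithB {k l e : ℕ} (hk : 2 ≤ k) (hl : 2 ≤ l) (he : 1 ≤ e) :
    k * e + 2 * l + 2 * e ≤ k * e * l + 4 := by
  obtain ⟨k', rfl⟩ := Nat.exists_eq_add_of_le hk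
  obtain ⟨l', rfl⟩ := Nat.exists_eq_add_of_le hl
  obtain ⟨e', rfl⟩ := Nat.exists_eq_add_of_le he
  have : (2 + k') * (1 + e') * (2 + l') + 4 =
      ((2 + k') * (1 + e') + 2 * (2 + l') + 2 * (1 + e')) +
        (k' + k' * e' + 2 * e' * l' + k' * l' + k' * e' * l') := by ring
  omega

theorem two_le_fs_ne {L : AddSubgroup G} (hL : L ≠ ⊥) : 2 ≤ (fs L).card := by
  have h1 := fs_card_pos L
  have h2 : (fs L).card ≠ 1 := by
    intro h
    apply hL
    rw [AddSubgroup.eq_bot_iff_forall]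
    intro y hy
    exact card_le_one.1 h.le _ (mem_fs.2 hy) _ (mem_fs.2 L.zero_mem)
  omega

open Classical in
/-- **The stabiliser drops** -/
theorem drop (h : NZ c) (hs : ∀ a b, c a b = c b a)
    (hV : Fintype.card V = Fintype.card G + 1) (hk : 2 ≤ K.index) (hh : 2 ≤ (fs K).card)
    (hS2 : ∀ s : Str c K x, ((s.Pᶜ \ s.Q) \ s.M).card + 4 ≤ 2 * K.index)
    (L : AddSubgroup G) (a : G) (hLK : L ≤ K) (hL : L ≠ ⊥) (s0 s' : Str c K x)
    (hst : stab (s0.X (cs L a)) = L) (hSG : s'.SG) (hM : s'.Medges (cs L a))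
    (q1 : ∀ t ∈ s'.P ∩ s0.Pk (cs L a), s'.A t ⊆ cs L a)
    (q2 : Tr (s0.X (cs L a)) (∑ t ∈ s'.P ∩ s0.Pk (cs L a), s'.A t))
    (q4 : (s0.X (cs L a)).card + (fs L).card *
      ∑ t ∈ s'.P \ s0.Pk (cs L a), ((s'.A t).card - 1) ≤ (fs K).card) : False := by
  set κ := cs L a with hκ
  set D := s'.P ∩ s0.Pk κ with hD
  have hDP : D ⊆ s'.P := inter_subset_left
  have hX0 : (fs L).card ≤ (s0.X κ).card := by
    obtain ⟨z, hz⟩ := s0.X_nonempty κ
    apply card_le_card_of_injOn (fun l => l + z)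
    · intro l hl
      rw [mem_coe, mem_fs] at hl
      rw [← hst] at hl
      exact (hl z).2 hz
    · intro y _ w _ hyw
      exact add_right_cancel hyw
  have hX1 : (s0.X κ).card ≤ (fs L).card := by
    rw [← cs_card L ((s0.Pk κ).card • a)]
    exact card_le_card (sum_cs _ _ _ _ (fun t ht => (mem_filter.1 ht).2))
  have hDsub : ∑ t ∈ D, s'.A t ⊆ cs L (D.card • a) := sum_cs D _ L a q1
  have hDle := q2.card_le
  have hDeq : ∑ t ∈ D, s'.A t = cs L (D.card • a) := by
    apply eq_of_subset_of_card_le hDsub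
    rw [cs_card]; omega
  have hAL : ∀ y ∈ L, D.card • a + y ∈ ∑ t ∈ D, s'.A t := by
    intro y hy
    rw [hDeq, mem_cs]
    simpa using hy
  obtain ⟨y, hy⟩ : s'.M.Nonempty := card_pos.1 (by
    have := s'.M_card hV hk hh (hS2 s'); omega)
  have hyM := Str.mem_M.1 hy
  have hdis : Disjoint (insert y s'.Q) D := by
    rw [disjoint_insert_left]
    exact ⟨fun h => hyM.1.1 (hDP h), (Finset.disjoint_of_subset_left hDP s'.gad.disj).symm⟩
  have hz := zplus h hV (insert_nonempty y s'.Q) hdis (A := s'.A) (fun d hd =>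
    (s'.gad.sub d (hDP hd)).trans (S_mono (subset_insert _ _) d)) a hAL
  have hsub : s'.Pᶜ \ insert y s'.Q ⊆
      (((insert y s'.Q) ∪ D)ᶜ).filter (fun b => ∃ z ∈ S c (insert y s'.Q) b, z - a ∈ L) := by
    intro v hv
    rw [mem_sdiff, mem_compl] at hv
    rw [mem_filter, mem_compl, mem_union, not_or]
    refine ⟨⟨hv.2, fun h => hv.1 (hDP h)⟩, c v y, ?_, ?_⟩
    · rw [mem_S]
      exact ⟨y, mem_insert_self _ _, rfl⟩
    · rw [hs v y]
      refine mem_cs.1 (hM y hy v ?_ hv.1)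
      rintro rfl
      exact hv.2 (mem_insert_self _ _)
  have e1 := card_le_card hsub
  have e2 := card_le_card_sdiff_add_card (s := s'.Pᶜ) (t := insert y s'.Q)
  have e3 := card_insert_le y s'.Q
  have e4 := card_add_card_compl s'.P
  have e5 := s'.small
  have e6 : s'.P.card ≤ ∑ t ∈ s'.P, ((s'.A t).card - 1) := by
    rw [card_eq_sum_ones]
    apply sum_le_sum
    intro t ht
    have := s'.two t ht
    omega
  have e7 := hSG D hDP
  rw [hDeq, cs_card] at e7
  have e8 : ∑ t ∈ s'.P, ((s'.A t).card - 1) =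
      ∑ t ∈ s'.P \ s0.Pk κ, ((s'.A t).card - 1) + ∑ t ∈ D, ((s'.A t).card - 1) := by
    rw [hD, ← sum_sdiff (inter_subset_left : s'.P ∩ s0.Pk κ ⊆ s'.P), sdiff_inter_self_left]
  set F' := ∑ t ∈ s'.P \ s0.Pk κ, ((s'.A t).card - 1) with hF'
  have e9 := relIndex_mul_fs L K hLK
  have e10 := index_mul L K hLK
  have e11 := index_mul_card_fs K
  have hl := two_le_fs_ne hL
  have e12 : F' + 1 ≤ L.relIndex K := by
    have : (fs L).card * (F' + 1) ≤ (fs L).card * L.relIndex K := by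
      rw [mul_comm _ (L.relIndex K), e9, mul_add, mul_one]
      omega
    exact Nat.le_of_mul_le_mul_left this (by omega)
  have e13 := arithB hk hl (by omega : 1 ≤ L.relIndex K)
  have e14 : K.index * L.relIndex K * (fs L).card = Fintype.card G := by
    rw [mul_assoc, e9, e11]
  rw [mul_comm (L.relIndex K) K.index] at e10
  omega

theorem descent_aux (h : NZ c) (hs : ∀ a b, c a b = c b a)
    (hV : Fintype.card V = Fintype.card G + 1) (hk : 2 ≤ K.index) (hh : 2 ≤ (fs K).card)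
    (hS2 : ∀ s : Str c K x, ((s.Pᶜ \ s.Q) \ s.M).card + 4 ≤ 2 * K.index) :
    ∀ (n : ℕ) (L : AddSubgroup G) (a : G) (kk : Finset (Finset G)) (CC : Str c K x → Prop),
      (fs L).card ≤ n → L ≤ K → (∀ κ ∈ kk, ∀ κ' ∈ kk, κ ⊆ κ' ∨ κ' ⊆ κ) →
      (∀ κ ∈ kk, cs L a ⊆ κ) → (∃ s, CC s) → (∀ s, CC s → s.Medges (cs L a)) →
      (∀ s s', CC s → Move kk s s' → CC s') →
      ∃ (s : Str c K x) (a' : G), s.Medges {a'} ∧ s.SG := by
  intro n
  induction n with
  | zero =>
    intro L a kk CC hn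
    have := fs_card_pos L
    omega
  | succ n ih =>
    intro L a kk CC hn hLK hnest hκ hne hM hmove
    by_cases hL : L = ⊥
    · subst hL
      obtain ⟨s, hCs⟩ := hne
      obtain ⟨s', g1, g2, g3⟩ := reselect s kk hnest
      refine ⟨s', a, ?_, g2⟩
      rw [← cs_bot]
      exact hM s' (hmove s s' hCs ⟨⟨x, g1.trans (subset_insert _ _)⟩,
        fun κ hκ' => (g3 κ hκ').2.2.1⟩)
    · have hnest' : ∀ κ ∈ insert (cs L a) kk, ∀ κ' ∈ insert (cs L a) kk, κ ⊆ κ' ∨ κ' ⊆ κ := by
        intro κ h1 κ' h2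
        rw [mem_insert] at h1 h2
        rcases h1 with rfl | h1
        · rcases h2 with rfl | h2
          · exact Or.inl (Subset.refl _)
          · exact Or.inl (hκ κ' h2)
        · rcases h2 with rfl | h2
          · exact Or.inr (hκ κ h1)
          · exact hnest κ h1 κ' h2
      obtain ⟨s0, hs0, hmax⟩ := exists_max CC (fun s => (s.X (cs L a)).card) (Fintype.card G)
        (fun s _ => card_le_univ _) hne
      -- (a)
      have ha : ∀ s, CC s → (s.X (cs L a)).card = (s0.X (cs L a)).card →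
          ∀ u ∈ s.M, ∀ v, v ≠ u → v ∉ s.P → c u v - c u x ∈ stab (s.X (cs L a)) := by
        intro s hCs hN u hu v hvu hvP
        have hMs := hM s hCs
        have hx := hMs u hu x (Str.ne_x hu) s.x_notMem
        have hv := hMs u hu v hvu hvP
        obtain ⟨s', g1, g2⟩ := addLeaf s (insert (cs L a) kk) hnest' hu hvu hvP (by
          intro κ h1
          rw [mem_insert] at h1
          rcases h1 with rfl | h1
          · exact hx
          · exact hκ κ h1 hx) (by
          intro κ h1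
          rw [mem_insert] at h1
          rcases h1 with rfl | h1
          · exact hv
          · exact hκ κ h1 hv)
        have hC' : CC s' := hmove s s' hCs ⟨⟨u, g1⟩, fun κ' hκ' =>
          Tr.trans ⟨c u x, fun y hy => add_mem_add hy (by simp)⟩
            (g2 κ' (mem_insert_of_mem hκ'))⟩
        have e1 := (g2 _ (mem_insert_self _ _)).card_le
        have e2 := hmax s' hC'
        exact sub_mem_stab (by omega)
      set L' := stab (s0.X (cs L a)) with hL'
      have hL'L : L' ≤ L := stab_le_of_cs (s0.X_nonempty _)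
        (sum_cs _ _ _ _ (fun t ht => (mem_filter.1 ht).2))
      -- (b)
      have hb : L' ≠ L := by
        intro heq
        obtain ⟨s', g1, g2, g3⟩ := reselect s0 (insert (cs L a) kk) hnest'
        obtain ⟨q1, q2, q3, q4⟩ := g3 _ (mem_insert_self _ _)
        have hC' : CC s' := hmove s0 s' hs0 ⟨⟨x, g1.trans (subset_insert _ _)⟩,
          fun κ' hκ' => (g3 κ' (mem_insert_of_mem hκ')).2.2.1⟩
        exact drop h hs hV hk hh hS2 L a hLK hL s0 s' heq g2 (hM s' hC') q1 q2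
          (q4 L heq.ge)
      have hlt : (fs L').card < (fs L).card := by
        apply card_lt_card
        rw [Finset.ssubset_iff_subset_ne]
        refine ⟨fun y hy => mem_fs.2 (hL'L (mem_fs.1 hy)), fun heq => hb ?_⟩
        apply le_antisymm hL'L
        intro y hy
        have := mem_fs.2 hy
        rw [← heq] at this
        exact mem_fs.1 this
      obtain ⟨y, hy⟩ : s0.M.Nonempty := card_pos.1 (by
        have := s0.M_card hV hk hh (hS2 s0); omega)
      have hM0 : s0.Medges (cs L' (c y x)) :=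
        s0.medges_of_const hs (ha s0 hs0 rfl) hy
      refine ih L' (c y x) (insert (cs L a) kk)
        (fun s => CC s ∧ (s.X (cs L a)).card = (s0.X (cs L a)).card ∧
          stab (s.X (cs L a)) = L' ∧ s.Medges (cs L' (c y x))) (by omega)
        (hL'L.trans hLK) hnest' ?_ ⟨s0, hs0, rfl, rfl, hM0⟩ (fun s hs1 => hs1.2.2.2) ?_
      · have hsub : cs L' (c y x) ⊆ cs L a :=
          cs_mono hL'L (hM s0 hs0 y hy x (Str.ne_x hy) s0.x_notMem)
        intro κ h1
        rw [mem_insert] at h1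
        rcases h1 with rfl | h1
        · exact hsub
        · exact hsub.trans (hκ κ h1)
      · rintro s s' ⟨hC, hN, hst, hMe⟩ ⟨⟨u, hP⟩, hTr⟩
        have hC' : CC s' := hmove s s' hC ⟨⟨u, hP⟩, fun κ' h => hTr κ' (mem_insert_of_mem h)⟩
        have hTrκ := hTr _ (mem_insert_self _ _)
        have e1 := hTrκ.card_le
        have e2 := hmax s' hC'
        have hN' : (s'.X (cs L a)).card = (s0.X (cs L a)).card := by omega
        have hst' : stab (s'.X (cs L a)) = L' := (hTrκ.stab_eq (by omega)).trans hst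
        refine ⟨hC', hN', hst', ?_⟩
        obtain ⟨y', hy'⟩ : s'.M.Nonempty := card_pos.1 (by
          have := s'.M_card hV hk hh (hS2 s'); omega)
        have ha' := ha s' hC' hN'
        rw [hst'] at ha'
        have hM' := s'.medges_of_const hs ha' hy'
        have h3 := s.comp1 s' hP (s.M_card hV hk hh (hS2 s))
        have h4 := s.comp2 s' hV hk hh (hS2 s') hP
        have h5 := Str.comp_class hs s s' hMe hM' h3 h4
        exact s'.medges_mono (cs_mono le_rfl (mem_cs.2 h5)) hM'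

/-- **Descent.** There is a structure with growing subfamily sums all of whose constant vertices
are exactly constant, with a common value. -/
theorem exists_exact (h : NZ c) (hs : ∀ a b, c a b = c b a)
    (hV : Fintype.card V = Fintype.card G + 1) (hk : 2 ≤ K.index) (hh : 2 ≤ (fs K).card)
    (hS2 : ∀ s : Str c K x, ((s.Pᶜ \ s.Q) \ s.M).card + 4 ≤ 2 * K.index)
    (s0 : Str c K x) :
    ∃ (s : Str c K x) (a : G), s.Medges {a} ∧ s.SG := by
  have hconst : ∀ s : Str c K x, ∀ u ∈ s.M, ∀ v, v ≠ u → v ∉ s.P → c u v - c u x ∈ K :=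
    fun s u hu v hvu hvP => (Str.mem_M.1 hu).2 v hvu hvP
  obtain ⟨y, hy⟩ : s0.M.Nonempty := card_pos.1 (by
    have := s0.M_card hV hk hh (hS2 s0); omega)
  refine descent_aux h hs hV hk hh hS2 _ K (c y x) ∅ (fun s => s.Medges (cs K (c y x))) le_rfl
    le_rfl (by simp) (by simp) ⟨s0, s0.medges_of_const hs (hconst s0) hy⟩ (fun s hs1 => hs1) ?_
  rintro s s' hMe ⟨⟨u, hP⟩, -⟩
  obtain ⟨y', hy'⟩ : s'.M.Nonempty := card_pos.1 (by
    have := s'.M_card hV hk hh (hS2 s'); omega)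
  have hM' := s'.medges_of_const hs (hconst s') hy'
  have h3 := s.comp1 s' hP (s.M_card hV hk hh (hS2 s))
  have h4 := s.comp2 s' hV hk hh (hS2 s') hP
  have h5 := Str.comp_class hs s s' hMe hM' h3 h4
  exact s'.medges_mono (cs_mono le_rfl (mem_cs.2 h5)) hM'

theorem exists_str (hG : HasGadget c K x) : Nonempty (Str c K x) := by
  obtain ⟨P, Q, A, hG⟩ := hG
  obtain ⟨s, -⟩ := build (D := A) hG.disj hG.mem hG.sub hG.base hG.cls hG.gen ∅ (by simp)
    (by simp)
  exact ⟨s⟩

end Structures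

end Pool.Agent.Lib.MP_12e153_co.Comp
end

section

/-!
# The domination lemma (DL)
-/

set_option autoImplicit false

open Finset

namespace Pool.Agent.Lib.MP_12e153_co.Comp

variable {V : Type*} [DecidableEq V]

open Classical in
/-- **DL.** -/
theorem dl {α : Type*} (c : V → V → α) (hs : ∀ a b, c a b = c b a) (U C₁ N : Finset V)
    (hC₁ : C₁.Nonempty) (hCU : C₁ ⊆ U) (hN : N ⊆ U \ C₁) (f : ℕ)
    (hf : ∀ C, C₁ ⊆ C → C ⊆ U →
      ((N \ C).filter fun v => ∃ u ∈ C, ∃ u' ∈ C, c v u ≠ c v u').card ≤ f)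
    (hcard : 2 * f + 2 ≤ N.card) :
    (N.filter fun v => ∃ u ∈ U.erase v, ∃ u' ∈ U.erase v, c v u ≠ c v u').card ≤ 2 * f := by
  obtain ⟨q, hq⟩ := hC₁
  have hqU : q ∈ U := hCU hq
  have hqN : q ∉ N := fun h => (mem_sdiff.1 (hN h)).2 hq
  by_contra hcon
  push Not at hcon
  set N' := N.filter fun v => ∃ u ∈ U.erase v, ∃ u' ∈ U.erase v, c v u ≠ c v u' with hN'
  have hN'N : N' ⊆ N := filter_subset _ _
  have hNU : ∀ v ∈ N, v ∈ U := fun v hv => (mem_sdiff.1 (hN hv)).1
  have hqN' : q ∉ N' := fun h => hqN (hN'N h)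
  set Fr := N'.filter fun v => ∃ u ∈ U \ N', c v u ≠ c v q with hFr
  let E : V → V → Prop := fun v w => v ≠ w ∧ c v w ≠ c v q
  have hirr : ∀ v, ¬ E v v := fun v h => h.1 rfl
  have h1 : ∀ v ∈ N', v ∉ Fr → ∃ w ∈ N', E v w := by
    intro v hv hvF
    have hconst : ∀ u ∈ U \ N', c v u = c v q := by
      intro u hu
      by_contra hne
      exact hvF (mem_filter.2 ⟨hv, u, hu, hne⟩)
    obtain ⟨u, hu, u', hu', hne⟩ := (mem_filter.1 hv).2
    obtain ⟨w, hw, hwne⟩ : ∃ w ∈ U.erase v, c v w ≠ c v q := by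
      by_cases h : c v u = c v q
      · exact ⟨u', hu', fun h' => hne (h.trans h'.symm)⟩
      · exact ⟨u, hu, h⟩
    rw [mem_erase] at hw
    have hwN : w ∈ N' := by
      by_contra hwN
      exact hwne (hconst w (mem_sdiff.2 ⟨hw.2, hwN⟩))
    exact ⟨w, hwN, hw.1.symm, hwne⟩
  -- the count for a 2-colouring
  have hsat : ∀ D : Finset V, N'.card ≤ (N'.filter (fun v => ¬ (v ∈ Fr ∨ ∃ w ∈ N', E v w ∧
      ¬ (v ∈ D ↔ w ∈ D)))).card + 2 * f := by
    intro D
    -- satisfied vertices in a part R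
    have key : ∀ R ⊆ N', (∀ w ∈ N', ∀ v ∈ R, ¬ (v ∈ D ↔ w ∈ D) → w ∉ R) →
        (R.filter (fun v => v ∈ Fr ∨ ∃ w ∈ N', E v w ∧ ¬ (v ∈ D ↔ w ∈ D))).card ≤ f := by
      intro R hR hopp
      have hC1 : C₁ ⊆ U \ R := by
        intro x hx
        rw [mem_sdiff]
        exact ⟨hCU hx, fun h => (mem_sdiff.1 (hN (hN'N (hR h)))).2 hx⟩
      refine le_trans (card_le_card ?_) (hf (U \ R) hC1 sdiff_subset)
      intro v hv
      rw [mem_filter] at hv ⊢
      obtain ⟨hvR, hv⟩ := hv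
      refine ⟨mem_sdiff.2 ⟨hN'N (hR hvR), fun h => (mem_sdiff.1 h).2 hvR⟩, ?_⟩
      have hqR : q ∈ U \ R := mem_sdiff.2 ⟨hqU, fun h => hqN' (hR h)⟩
      rcases hv with hv | ⟨w, hw, hE, hc⟩
      · obtain ⟨u, hu, hne⟩ := (mem_filter.1 hv).2
        rw [mem_sdiff] at hu
        exact ⟨u, mem_sdiff.2 ⟨hu.1, fun h => hu.2 (hR h)⟩, q, hqR, hne⟩
      · exact ⟨w, mem_sdiff.2 ⟨hNU w (hN'N hw), hopp w hw v hvR hc⟩, q, hqR, hE.2⟩
    have k1 := key (N' ∩ D) inter_subset_left (by
      intro w _ v hv hc hw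
      rw [mem_inter] at hv hw
      exact hc ⟨fun _ => hw.2, fun _ => hv.2⟩)
    have k2 := key (N' \ D) sdiff_subset (by
      intro w _ v hv hc hw
      rw [mem_sdiff] at hv hw
      exact hc ⟨fun h => absurd h hv.2, fun h => absurd h hw.2⟩)
    have e1 := Finset.card_filter_add_card_filter_not (s := N')
      (fun v => v ∈ Fr ∨ ∃ w ∈ N', E v w ∧ ¬ (v ∈ D ↔ w ∈ D))
    have e2 : (N'.filter (fun v => v ∈ Fr ∨ ∃ w ∈ N', E v w ∧ ¬ (v ∈ D ↔ w ∈ D))).card ≤
        ((N' ∩ D).filter (fun v => v ∈ Fr ∨ ∃ w ∈ N', E v w ∧ ¬ (v ∈ D ↔ w ∈ D))).card +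
        ((N' \ D).filter (fun v => v ∈ Fr ∨ ∃ w ∈ N', E v w ∧ ¬ (v ∈ D ↔ w ∈ D))).card := by
      refine le_trans (card_le_card ?_) (card_union_le _ _)
      intro v hv
      rw [mem_filter] at hv
      by_cases h : v ∈ D
      · exact mem_union_left _ (mem_filter.2 ⟨mem_inter.2 ⟨hv.1, h⟩, hv.2⟩)
      · exact mem_union_right _ (mem_filter.2 ⟨mem_sdiff.2 ⟨hv.1, h⟩, hv.2⟩)
    omega
  by_cases hNN : N ⊆ N'
  · -- one unsatisfied vertex is allowed
    have hle := card_le_card hNN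
    have h2 : ∀ v ∈ N', v ∉ Fr → ∀ w ∈ N', w ∉ Fr → c v q = c w q → E v w → E w v := by
      intro v _ _ w _ _ ha hE
      refine ⟨hE.1.symm, ?_⟩
      rw [← ha, hs w v]
      exact hE.2
    have h3 : ∀ v ∈ N', v ∉ Fr → ∀ w ∈ N', w ∉ Fr → c v q ≠ c w q → E v w ∨ E w v := by
      intro v _ _ w _ _ ha
      have hvw : v ≠ w := fun h => ha (by rw [h])
      by_cases h : c v w = c v q
      · refine Or.inr ⟨hvw.symm, ?_⟩
        rw [hs w v, h]; exact ha
      · exact Or.inl ⟨hvw, h⟩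
    obtain ⟨D, hD⟩ := exists_split N' Fr (fun v => c v q) E hirr h1 h2 h3
    have h6 := hsat D
    have h7 : (N'.filter (fun v => ¬ (v ∈ Fr ∨ ∃ w ∈ N', E v w ∧
      ¬ (v ∈ D ↔ w ∈ D)))).card ≤ 1 := by
      refine le_trans (le_of_eq ?_) hD
      congr
    omega
  · obtain ⟨y, hyN, hyN'⟩ := Finset.not_subset.1 hNN
    have hyU := hNU y hyN
    have hyc : ∀ u ∈ U.erase y, ∀ u' ∈ U.erase y, c y u = c y u' := by
      intro u hu u' hu'
      by_contra hne
      exact hyN' (mem_filter.2 ⟨hyN, u, hu, u', hu', hne⟩)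
    have hyq : y ≠ q := fun h => hqN (h ▸ hyN)
    have hallq : ∀ v ∈ N', v ∉ Fr → c v q = c y q := by
      intro v hv hvF
      have hvy : v ≠ y := fun h => hyN' (h ▸ hv)
      have e1 : c v y = c v q := by
        by_contra hne
        exact hvF (mem_filter.2 ⟨hv, y, mem_sdiff.2 ⟨hyU, hyN'⟩, hne⟩)
      rw [← e1, hs v y]
      exact hyc v (mem_erase.2 ⟨hvy, hNU v (hN'N hv)⟩) q (mem_erase.2 ⟨hyq.symm, hqU⟩)
    obtain ⟨D, -, hD⟩ := exists_cut N' (N' \ Fr) sdiff_subset E hirr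
      (fun v hv => h1 v (mem_sdiff.1 hv).1 (mem_sdiff.1 hv).2) (by
        intro v hv w hw hE
        rw [mem_sdiff] at hv hw
        refine ⟨hE.1.symm, ?_⟩
        rw [hallq w hw.1 hw.2, ← hallq v hv.1 hv.2, hs w v]
        exact hE.2)
    have h4 := hsat D
    have h5 : (N'.filter (fun v => ¬ (v ∈ Fr ∨ ∃ w ∈ N', E v w ∧ ¬ (v ∈ D ↔ w ∈ D)))) = ∅ := by
      rw [Finset.filter_eq_empty_iff]
      intro v hv hn
      apply hn
      by_cases hvF : v ∈ Fr
      · exact Or.inl hvF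
      · exact Or.inr (hD v (mem_sdiff.2 ⟨hv, hvF⟩))
    rw [h5, card_empty] at h4
    omega

end Pool.Agent.Lib.MP_12e153_co.Comp
end

section

/-!
# Structure around a gadget for a maximal subgroup
-/

set_option autoImplicit false
set_option linter.unusedSectionVars false

open Finset
open scoped Pointwise

namespace Pool.Agent.Lib.MP_12e153_co.Comp

open Pool.Agent.Kneser Pool.Agent.Lib.MP_12e153_co

variable {V : Type*} [Fintype V] [DecidableEq V]
variable {G : Type*} [AddCommGroup G] [Fintype G] [DecidableEq G]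
variable {c : V → V → G}

/-- numbers: `|J| [G:J] = |G|` -/
theorem fs_mul_index' (J : AddSubgroup G) : (fs J).card * J.index = Fintype.card G := by
  rw [mul_comm]; exact index_mul_card_fs J

theorem two_le_fs' {J : AddSubgroup G} (h : ⊥ < J) : 2 ≤ (fs J).card := by
  rw [← relIndex_bot']
  exact two_le_relIndex h

open Classical in
/-- Shrink the middle set of a gadget to at most `|L|` vertices. -/
theorem Gadget.shrink {L : AddSubgroup G} {P Q : Finset V} {q : V} {A : V → Finset G}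
    (h : Gadget c L P Q q A) : ∃ Q' ⊆ Q, Gadget c L P Q' q A ∧ Q'.card ≤ (fs L).card := by
  have : ∀ b : V, ∀ x : G, ∃ u : V, b ∈ P → x ∈ A b → u ∈ Q ∧ c b u = x := by
    intro b x
    by_cases hb : b ∈ P
    · by_cases hx : x ∈ A b
      · obtain ⟨u, hu, hux⟩ := mem_S.1 (h.sub b hb hx)
        exact ⟨u, fun _ _ => ⟨hu, hux⟩⟩
      · exact ⟨b, fun _ h => absurd h hx⟩
    · exact ⟨b, fun h => absurd h hb⟩
  choose φ hφ using this
  set Q' := insert q (P.biUnion (fun b => ((A b).erase (c b q)).image (φ b))) with hQ'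
  have hsub : Q' ⊆ Q := by
    intro u hu
    rw [hQ', mem_insert, mem_biUnion] at hu
    rcases hu with rfl | ⟨b, hb, hu⟩
    · exact h.mem
    · rw [mem_image] at hu
      obtain ⟨x, hx, rfl⟩ := hu
      exact (hφ b x hb (mem_erase.1 hx).2).1
  refine ⟨Q', hsub, ⟨?_, mem_insert_self _ _, ?_, h.base, h.cls, h.gen, h.flex⟩, ?_⟩
  · exact Finset.disjoint_of_subset_right hsub h.disj
  · intro b hb x hx
    rw [mem_S]
    by_cases hxq : x = c b q
    · exact ⟨q, mem_insert_self _ _, hxq.symm⟩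
    · refine ⟨φ b x, ?_, (hφ b x hb hx).2⟩
      rw [hQ', mem_insert, mem_biUnion]
      exact Or.inr ⟨b, hb, mem_image_of_mem _ (mem_erase.2 ⟨hxq, hx⟩)⟩
  · refine le_trans ?_ h.flex
    refine (card_insert_le _ _).trans ?_
    apply Nat.add_le_add_right
    refine card_biUnion_le.trans ?_
    apply Finset.sum_le_sum
    intro b hb
    refine card_image_le.trans ?_
    rw [card_erase_of_mem (h.base b hb)]

/-- A gadget with few leaves and a small middle set. -/
theorem HasGadget.small {L : AddSubgroup G} {q : V} (h : HasGadget c L q) :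
    ∃ P Q A, Gadget c L P Q q A ∧ P.card + 1 ≤ (fs L).card ∧ Q.card ≤ (fs L).card ∧
      ∀ b ∈ P, 2 ≤ (A b).card := by
  obtain ⟨P, Q, A, hG⟩ := h
  obtain ⟨Q', _, hG', hQ'⟩ := hG.trim.shrink
  exact ⟨_, _, _, hG', hG'.trim_card (fun b hb => (mem_filter.1 hb).2), hQ',
    fun b hb => (mem_filter.1 hb).2⟩

theorem qim_one_of_const {K : AddSubgroup G} {X : Finset G} {x : G}
    (h : ∀ y ∈ X, y - x ∈ K) : (qim K X).card ≤ 1 := by
  rw [card_le_one]
  intro a ha b hb
  rw [mem_qim] at ha hb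
  obtain ⟨y, hy, rfl⟩ := ha
  obtain ⟨z, hz, rfl⟩ := hb
  rw [QuotientAddGroup.eq]
  have : -y + z = (z - x) - (y - x) := by abel
  rw [this]
  exact K.sub_mem (h z hz) (h y hy)

theorem quot_ne_iff (K : AddSubgroup G) (x y : G) : ((x : G ⧸ K) ≠ (y : G ⧸ K)) ↔ x - y ∉ K := by
  rw [ne_eq, QuotientAddGroup.eq, not_iff_not]
  constructor
  · intro h
    have : x - y = -(-x + y) := by abel
    rw [this]; exact K.neg_mem h
  · intro h
    have : -x + y = -(x - y) := by abel
    rw [this]; exact K.neg_mem h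

open Classical in
/-- The number of vertices outside `C ∪ P` nonconstant mod `K` on `C` is at most `k - 2`. -/
theorem Gadget.nonconst (h : NZ c) {K : AddSubgroup G} {P Q : Finset V}
    {q : V} {A : V → Finset G} (hG : Gadget c K P Q q A)
    (hmax : ∀ K' : AddSubgroup G, K < K' → ¬ HasGadget c K' q)
    {C : Finset V} (hQC : Q ⊆ C) (hPC : Disjoint P C) :
    (((C ∪ P)ᶜ).filter (fun v => ∃ u ∈ C, ∃ u' ∈ C, c v u - c v u' ∉ K)).card + 2
      ≤ K.index := by
  have h1 := hG.saturated h hmax hQC hPC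
  have hCne : C.Nonempty := ⟨q, hQC hG.mem⟩
  have h2 : 1 ≤ (qim K (B c C)).card := qim_pos (B_nonempty hCne)
  have h3 : (((C ∪ P)ᶜ).filter
      (fun v => ∃ u ∈ C, ∃ u' ∈ C, c v u - c v u' ∉ K)).card ≤
      ∑ v ∈ (C ∪ P)ᶜ, ((qim K (S c C v)).card - 1) := by
    rw [Finset.card_filter]
    apply Finset.sum_le_sum
    intro v _
    split_ifs with hx
    · obtain ⟨u, hu, u', hu', hne⟩ := hx
      rw [← quot_ne_iff] at hne
      have : 1 < (qim K (S c C v)).card :=
        one_lt_card.2 ⟨_, mem_qim.2 ⟨c v u, mem_S.2 ⟨u, hu, rfl⟩, rfl⟩,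
          _, mem_qim.2 ⟨c v u', mem_S.2 ⟨u', hu', rfl⟩, rfl⟩, hne⟩
      omega
    · omega
  omega

theorem count_aux {h k z n Q m : ℕ} (hh : 2 ≤ h) (hk : 2 ≤ k) (hm : h * k = m) (hP : z + 1 ≤ h)
    (hQ : Q ≤ h) (hn : n + Q = m + 1 - z) : 2 * (k - 2) + 2 ≤ n := by
  obtain ⟨k', rfl⟩ := Nat.exists_eq_add_of_le hk
  have h5 : h * (2 + k') = 2 * h + h * k' := by ring
  have h6 : 2 * k' ≤ h * k' := Nat.mul_le_mul_right _ hh
  omega

/-- dl for the classes of a subgroup -/
theorem dlK (c : V → V → G) (hs : ∀ a b, c a b = c b a) (K : AddSubgroup G) (U C₁ N : Finset V)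
    (hC₁ : C₁.Nonempty) (hCU : C₁ ⊆ U) (hN : N ⊆ U \ C₁) (f : ℕ)
    (hf : ∀ C, C₁ ⊆ C → C ⊆ U → ∀ Y : Finset V, Y ⊆ N \ C →
      (∀ v ∈ Y, ∃ u ∈ C, ∃ u' ∈ C, c v u - c v u' ∉ K) → Y.card ≤ f)
    (hcard : 2 * f + 2 ≤ N.card) (Y : Finset V) (hY : Y ⊆ N)
    (hYn : ∀ v ∈ Y, ∃ u ∈ U.erase v, ∃ u' ∈ U.erase v, c v u - c v u' ∉ K) :
    Y.card ≤ 2 * f := by
  classical
  have key : ∀ (α : Type _) (π : G → α), (∀ x y, π x ≠ π y ↔ x - y ∉ K) → Y.card ≤ 2 * f := by
    intro α π hπ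
    have h1 := dl (fun v u => π (c v u)) (fun a b => by rw [hs a b]) U C₁ N hC₁ hCU hN f (by
      intro C h1 h2
      apply hf C h1 h2
      · exact filter_subset _ _
      · intro v hv
        obtain ⟨u, hu, u', hu', hne⟩ := (mem_filter.1 hv).2
        exact ⟨u, hu, u', hu', (hπ _ _).1 hne⟩) hcard
    refine le_trans (card_le_card ?_) h1
    intro v hv
    obtain ⟨u, hu, u', hu', hne⟩ := hYn v hv
    exact mem_filter.2 ⟨hY hv, u, hu, u', hu', (hπ _ _).2 hne⟩
  exact key (G ⧸ K) (fun x => (x : G ⧸ K)) (fun x y => quot_ne_iff K x y)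

/-- **(S2).** At most `2 (k - 2)` vertices of `U \ Q` are nonconstant mod `K` on `U = V \ P`. -/
theorem Gadget.S2 (h : NZ c) (hs : ∀ u v, c u v = c v u) (hV : Fintype.card V = Fintype.card G + 1)
    {K : AddSubgroup G} {P Q : Finset V}
    {q : V} {A : V → Finset G} (hG : Gadget c K P Q q A) (hK : ⊥ < K)
    (hmax : ∀ K' : AddSubgroup G, K < K' → ¬ HasGadget c K' q)
    (hP : P.card + 1 ≤ (fs K).card) (hQ : Q.card ≤ (fs K).card)
    (Y : Finset V) (hY : Y ⊆ Pᶜ \ Q)
    (hYn : ∀ v ∈ Y, ∃ u ∈ (Pᶜ).erase v, ∃ u' ∈ (Pᶜ).erase v, c v u - c v u' ∉ K) :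
    Y.card ≤ 2 * (K.index - 2) := by
  classical
  have hidx : 2 ≤ K.index := by
    have := hG.nonconst h hmax (Finset.Subset.refl Q) hG.disj
    omega
  have hQP : Q ⊆ Pᶜ := by
    intro x hx
    rw [mem_compl]
    exact fun hxP => Finset.disjoint_left.1 hG.disj hxP hx
  have h1 : (Pᶜ \ Q).card + Q.card = (Pᶜ).card := card_sdiff_add_card_eq_card hQP
  have h2 := card_add_card_compl P
  have hcount : 2 * (K.index - 2) + 2 ≤ (Pᶜ \ Q).card :=
    count_aux (two_le_fs' hK) hidx (fs_mul_index' K) hP hQ (by omega)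
  refine dlK c hs K (Pᶜ) Q (Pᶜ \ Q) ⟨q, hG.mem⟩ hQP (Finset.Subset.refl _) (K.index - 2) ?_
    hcount Y hY hYn
  intro C hQC hCP Z hZ hZn
  have h1 := hG.nonconst h hmax hQC (by
    rw [Finset.disjoint_left]
    intro x hx hxC
    exact (mem_compl.1 (hCP hxC)) hx)
  have h3 : Z.card ≤ (((C ∪ P)ᶜ).filter
      (fun v => ∃ u ∈ C, ∃ u' ∈ C, c v u - c v u' ∉ K)).card := by
    apply card_le_card
    intro v hv
    refine mem_filter.2 ⟨?_, hZn v hv⟩
    have := hZ hv
    simp only [mem_sdiff, mem_compl, mem_union, not_or] at this ⊢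
    exact ⟨this.2, this.1.1⟩
  omega

end Pool.Agent.Lib.MP_12e153_co.Comp
end
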