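import Pool.Agent.Lib.MP_12e153_co.Mg.G001
import Pool.Agent.Lib.MP_12e153_co.Mg.G004

section

/-!
# The star inequality for small sets from one gadget-free vertex (`|G| ≥ 10`)
-/

set_option autoImplicit false
set_option linter.unusedSectionVars false

open Finset
open scoped Pointwise

namespace Pool.Agent.Lib.MP_12e153_co.Comp

open Pool.Agent.Kneser Pool.Agent.Lib.MP_12e153_co

variable {V : Type*} [Fintype V] [DecidableEq V]
variable {G : Type*} [AddCommGroup G] [Fintype G] [DecidableEq G]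
variable {c : V → V → G}

open Classical in
theorem Free.core (h : NZ c) {q0 : V} (hF : Free c q0) {C D E : Finset V} (hq0 : q0 ∈ C)
    (H' : AddSubgroup G) (hH' : ⊥ < H') (hDC : Disjoint D C) {A : V → Finset G}
    (hA : ∀ d ∈ D, A d ⊆ S c C d) (g : G) (hgen : ∀ y ∈ H', g + y ∈ ∑ d ∈ D, A d)
    (hE : ∀ b, b ∉ C → b ∉ E → 2 ≤ (S c C b).card) :
    ∃ J : AddSubgroup G, H' ≤ J ∧ J ≠ ⊤ ∧
      (((C ∪ D)ᶜ).filter (fun b => ¬ ∀ x ∈ S c C b, x - c b q0 ∈ J)).card + 2 ≤ J.index ∧
      (Cᶜ).card + 4 ≤ E.card + D.card + (fs J).card + J.index := by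
  have hCne : C.Nonempty := ⟨q0, hq0⟩
  set W := (C ∪ D)ᶜ with hW
  set T' := (B c C + fs H') + ∑ v ∈ W, S c C v with hT'
  have hCW : Cᶜ = D ∪ W := by
    ext b
    simp only [mem_compl, mem_union, hW]
    by_cases hbQ : b ∈ C
    · have : b ∉ D := fun hbP => (Finset.disjoint_left.1 hDC hbP hbQ)
      simp [hbQ, this]
    · by_cases hbP : b ∈ D
      · simp [hbQ, hbP]
      · simp [hbQ, hbP]
  have hdDW : Disjoint D W := by
    rw [Finset.disjoint_left]
    intro b hbD hb
    simp only [mem_compl, mem_union, hW] at hb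
    exact hb (Or.inr hbD)
  have hTne : T' ≠ univ := by
    intro hT
    have h0 : -g ∈ T' := by rw [hT]; exact mem_univ _
    rw [hT', mem_add] at h0
    obtain ⟨z, hz, w, hw, hzw⟩ := h0
    rw [mem_add] at hz
    obtain ⟨β, hβ, k, hk, rfl⟩ := hz
    rw [B, mem_image] at hβ
    obtain ⟨r, hr, rfl⟩ := hβ
    rw [mem_sum_iff] at hw
    obtain ⟨f, hf, rfl⟩ := hw
    rw [mem_fs] at hk
    have h1 := hgen k hk
    rw [mem_sum_iff] at h1
    obtain ⟨φ, hφ, hφy⟩ := h1
    refine h.choice hr (fun b => if b ∈ D then φ b else f b) ?_ ?_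
    · intro b hb
      by_cases hbP : b ∈ D
      · simp only [hbP, if_true]
        exact hA b hbP (hφ b hbP)
      · simp only [hbP, if_false]
        apply hf
        simp [hW, hb, hbP]
    · rw [hCW, sum_union hdDW]
      have s1 : ∑ b ∈ D, (if b ∈ D then φ b else f b) = ∑ b ∈ D, φ b :=
        sum_congr rfl fun b hb => by simp [hb]
      have s2 : ∑ b ∈ W, (if b ∈ D then φ b else f b) = ∑ b ∈ W, f b :=
        sum_congr rfl fun b hb => by
          have : b ∉ D := fun hD => Finset.disjoint_left.1 hdDW hD hb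
          simp [this]
      rw [s1, s2, hφy]
      have e : ∑ q ∈ C.erase r, c r q + (g + k + ∑ b ∈ W, f b) =
          (∑ q ∈ C.erase r, c r q + k + ∑ i ∈ W, f i) + g := by abel
      rw [e, hzw]
      abel
  have hBne : (B c C + fs H').Nonempty := (B_nonempty hCne).add ⟨0, by simp⟩
  obtain ⟨hJtop, hJ⟩ := kneser_proper W (S c C) (B c C + fs H') hBne
    (fun b _ => S_nonempty hCne b) hTne
  rw [← hT'] at hJtop hJ
  have hHJ : H' ≤ stab T' := by
    rw [hT']
    have e : (B c C + fs H') + ∑ v ∈ W, S c C v = (B c C + ∑ v ∈ W, S c C v) + fs H' := by abel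
    rw [e]
    exact le_stab_add_fs _ _
  set J := stab T' with hJdef
  have hBpos : 1 ≤ (qim J (B c C + fs H')).card := qim_pos hBne
  have hnc : (W.filter (fun b => ¬ ∀ x ∈ S c C b, x - c b q0 ∈ J)).card ≤
      ∑ v ∈ W, ((qim J (S c C v)).card - 1) := by
    rw [Finset.card_filter]
    apply Finset.sum_le_sum
    intro b _
    split_ifs with hx
    · omega
    · push Not at hx
      obtain ⟨x, hx, hxJ⟩ := hx
      have h1 : 2 ≤ (qim J ((S c C b).image (fun x => x - c b q0))).card :=
        two_le_qim (x := 0) (y := x - c b q0)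
          (mem_image.2 ⟨c b q0, mem_S.2 ⟨q0, hq0, rfl⟩, by simp⟩)
          (mem_image_of_mem _ hx) J.zero_mem hxJ
      rw [qim_translate] at h1
      omega
  refine ⟨J, hHJ, hJtop, by omega, ?_⟩
  have hWC : Disjoint W C := by
    rw [Finset.disjoint_left]
    intro b hb hbC
    simp only [hW, mem_compl, mem_union] at hb
    exact hb (Or.inl hbC)
  have hflex := hF.flex hq0 J (lt_of_lt_of_le hH' hHJ) hWC
  have h5 : (W.filter (fun b => b ∉ E ∧ ∀ x ∈ S c C b, x - c b q0 ∈ J)).card ≤
      ∑ v ∈ W, ((Dl c q0 J C v).card - 1) := by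
    rw [Finset.card_filter]
    apply Finset.sum_le_sum
    intro b hb
    split_ifs with hx
    · have hbC : b ∉ C := fun h => Finset.disjoint_left.1 hWC hb h
      have h6 : Dl c q0 J C b = (S c C b).image (fun x => x - c b q0) := by
        rw [Dl, Finset.filter_true_of_mem]
        intro y hy
        rw [mem_image] at hy
        obtain ⟨x, hx', rfl⟩ := hy
        exact hx.2 x hx'
      have h7 : (Dl c q0 J C b).card = (S c C b).card := by
        rw [h6]
        exact Finset.card_image_of_injective _ (sub_left_injective)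
      have h8 := hE b hbC hx.1
      omega
    · omega
  have h9 : W.card ≤ (W.filter (fun b => b ∉ E ∧ ∀ x ∈ S c C b, x - c b q0 ∈ J)).card +
      (W.filter (fun b => ¬ ∀ x ∈ S c C b, x - c b q0 ∈ J)).card + E.card := by
    have hsub : W ⊆ (W.filter (fun b => b ∉ E ∧ ∀ x ∈ S c C b, x - c b q0 ∈ J)) ∪
        (W.filter (fun b => ¬ ∀ x ∈ S c C b, x - c b q0 ∈ J)) ∪ E := by
      intro b hb
      rw [mem_union, mem_union, mem_filter, mem_filter]
      by_cases h1 : b ∈ E
      · exact Or.inr h1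
      · by_cases h2 : ∀ x ∈ S c C b, x - c b q0 ∈ J
        · exact Or.inl (Or.inl ⟨hb, h1, h2⟩)
        · exact Or.inl (Or.inr ⟨hb, h2⟩)
    exact (card_le_card hsub).trans ((card_union_le _ _).trans
      (Nat.add_le_add_right (card_union_le _ _) _))
  have h10 : (Cᶜ).card = D.card + W.card := by
    rw [hCW, card_union_of_disjoint hdDW]
  omega

theorem arith1 {x y m : ℕ} (hm : 10 ≤ m) (hxy : x * y = m) (hx : 2 ≤ x) (hy : 3 ≤ y) :
    2 * x + y < m := by
  subst hxy
  obtain ⟨a, rfl⟩ := Nat.exists_eq_add_of_le hx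
  obtain ⟨b, rfl⟩ := Nat.exists_eq_add_of_le hy
  rcases Nat.lt_or_ge a 2 with ha | ha
  · interval_cases a
    · omega
    · omega
  · nlinarith [Nat.zero_le (a * b)]

theorem arith2 {w x y m : ℕ} (hm : 10 ≤ m) (hxy : x * y = m) (hx : 2 ≤ x) (hy : 2 ≤ y)
    (hw : 2 * w ≤ x) : w + x + y < m := by
  subst hxy
  obtain ⟨b, rfl⟩ := Nat.exists_eq_add_of_le hy
  rcases Nat.eq_zero_or_pos b with hb | hb
  · subst hb; omega
  · nlinarith [Nat.zero_le (x * b), Nat.mul_le_mul hx hb]

/-- numbers: `|J| [G:J] = |G|` -/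
theorem fs_mul_index (J : AddSubgroup G) : (fs J).card * J.index = Fintype.card G := by
  rw [mul_comm]; exact index_mul_card_fs J

theorem two_le_fs {J : AddSubgroup G} (h : ⊥ < J) : 2 ≤ (fs J).card := by
  rw [← relIndex_bot']
  exact two_le_relIndex h

theorem two_le_index {J : AddSubgroup G} (h : J ≠ ⊤) : 2 ≤ J.index := by
  have h1 := index_pos' J
  have h2 : J.index ≠ 1 := fun h' => h (AddSubgroup.index_eq_one.1 h')
  omega

/-- `x + y ≤ m / 2 + 2` for `x y = m`, `x, y ≥ 2`. -/
theorem arith3 {x y m : ℕ} (hxy : x * y = m) (hx : 2 ≤ x) (hy : 2 ≤ y) :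
    2 * (x + y) ≤ m + 4 := by
  subst hxy
  obtain ⟨a, rfl⟩ := Nat.exists_eq_add_of_le hx
  obtain ⟨b, rfl⟩ := Nat.exists_eq_add_of_le hy
  nlinarith [Nat.zero_le (a * b)]

open Classical in
/-- **The star inequality for small sets.** -/
theorem Free.star_small (h : NZ c) (hV : Fintype.card V = Fintype.card G + 1) {q0 : V}
    (hF : Free c q0) (hm : 10 ≤ Fintype.card G) {Q E : Finset V} (hQ : Q.Nonempty)
    (hQE : Q.card + E.card ≤ 5) (hE : ∀ b, b ∉ Q → b ∉ E → 2 ≤ (S c Q b).card) :
    (B c Q).card + ∑ b ∈ Qᶜ, ((S c Q b).card - 1) + 1 ≤ Fintype.card G := by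
  by_cases hq0 : q0 ∈ Q
  · exact Free.star h hF hq0
  by_contra hviol
  obtain ⟨hHtop, hH⟩ := h.star hQ
  set H := stab (T c Q) with hHdef
  have hHbot : ⊥ < H := by
    rw [bot_lt_iff_ne_bot]
    intro hb
    rw [hb, qim_bot, index_bot'] at hH
    apply hviol
    refine le_trans (le_of_eq ?_) hH
    congr 2
    apply sum_congr rfl
    intro v _
    rw [qim_bot]
  have hx := two_le_fs hHbot
  have hy := two_le_index hHtop
  have hxy := fs_mul_index H
  have hxy3 := arith3 hxy hx hy
  obtain ⟨r, hr⟩ := hQ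
  have hrq0 : r ≠ q0 := fun h => hq0 (h ▸ hr)
  have hQc : Q.card + (Qᶜ).card = Fintype.card G + 1 := by
    rw [← hV]; exact card_add_card_compl Q
  set C := insert q0 Q with hC
  have hCcard : C.card = Q.card + 1 := card_insert_of_notMem hq0
  have hCc : C.card + (Cᶜ).card = Fintype.card G + 1 := by
    rw [← hV]; exact card_add_card_compl C
  have hQC : Q ⊆ C := subset_insert _ _
  have hEC : ∀ b, b ∉ C → b ∉ E → 2 ≤ (S c C b).card := fun b hb hbE =>
    (hE b (fun h => hb (hQC h)) hbE).trans (card_le_card (S_mono hQC b))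
  -- number of nonconstant vertices mod H on Q
  have hBpos : 1 ≤ (qim H (B c Q)).card := qim_pos (B_nonempty ⟨r, hr⟩)
  have hncQ : ((Qᶜ).filter (fun b => ¬ ∀ x ∈ S c Q b, x - c b r ∈ H)).card + 2 ≤ H.index := by
    have : ((Qᶜ).filter (fun b => ¬ ∀ x ∈ S c Q b, x - c b r ∈ H)).card ≤
        ∑ v ∈ Qᶜ, ((qim H (S c Q v)).card - 1) := by
      rw [Finset.card_filter]
      apply Finset.sum_le_sum
      intro b _
      split_ifs with hx
      · omega
      · push Not at hx
        obtain ⟨x, hx, hxJ⟩ := hx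
        have h1 : 2 ≤ (qim H ((S c Q b).image (fun x => x - c b r))).card :=
          two_le_qim (x := 0) (y := x - c b r)
            (mem_image.2 ⟨c b r, mem_S.2 ⟨r, hr, rfl⟩, by simp⟩)
            (mem_image_of_mem _ hx) H.zero_mem hxJ
        rw [qim_translate] at h1
        omega
    omega
  -- every vertex outside C is constant mod H on C, and H has index 2
  have main : ∀ b0, b0 ∉ C → H.index = 2 ∧ ∀ x ∈ S c C b0, x - c b0 q0 ∈ H := by
    intro b0 hb0
    set Y := (Qᶜ.erase b0).erase q0 with hY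
    have hb0Q : b0 ∉ Q := fun h => hb0 (hQC h)
    have hb0q : b0 ≠ q0 := fun h => hb0 (h ▸ mem_insert_self _ _)
    have hYcard : Y.card + 2 = (Qᶜ).card := by
      rw [hY, card_erase_of_mem, card_erase_of_mem]
      · have : 2 ≤ (Qᶜ).card := by omega
        omega
      · exact mem_compl.2 hb0Q
      · exact mem_erase.2 ⟨hb0q.symm, mem_compl.2 hq0⟩
    have hYflex : (fs H).card ≤ ∑ v ∈ Y, ((Dl c r H Q v).card - 1) + 1 := by
      have h5 : (Y.filter (fun b => b ∉ E ∧ ∀ x ∈ S c Q b, x - c b r ∈ H)).card ≤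
          ∑ v ∈ Y, ((Dl c r H Q v).card - 1) := by
        rw [Finset.card_filter]
        apply Finset.sum_le_sum
        intro b hb
        split_ifs with hx
        · have hbC : b ∉ Q := by
            rw [hY, mem_erase, mem_erase, mem_compl] at hb
            exact hb.2.2
          have h6 : Dl c r H Q b = (S c Q b).image (fun x => x - c b r) := by
            rw [Dl, Finset.filter_true_of_mem]
            intro y hy
            rw [mem_image] at hy
            obtain ⟨x, hx', rfl⟩ := hy
            exact hx.2 x hx'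
          have h7 : (Dl c r H Q b).card = (S c Q b).card := by
            rw [h6]
            exact Finset.card_image_of_injective _ (sub_left_injective)
          have h8 := hE b hbC hx.1
          omega
        · omega
      have h9 : Y.card ≤ (Y.filter (fun b => b ∉ E ∧ ∀ x ∈ S c Q b, x - c b r ∈ H)).card +
          ((Qᶜ).filter (fun b => ¬ ∀ x ∈ S c Q b, x - c b r ∈ H)).card + E.card := by
        have hsub : Y ⊆ (Y.filter (fun b => b ∉ E ∧ ∀ x ∈ S c Q b, x - c b r ∈ H)) ∪
            ((Qᶜ).filter (fun b => ¬ ∀ x ∈ S c Q b, x - c b r ∈ H)) ∪ E := by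
          intro b hb
          rw [mem_union, mem_union, mem_filter, mem_filter]
          by_cases h1 : b ∈ E
          · exact Or.inr h1
          · by_cases h2 : ∀ x ∈ S c Q b, x - c b r ∈ H
            · exact Or.inl (Or.inl ⟨hb, h1, h2⟩)
            · refine Or.inl (Or.inr ⟨?_, h2⟩)
              rw [hY] at hb
              exact (mem_erase.1 (mem_erase.1 hb).2).2
        exact (card_le_card hsub).trans ((card_union_le _ _).trans
          (Nat.add_le_add_right (card_union_le _ _) _))
      omega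
    -- extraction
    obtain ⟨H', A, hH'H, hH'2, hA1, hA2, hA3, hA4⟩ := gadgetExtract Y (fs H).card H
      (Dl c r H Q) rfl hx (by
        intro v _
        rw [Dl, mem_filter, mem_image]
        exact ⟨⟨c v r, mem_S.2 ⟨r, hr, rfl⟩, by simp⟩, H.zero_mem⟩) (by
        intro v _ x hx
        rw [Dl, mem_filter] at hx
        exact hx.2) hYflex
    have hH'bot : ⊥ < H' := by
      rw [bot_lt_iff_ne_bot]
      rintro rfl
      rw [fs_bot_card] at hH'2
      omega
    -- trimmed leaves
    set D := Y.filter (fun b => 2 ≤ (A b).card) with hD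
    have hDY : D ⊆ Y := filter_subset _ _
    have hDcard : D.card + 1 ≤ (fs H').card := by
      refine le_trans ?_ hA4
      apply Nat.add_le_add_right
      rw [hD, Finset.card_filter]
      apply Finset.sum_le_sum
      intro b _
      split_ifs with hh <;> omega
    have hDC : Disjoint D C := by
      rw [Finset.disjoint_left]
      intro b hb hbC
      have := hDY hb
      rw [hY, mem_erase, mem_erase, mem_compl] at this
      rcases mem_insert.1 hbC with h1 | h1
      · exact this.1 h1
      · exact this.2.2 h1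
    have hgen : ∀ y ∈ H', (∑ b ∈ D, c b r) + y ∈
        ∑ d ∈ D, (A d).image (fun x => x + c d r) := by
      intro y hy
      rw [← mem_fs, ← hA3, mem_sum_iff] at hy
      obtain ⟨f, hf, rfl⟩ := hy
      rw [mem_sum_iff]
      refine ⟨fun b => f b + c b r, fun b hb => mem_image_of_mem _ (hf b (hDY hb)), ?_⟩
      rw [sum_add_distrib, add_comm]
      congr 1
      symm
      rw [← Finset.sum_filter_add_sum_filter_not Y (fun b => 2 ≤ (A b).card) f]
      have : ∑ x ∈ Y.filter (fun b => ¬ 2 ≤ (A b).card), f x = 0 := by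
        apply sum_eq_zero
        intro b hb
        rw [mem_filter] at hb
        have h5 : (A b).card ≤ 1 := by omega
        exact Finset.card_le_one.1 h5 _ (hf b hb.1) _ (hA2 b hb.1)
      rw [this, add_zero]
    obtain ⟨J, hHJ, hJtop, hJ1, hJ2⟩ := hF.core (D := D) (E := E) (C := C) h
      (mem_insert_self _ _) H' hH'bot hDC
      (A := fun d => (A d).image (fun x => x + c d r)) (by
        intro d hd x hx
        rw [mem_image] at hx
        obtain ⟨y, hy, rfl⟩ := hx
        have h7 := hA1 d (hDY hd) hy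
        rw [Dl, mem_filter, mem_image] at h7
        obtain ⟨⟨z, hz, hzy⟩, _⟩ := h7
        have e : y + c d r = z := by rw [← hzy]; abel
        rw [e]
        exact S_mono hQC d hz) _ hgen hEC
    have hJx := two_le_fs (lt_of_lt_of_le hH'bot hHJ)
    have hJy := two_le_index hJtop
    have hJxy := fs_mul_index J
    have hineq : Fintype.card G ≤ (fs H').card + (fs J).card + J.index := by omega
    by_cases hEq : H' = J
    · subst hEq
      have hidx : H'.index = 2 := by
        by_contra hne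
        have := arith1 hm hJxy hJx (by omega)
        omega
      -- H' = H
      have hHH : H' = H := by
        have h1 := index_mul H' H hH'H
        rw [hidx] at h1
        have h2 : H.index ∣ 2 := ⟨_, by rw [h1, mul_comm]⟩
        have h3 : H.index ≤ 2 := Nat.le_of_dvd (by norm_num) h2
        have h4 : H.index = 2 := by omega
        rw [h4] at h1
        have h5 : H'.relIndex H = 1 := by omega
        exact le_antisymm hH'H (AddSubgroup.relIndex_eq_one.1 h5)
      rw [← hHH]
      refine ⟨hidx, ?_⟩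
      rw [hidx] at hJ1
      have h6 : (((C ∪ D)ᶜ).filter (fun b => ¬ ∀ x ∈ S c C b, x - c b q0 ∈ H')) = ∅ := by
        rw [← Finset.card_eq_zero]; omega
      by_contra hcon
      have h7 : b0 ∈ (((C ∪ D)ᶜ).filter (fun b => ¬ ∀ x ∈ S c C b, x - c b q0 ∈ H')) := by
        rw [mem_filter]
        refine ⟨?_, hcon⟩
        rw [mem_compl, mem_union, not_or]
        refine ⟨hb0, ?_⟩
        intro hbD
        have := hDY hbD
        rw [hY, mem_erase, mem_erase] at this
        exact this.2.1 rfl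
      rw [h6] at h7
      simp at h7
    · exfalso
      have hlt : H' < J := lt_of_le_of_ne hHJ hEq
      have h1 := relIndex_mul_fs H' J hHJ
      have h2 := two_le_relIndex hlt
      have h3 : 2 * (fs H').card ≤ (fs J).card := by
        rw [← h1]
        exact Nat.mul_le_mul_right _ h2
      have := arith2 hm hJxy hJx hJy h3
      omega
  -- conclusion
  have hCcne : (Cᶜ).Nonempty := card_pos.1 (by omega)
  obtain ⟨b1, hb1⟩ := hCcne
  have hidx := (main b1 (mem_compl.1 hb1)).1
  have hflex := hF.flex (C := C) (mem_insert_self _ _) H hHbot (W := Cᶜ) disjoint_compl_left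
  have h5 : ((Cᶜ) \ E).card ≤ ∑ v ∈ Cᶜ, ((Dl c q0 H C v).card - 1) := by
    have e : ((Cᶜ) \ E) = (Cᶜ).filter (fun b => b ∉ E) := by
      ext b; simp
    rw [e, Finset.card_filter]
    apply Finset.sum_le_sum
    intro b hb
    by_cases hbE : b ∈ E
    · simp [hbE]
    · simp only [hbE, not_false_eq_true, if_true]
      have hbC := mem_compl.1 hb
      have hall := (main b hbC).2
      have h6 : Dl c q0 H C b = (S c C b).image (fun x => x - c b q0) := by
        rw [Dl, Finset.filter_true_of_mem]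
        intro y hy
        rw [mem_image] at hy
        obtain ⟨x, hx', rfl⟩ := hy
        exact hall x hx'
      have h7 : (Dl c q0 H C b).card = (S c C b).card := by
        rw [h6]
        exact Finset.card_image_of_injective _ (sub_left_injective)
      have h8 := hEC b hbC hbE
      omega
  have h10 : (Cᶜ).card ≤ ((Cᶜ) \ E).card + E.card := card_le_card_sdiff_add_card
  rw [hidx] at hxy
  omega

end Pool.Agent.Lib.MP_12e153_co.Comp
end

section

/-!
# The order 3 pattern, and the conclusion from one gadget-free vertex (`m ≥ 10`)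
-/

set_option autoImplicit false
set_option linter.unusedSectionVars false

open Finset
open scoped Pointwise

namespace Pool.Agent.Lib.MP_12e153_co.Comp

open Pool.Agent.Kneser Pool.Agent.Lib.MP_12e153_co

variable {V : Type*} [Fintype V] [DecidableEq V]
variable {G : Type*} [AddCommGroup G] [Fintype G] [DecidableEq G]
variable {c : V → V → G}

theorem mem_zmultiples_three {δ y : G} (h3 : (3 : ℕ) • δ = 0) (hy : y ∈ AddSubgroup.zmultiples δ) :
    y = 0 ∨ y = -δ ∨ y = -δ + -δ := by
  rw [AddSubgroup.mem_zmultiples_iff] at hy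
  obtain ⟨k, rfl⟩ := hy
  have h3' : (3 : ℤ) • δ = 0 := by
    have : (3 : ℤ) • δ = (3 : ℕ) • δ := by
      rw [← natCast_zsmul]; rfl
    rw [this, h3]
  have hk := Int.emod_add_mul_ediv k 3
  have hlt := Int.emod_lt_of_pos k (by norm_num : (0 : ℤ) < 3)
  have hge := Int.emod_nonneg k (by norm_num : (3 : ℤ) ≠ 0)
  have e : k • δ = (k % 3) • δ := by
    conv_lhs => rw [← hk]
    rw [add_smul, mul_comm, mul_smul, h3', smul_zero, add_zero]
  rw [e]
  have h2 : δ + δ = -δ := by
    have : δ + δ + δ = 0 := by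
      rw [← h3]; simp [succ_nsmul]
    exact eq_neg_of_add_eq_zero_left this
  obtain h | h | h : k % 3 = 0 ∨ k % 3 = 1 ∨ k % 3 = 2 := by omega
  · left; rw [h, zero_smul]
  · right; right
    rw [h, one_smul, ← h2]
    have : δ + δ + δ = 0 := by
      rw [← h3]; simp [succ_nsmul]
    calc δ = (δ + δ + δ) + δ := by rw [this, zero_add]
      _ = δ + δ + (δ + δ) := by abel
  · right; left
    rw [h, two_zsmul, h2]

theorem card_zmultiples_three {δ : G} (h3 : (3 : ℕ) • δ = 0) (hδ : δ ≠ 0) :
    (fs (AddSubgroup.zmultiples δ)).card = 3 := by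
  rw [fs_card_eq, Nat.card_zmultiples]
  exact addOrderOf_eq_prime h3 hδ

/-- The sums of two pairs with difference of order 3. -/
theorem pair_gen {d1 d2 : V} (hd : d1 ≠ d2) {δ : G} (h3 : (3 : ℕ) • δ = 0) (x : V → G)
    (y : G) (hy : y ∈ AddSubgroup.zmultiples δ) :
    ∑ b ∈ ({d1, d2} : Finset V), x b + y ∈
      ∑ b ∈ ({d1, d2} : Finset V), ({x b, x b - δ} : Finset G) := by
  rw [sum_pair hd, sum_pair hd, mem_add]
  rcases mem_zmultiples_three h3 hy with rfl | rfl | rfl
  · exact ⟨x d1, by simp, x d2, by simp, by abel⟩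
  · exact ⟨x d1 - δ, by simp, x d2, by simp, by abel⟩
  · exact ⟨x d1 - δ, by simp, x d2 - δ, by simp, by abel⟩

/-- Case `q0 ∉ Q`: a gadget of order 3 based at `q0`. -/
theorem order3_gadget {q0 u1 d1 d2 : V} (hd : d1 ≠ d2) (h1 : d1 ≠ q0) (h2 : d2 ≠ q0)
    (h1u : d1 ≠ u1) (h2u : d2 ≠ u1) {δ : G} (h3 : (3 : ℕ) • δ = 0) (hδ : δ ≠ 0)
    (e1 : c d1 q0 - c d1 u1 = δ) (e2 : c d2 q0 - c d2 u1 = δ) :
    HasGadget c (AddSubgroup.zmultiples δ) q0 := by
  refine ⟨{d1, d2}, {q0, u1}, fun b => {c b q0, c b q0 - δ}, ?_, by simp, ?_, ?_, ?_, ?_, ?_⟩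
  · rw [Finset.disjoint_left]
    intro b hb hb'
    simp only [mem_insert, mem_singleton] at hb hb'
    rcases hb with rfl | rfl <;> rcases hb' with h | h
    · exact h1 h
    · exact h1u h
    · exact h2 h
    · exact h2u h
  · intro b hb x hx
    simp only [mem_insert, mem_singleton] at hb hx
    rw [mem_S]
    rcases hx with rfl | rfl
    · exact ⟨q0, by simp, rfl⟩
    · refine ⟨u1, by simp, ?_⟩
      rcases hb with rfl | rfl
      · rw [← e1]; abel
      · rw [← e2]; abel
  · intro b _; simp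
  · intro b _ x hx
    simp only [mem_insert, mem_singleton] at hx
    rcases hx with rfl | rfl
    · rw [sub_self]; exact AddSubgroup.zero_mem _
    · have : c b q0 - δ - c b q0 = -δ := by abel
      rw [this]
      exact AddSubgroup.neg_mem _ (AddSubgroup.mem_zmultiples δ)
  · intro y hy
    exact pair_gen hd h3 (fun b => c b q0) y hy
  · rw [card_zmultiples_three h3 hδ, sum_pair hd]
    have e : ∀ b : V, ({c b q0, c b q0 - δ} : Finset G).card ≤ 2 := fun b => card_le_two
    have := e d1
    have := e d2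
    omega

open Classical in
/-- Case `q0 ∈ Q`. -/
theorem order3_core (h : NZ c) (hV : Fintype.card V = Fintype.card G + 1) {q0 : V}
    (hF : Free c q0) (hm : 7 ≤ Fintype.card G) {q3 d1 d2 u u' : V}
    (hnd : ({q0, q3, u, u'} : Finset V).card = 4) (hd : d1 ≠ d2)
    (hd1 : d1 ∉ ({q0, q3, u, u'} : Finset V)) (hd2 : d2 ∉ ({q0, q3, u, u'} : Finset V))
    {δ : G} (h3 : (3 : ℕ) • δ = 0) (hδ : δ ≠ 0)
    (e1 : c d1 u - c d1 u' = δ) (e2 : c d2 u - c d2 u' = δ)
    (hsee : ∀ b, b ∉ ({q0, q3, u, u'} : Finset V) → b ≠ d1 → b ≠ d2 → c b q0 ≠ c b q3) :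
    False := by
  have hbot : ⊥ < AddSubgroup.zmultiples δ := by
    rw [bot_lt_iff_ne_bot]
    intro hb
    rw [AddSubgroup.zmultiples_eq_bot] at hb
    exact hδ hb
  have two : ∀ b x y : V, x ∈ ({q0, q3, u, u'} : Finset V) → y ∈ ({q0, q3, u, u'} : Finset V) →
      c b x ≠ c b y → 2 ≤ (S c {q0, q3, u, u'} b).card := by
    intro b x y hx hy hne
    have : 1 < (S c {q0, q3, u, u'} b).card :=
      one_lt_card.2 ⟨_, mem_S.2 ⟨x, hx, rfl⟩, _, mem_S.2 ⟨y, hy, rfl⟩, hne⟩
    omega
  obtain ⟨J, hHJ, hJtop, -, hJ2⟩ := hF.core (D := {d1, d2}) (E := ∅)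
    (C := {q0, q3, u, u'}) h (by simp) (AddSubgroup.zmultiples δ) hbot (by
      rw [Finset.disjoint_left]
      intro b hb hbC
      simp only [mem_insert, mem_singleton] at hb
      rcases hb with rfl | rfl
      · exact hd1 hbC
      · exact hd2 hbC)
    (A := fun b => {c b u, c b u - δ}) (by
      intro b hb x hx
      simp only [mem_insert, mem_singleton] at hb hx
      rw [mem_S]
      rcases hx with rfl | rfl
      · exact ⟨u, by simp, rfl⟩
      · refine ⟨u', by simp, ?_⟩
        rcases hb with rfl | rfl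
        · rw [← e1]; abel
        · rw [← e2]; abel) _ (fun y hy => pair_gen hd h3 (fun b => c b u) y hy) (by
      intro b hb _
      by_cases hb1 : b = d1
      · subst hb1
        apply two b u u' (by simp) (by simp)
        intro h; rw [h, sub_self] at e1; exact hδ e1.symm
      · by_cases hb2 : b = d2
        · subst hb2
          apply two b u u' (by simp) (by simp)
          intro h; rw [h, sub_self] at e2; exact hδ e2.symm
        · exact two b q0 q3 (by simp) (by simp) (hsee b hb hb1 hb2))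
  have hC := card_add_card_compl ({q0, q3, u, u'} : Finset V)
  rw [hnd, hV] at hC
  rw [card_pair hd, card_empty] at hJ2
  have h5 := arith3 (fs_mul_index J) (two_le_fs (lt_of_lt_of_le hbot hHJ)) (two_le_index hJtop)
  omega

end Pool.Agent.Lib.MP_12e153_co.Comp
end

section

/-!
# A gadget-free vertex is impossible for `m ≥ 10`
-/

set_option autoImplicit false
set_option linter.unusedSectionVars false

open Finset
open scoped Pointwise

namespace Pool.Agent.Lib.MP_12e153_co

open Pool.Agent.Kneser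

variable {V : Type*} [Fintype V] [DecidableEq V] {m : ℕ} [NeZero m]
variable {c : V → V → ZMod m}

theorem rig_of_free (hcard : Fintype.card V = m + 1) (hs : ∀ a b, c a b = c b a)
    (hd : ∀ v, c v v = 0) (h : NZ c) {q0 : V} (hF : Comp.Free c q0) (hm : 7 ≤ m) :
    ∀ Q : Finset V, Q.card = 4 → (∀ b, b ∉ Q → (S c Q b).card = 2) →
    (∀ u, u ∉ Q → (B c (insert u Q)).card ≤ 1) →
    ∀ u u' : V, u ∉ Q → u' ∉ Q → ∀ δ : ZMod m, (∀ q ∈ Q, c q u - c q u' = δ) →
      3 * δ = 0 → δ = 0 := by
  intro Q hQ hS2 hB u u' hu hu' δ hδ h3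
  by_contra hne
  have key : ∀ u, u ∉ Q → ∀ q ∈ Q, ∑ r ∈ Q, c q r + c q u = ∑ r ∈ Q, c u r := by
    intro u hu q hq
    have h1 := card_le_one.1 (hB u hu) _ (mem_B hd (mem_insert_of_mem hq)) _
      (mem_B hd (mem_insert_self u Q))
    rw [sum_insert hu, sum_insert hu, hd, zero_add] at h1
    rw [← h1, add_comm]
  have key2 : ∀ u, u ∉ Q → 3 * ∑ r ∈ Q, c u r = ∑ q ∈ Q, ∑ r ∈ Q, c q r := by
    intro u hu
    have h1 := sum_congr rfl (key u hu)
    rw [sum_add_distrib, sum_const, hQ, nsmul_eq_mul] at h1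
    rw [sum_congr rfl fun q _ => hs q u] at h1
    push_cast at h1
    linear_combination -h1
  have three : ∀ x : ZMod m, 3 * x = 0 → (3 : ℕ) • x = 0 := by
    intro x hx
    rw [nsmul_eq_mul]; exact_mod_cast hx
  have hQne : Q.Nonempty := card_pos.1 (by omega)
  have hδσ : δ = ∑ r ∈ Q, c u r - ∑ r ∈ Q, c u' r := by
    obtain ⟨q, hq⟩ := hQne
    have e1 := key u hu q hq
    have e2 := key u' hu' q hq
    rw [← hδ q hq]
    linear_combination e1 - e2
  by_cases hq0 : q0 ∈ Q
  · -- q0 ∈ Q
    obtain ⟨q3, hq3, hs3⟩ : ∃ q3 ∈ Q, ∑ r ∈ Q, c q3 r ≠ ∑ r ∈ Q, c q0 r := by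
      by_contra hcon
      push Not at hcon
      have h1 := hS2 u hu
      have h2 : (S c Q u).card ≤ 1 := by
        rw [card_le_one]
        intro x hx y hy
        unfold S at hx hy
        rw [mem_image] at hx hy
        obtain ⟨q, hq, rfl⟩ := hx
        obtain ⟨q', hq', rfl⟩ := hy
        have e1 := key u hu q hq
        have e2 := key u hu q' hq'
        rw [hs u q, hs u q']
        have e3 := hcon q hq
        have e4 := hcon q' hq'
        linear_combination e1 - e2 - e3 + e4
      omega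
    have hne03 : q0 ≠ q3 := by
      rintro rfl; exact hs3 rfl
    have hrest : ((Q.erase q0).erase q3).card = 2 := by
      rw [card_erase_of_mem (mem_erase.2 ⟨hne03.symm, hq3⟩), card_erase_of_mem hq0, hQ]
    obtain ⟨d1, d2, hd12, hrest2⟩ := card_eq_two.1 hrest
    have hmem : ∀ x, x ∈ Q ↔ x = q0 ∨ x = q3 ∨ x = d1 ∨ x = d2 := by
      intro x
      have h1 : x ∈ (Q.erase q0).erase q3 ↔ x ∈ ({d1, d2} : Finset V) := by rw [hrest2]
      rw [mem_erase, mem_erase, mem_insert, mem_singleton] at h1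
      constructor
      · intro hx
        by_cases hx0 : x = q0
        · exact Or.inl hx0
        · by_cases hx3 : x = q3
          · exact Or.inr (Or.inl hx3)
          · exact Or.inr (Or.inr (h1.1 ⟨hx3, hx0, hx⟩))
      · rintro (rfl | rfl | hx)
        · exact hq0
        · exact hq3
        · exact (h1.2 hx).2.2
    have hd1Q : d1 ∈ Q := (hmem d1).2 (by simp)
    have hd2Q : d2 ∈ Q := (hmem d2).2 (by simp)
    have hd1' : d1 ≠ q3 ∧ d1 ≠ q0 := by
      have : d1 ∈ (Q.erase q0).erase q3 := by rw [hrest2]; simp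
      rw [mem_erase, mem_erase] at this
      exact ⟨this.1, this.2.1⟩
    have hd2' : d2 ≠ q3 ∧ d2 ≠ q0 := by
      have : d2 ∈ (Q.erase q0).erase q3 := by rw [hrest2]; simp
      rw [mem_erase, mem_erase] at this
      exact ⟨this.1, this.2.1⟩
    have huu : u ≠ u' := by
      rintro rfl
      apply hne
      rw [hδσ, sub_self]
    have hne' : ∀ x ∈ Q, x ≠ u ∧ x ≠ u' := fun x hx =>
      ⟨fun h => hu (h ▸ hx), fun h => hu' (h ▸ hx)⟩
    refine Comp.order3_core (c := c) h (by rw [hcard, ZMod.card]) hF (by rw [ZMod.card]; exact hm)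
      (q3 := q3) (d1 := d1) (d2 := d2) (u := u) (u' := u') ?_ hd12 ?_ ?_ (three δ h3) hne
      (hδ d1 hd1Q) (hδ d2 hd2Q) ?_
    · rw [card_insert_of_notMem, card_insert_of_notMem, card_pair huu]
      · simp [(hne' q3 hq3).1, (hne' q3 hq3).2]
      · simp [hne03, (hne' q0 hq0).1, (hne' q0 hq0).2]
    · simp [hd1'.1, hd1'.2, (hne' d1 hd1Q).1, (hne' d1 hd1Q).2]
    · simp [hd2'.1, hd2'.2, (hne' d2 hd2Q).1, (hne' d2 hd2Q).2]
    · intro b hb hb1 hb2 heq
      simp only [mem_insert, mem_singleton, not_or] at hb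
      have hbQ : b ∉ Q := by
        rw [hmem b]
        simp [hb.1, hb.2.1, hb1, hb2]
      have e1 := key b hbQ q0 hq0
      have e2 := key b hbQ q3 hq3
      rw [hs q0 b] at e1
      rw [hs q3 b, ← heq] at e2
      apply hs3
      linear_combination e2 - e1
  · -- q0 ∉ Q
    obtain ⟨u1, hu1, hσ⟩ : ∃ u1, u1 ∉ Q ∧ ∑ r ∈ Q, c q0 r ≠ ∑ r ∈ Q, c u1 r := by
      by_cases h1 : ∑ r ∈ Q, c q0 r = ∑ r ∈ Q, c u r
      · refine ⟨u', hu', ?_⟩
        rw [h1]
        intro h2
        apply hne
        rw [hδσ, h2, sub_self]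
      · exact ⟨u, hu, h1⟩
    have hsub : ∑ r ∈ Q, c q0 r - ∑ r ∈ Q, c u1 r ≠ 0 := sub_ne_zero.2 hσ
    have h3' : 3 * (∑ r ∈ Q, c q0 r - ∑ r ∈ Q, c u1 r) = 0 := by
      have e1 := key2 q0 hq0
      have e2 := key2 u1 hu1
      linear_combination e1 - e2
    obtain ⟨d1, hd1, d2, hd2, hd12⟩ : ∃ d1 ∈ Q, ∃ d2 ∈ Q, d1 ≠ d2 :=
      Finset.one_lt_card.1 (by omega : 1 < Q.card)
    have hg := Comp.order3_gadget (c := c) (q0 := q0) (u1 := u1) hd12
      (fun h => hq0 (h ▸ hd1)) (fun h => hq0 (h ▸ hd2))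
      (fun h => hu1 (h ▸ hd1)) (fun h => hu1 (h ▸ hd2)) (three _ h3') hsub
      (by
        have e1 := key q0 hq0 d1 hd1
        have e2 := key u1 hu1 d1 hd1
        linear_combination e1 - e2)
      (by
        have e1 := key q0 hq0 d2 hd2
        have e2 := key u1 hu1 d2 hd2
        linear_combination e1 - e2)
    refine hF _ ?_ hg
    rw [bot_lt_iff_ne_bot]
    intro hb
    rw [AddSubgroup.zmultiples_eq_bot] at hb
    exact hsub hb

/-- **No gadget-free vertex for `m ≥ 10`.** -/
theorem no_free (hcard : Fintype.card V = m + 1) (hs : ∀ a b, c a b = c b a)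
    (hd : ∀ v, c v v = 0) (h : NZ c) (hm : 10 ≤ m) (q0 : V) : ¬ Comp.Free c q0 := by
  intro hF
  have hstar : ∀ Q : Finset V, q0 ∈ Q → (B c Q).card + F c Q + 1 ≤ m := by
    intro Q hQ
    have := Comp.Free.star (c := c) h hF hQ
    rw [ZMod.card] at this
    exact this
  have h5 : Bad5 c :=
    { card := hcard
      symm := hs
      diag := hd
      nz := h
      two := by omega
      six := by omega
      star5 := by
        intro Q E hQ hQE hE
        have := Comp.Free.star_small (c := c) h (by rw [hcard, ZMod.card]) hF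
          (by rw [ZMod.card]; exact hm) hQ hQE hE
        rw [ZMod.card] at this
        exact this
      rig := rig_of_free hcard hs hd h hF (by omega) }
  exact h5.false q0 hstar

theorem bad4_of_all_free (hcard : Fintype.card V = m + 1) (hs : ∀ a b, c a b = c b a)
    (hd : ∀ v, c v v = 0) (h : NZ c) (hm : 2 ≤ m) (hF : ∀ q0 : V, Comp.Free c q0) : Bad4 c := by
  have hstar : ∀ Q : Finset V, Q.Nonempty → (B c Q).card + F c Q + 1 ≤ m := by
    intro Q hQ
    obtain ⟨q, hq⟩ := hQ
    have := Comp.Free.star (c := c) h (hF q) hq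
    rw [ZMod.card] at this
    exact this
  exact
    { card := hcard
      symm := hs
      diag := hd
      nz := h
      two := hm
      star5 := fun Q E hQ _ _ => hstar Q hQ
      rig := by
        intro Q hQ hS2 hB u u' hu hu' δ hδ h3
        by_contra hne'
        have h3' : (3 : ℕ) • δ = 0 := by rw [nsmul_eq_mul]; exact_mod_cast h3
        have huu : u ≠ u' := by
          rintro rfl
          obtain ⟨q, hq⟩ := card_pos.1 (by omega : 0 < Q.card)
          apply hne'
          rw [← hδ q hq, sub_self]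
        obtain ⟨d1, hd1, d2, hd2, hd12⟩ : ∃ d1 ∈ Q, ∃ d2 ∈ Q, d1 ≠ d2 :=
          Finset.one_lt_card.1 (by omega : 1 < Q.card)
        have hg := Comp.order3_gadget (c := c) (q0 := u) (u1 := u') hd12
          (fun h => hu (h ▸ hd1)) (fun h => hu (h ▸ hd2))
          (fun h => hu' (h ▸ hd1)) (fun h => hu' (h ▸ hd2)) h3' hne' (hδ d1 hd1) (hδ d2 hd2)
        refine hF u _ ?_ hg
        rw [bot_lt_iff_ne_bot]
        intro hb
        rw [AddSubgroup.zmultiples_eq_bot] at hb
        exact hne' hb }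

/-- Not all vertices are gadget-free. -/
theorem no_all_free (hcard : Fintype.card V = m + 1) (hs : ∀ a b, c a b = c b a)
    (hd : ∀ v, c v v = 0) (h : NZ c) (hm : 2 ≤ m) : ¬ ∀ q0 : V, Comp.Free c q0 := by
  intro hF
  have hne : Nonempty V := Fintype.card_pos_iff.1 (by omega)
  have hstar : ∀ Q : Finset V, Q.Nonempty → (B c Q).card + F c Q + 1 ≤ m := by
    intro Q hQ
    obtain ⟨q, hq⟩ := hQ
    have := Comp.Free.star (c := c) h (hF q) hq
    rw [ZMod.card] at this
    exact this
  have h4 := bad4_of_all_free hcard hs hd h hm hF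
  by_cases h6 : m = 6
  · subst h6
    exact h4.six_false hstar
  · have h5 : Bad5 c := { h4 with six := h6 }
    exact h5.false hne.some (fun Q hQ => hstar Q ⟨_, hQ⟩)

end Pool.Agent.Lib.MP_12e153_co
end

section

/-!
# K-structures (interface for the proof of NG)
-/

set_option autoImplicit false
set_option linter.unusedSectionVars false

open Finset
open scoped Pointwise

namespace Pool.Agent.Lib.MP_12e153_co.Comp

open Pool.Agent.Kneser Pool.Agent.Lib.MP_12e153_co

variable {V : Type*} [Fintype V] [DecidableEq V]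
variable {G : Type*} [AddCommGroup G] [Fintype G] [DecidableEq G]
variable {c : V → V → G}

/-- A K-structure: a gadget whose leaves have at least two colours and whose middle set is small. -/
structure KS (c : V → V → G) (K : AddSubgroup G) (P Q : Finset V) (x : V)
    (A : V → Finset G) : Prop extends Gadget c K P Q x A where
  two : ∀ t ∈ P, 2 ≤ (A t).card
  small : Q.card ≤ 1 + ∑ t ∈ P, ((A t).card - 1)

open Classical in
/-- The vertices outside `P ∪ Q` which are constant mod `K` on `V \ P`. -/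
noncomputable def MM (c : V → V → G) (K : AddSubgroup G) (P Q : Finset V) (x : V) : Finset V :=
  ((P ∪ Q)ᶜ).filter (fun u => ∀ v, v ∉ P → v ≠ u → c u v - c u x ∈ K)

/-- The growth property of a selection. -/
def SG (P : Finset V) (A : V → Finset G) : Prop :=
  ∀ J ⊆ P, ∑ t ∈ J, ((A t).card - 1) + 1 ≤ (∑ t ∈ J, A t).card

theorem mem_MM {K : AddSubgroup G} {P Q : Finset V} {x u : V} :
    u ∈ MM c K P Q x ↔ u ∉ P ∧ u ∉ Q ∧ ∀ v, v ∉ P → v ≠ u → c u v - c u x ∈ K := by
  classical
  rw [MM, mem_filter, mem_compl, mem_union, not_or, and_assoc]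

section
variable {K : AddSubgroup G} {P Q : Finset V} {x : V} {A : V → Finset G}

theorem KS.P_card (hA : KS c K P Q x A) : P.card + 1 ≤ (fs K).card :=
  hA.toGadget.trim_card hA.two

theorem KS.Q_card (hA : KS c K P Q x A) : Q.card ≤ (fs K).card := by
  have h1 := hA.small
  have h2 := hA.flex
  omega

theorem KS.index_ge (h : NZ c) (hmax : ∀ K' : AddSubgroup G, K < K' → ¬ HasGadget c K' x)
    (hA : KS c K P Q x A) : 2 ≤ K.index := by
  have := hA.toGadget.nonconst h hmax (Finset.Subset.refl Q) hA.disj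
  omega

/-- `|N| ≤ 2 (k - 2)`. -/
theorem KS.card_N (h : NZ c) (hs : ∀ u v, c u v = c v u)
    (hV : Fintype.card V = Fintype.card G + 1)
    (hmax : ∀ K' : AddSubgroup G, K < K' → ¬ HasGadget c K' x) (hK : ⊥ < K)
    (hA : KS c K P Q x A) : ((P ∪ Q)ᶜ \ MM c K P Q x).card + 4 ≤ 2 * K.index := by
  have hidx := hA.index_ge h hmax
  have h1 := hA.toGadget.S2 h hs hV hK hmax hA.P_card hA.Q_card ((P ∪ Q)ᶜ \ MM c K P Q x) (by
    intro u hu
    simp only [mem_sdiff, mem_compl, mem_union, not_or] at hu ⊢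
    exact hu.1) (by
    intro u hu
    simp only [mem_sdiff, mem_compl, mem_union, not_or] at hu
    obtain ⟨⟨huP, huQ⟩, huM⟩ := hu
    rw [mem_MM] at huM
    push Not at huM
    obtain ⟨v, hvP, hvu, hne⟩ := huM huP huQ
    refine ⟨v, mem_erase.2 ⟨hvu, mem_compl.2 hvP⟩, x, mem_erase.2 ⟨?_, mem_compl.2 ?_⟩, hne⟩
    · rintro rfl; exact huQ hA.mem
    · intro hxP; exact Finset.disjoint_left.1 hA.disj hxP hA.mem)
  omega

end

end Pool.Agent.Lib.MP_12e153_co.Comp
end

section

/-!
# Lemma X, part 1: the far vertex and the counting lemma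
-/

set_option autoImplicit false
set_option linter.unusedSectionVars false

open Finset
open scoped Pointwise

namespace Pool.Agent.Lib.MP_12e153_co.Comp

open Pool.Agent.Kneser Pool.Agent.Lib.MP_12e153_co

variable {V : Type*} [Fintype V] [DecidableEq V]
variable {G : Type*} [AddCommGroup G] [Fintype G] [DecidableEq G]
variable {c : V → V → G}

/-- Far partners. -/
theorem far0 (h : NZ c) (v : V) :
    ∃ w, w ≠ v ∧ c v w ≠ 0 ∧ ∀ z, z ≠ v → z ≠ w → c v z = 0 → c w z ≠ 0 := by
  by_contra hcon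
  push Not at hcon
  let N : Finset V := (univ.erase v).filter fun z => c v z = 0
  have hvN : v ∉ N := by simp [N]
  have key : ∀ b : V, ∃ z : V, b ∈ (insert v N)ᶜ → z ∈ insert v N ∧ c b z = 0 := by
    intro b
    by_cases hb : b ∈ (insert v N)ᶜ
    · have hb' : b ≠ v ∧ c v b ≠ 0 := by
        rw [mem_compl, mem_insert, not_or] at hb
        refine ⟨hb.1, fun h => hb.2 ?_⟩
        simp [N, hb.1, h]
      obtain ⟨z, hz1, hz2, hz3, hz4⟩ := hcon b hb'.1 hb'.2
      exact ⟨z, fun _ => ⟨mem_insert_of_mem (by simp [N, hz1, hz3]), hz4⟩⟩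
    · exact ⟨v, fun h => absurd h hb⟩
  choose g hg using key
  refine h (insert v N) v (mem_insert_self _ _) g (fun b hb => (hg b hb).1) ?_
  rw [erase_insert hvN, sum_congr rfl (g := fun _ => (0 : G)) (by
    intro q hq; exact (mem_filter.1 hq).2), sum_congr rfl fun b hb => (hg b hb).2]
  simp

/-- The situation of Lemma X. -/
structure XS (c : V → V → G) (K : AddSubgroup G) (P Q : Finset V) (x : V) (A : V → Finset G)
    (w : V) : Prop where
  nz : NZ c
  symm : ∀ u v, c u v = c v u
  hV : Fintype.card V = Fintype.card G + 1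
  hK : ⊥ < K
  ks : KS c K P Q x A
  sg : SG P A
  hk : 2 ≤ K.index
  hM : ∀ u ∈ MM c K P Q x, ∀ v, v ∉ P → v ≠ u → c u v = 0
  hw : w ∈ P
  far : ∀ u, u ∉ P → c w u ≠ 0

section
variable {K : AddSubgroup G} {P Q : Finset V} {x : V} {A : V → Finset G} {w : V}

theorem XS.hP (h : XS c K P Q x A w) : P.card + 1 ≤ (fs K).card := h.ks.P_card

theorem XS.hKt (h : XS c K P Q x A w) : K ≠ ⊤ := by
  rintro rfl
  have := h.hk
  rw [AddSubgroup.index_top] at this
  omega

theorem XS.hm (_h : XS c K P Q x A w) : (fs K).card * K.index = Fintype.card G := fs_mul_index K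

theorem XS.far' (h : XS c K P Q x A w) {u : V} (hu : u ∉ P) : c u w ≠ 0 := by
  rw [h.symm]; exact h.far u hu

open Classical in
theorem XS.cardN (h : XS c K P Q x A w) {y : V} (hy : y ∈ MM c K P Q x) :
    (Pᶜ.erase y).card + P.card = Fintype.card G := by
  have h1 := card_add_card_compl P
  have h2 := h.hV
  rw [mem_MM] at hy
  have h3 := Finset.card_erase_add_one (mem_compl.2 hy.1)
  omega

open Classical in
/-- **(1)** The number of vertices with a difference in `H`. -/
theorem XS.count (h : XS c K P Q x A w) {y : V} (hy : y ∈ MM c K P Q x) (H : AddSubgroup G)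
    (hH : ⊥ < H) (hHt : H ≠ ⊤) :
    ((Pᶜ.erase y).filter (fun v => c v w ∈ H)).card + 2 ≤ (fs H).card := by
  by_contra hcon
  push Not at hcon
  set s := (Pᶜ.erase y).filter (fun v => c v w ∈ H) with hs
  have hyP : y ∉ P := (mem_MM.1 hy).1
  have hsP : ∀ v ∈ s, v ≠ y ∧ v ∉ P ∧ c v w ∈ H := by
    intro v hv
    rw [hs, mem_filter, mem_erase, mem_compl] at hv
    exact ⟨hv.1.1, hv.1.2, hv.2⟩
  have hcard2 : ∀ v ∈ s, ({0, c v w} : Finset G).card = 2 := fun v hv =>
    card_pair (Ne.symm (h.far' (hsP v hv).2.1))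
  have hsum : (fs H).card ≤ ∑ v ∈ s, ((({0, c v w} : Finset G)).card - 1) + 1 := by
    rw [sum_congr rfl (fun v hv => by rw [hcard2 v hv])]
    simp only [Nat.add_one_sub_one, sum_const, smul_eq_mul, mul_one]
    omega
  obtain ⟨H', A', h1, h2, h3, h4, h5, h6⟩ := gadgetExtract s _ H (fun v => {0, c v w}) rfl
    (two_le_fs hH) (fun v _ => by simp) (by
      intro v hv z hz
      simp only [mem_insert, mem_singleton] at hz
      rcases hz with rfl | rfl
      · exact H.zero_mem
      · exact (hsP v hv).2.2) hsum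
  set D := s.filter (fun v => 2 ≤ (A' v).card) with hD
  have hDs : D ⊆ s := filter_subset _ _
  have hDcard : D.card + 1 ≤ (fs H').card := by
    refine le_trans ?_ h6
    apply Nat.add_le_add_right
    rw [Finset.card_eq_sum_ones]
    refine le_trans (Finset.sum_le_sum (g := fun b => (A' b).card - 1) ?_)
      (Finset.sum_le_sum_of_subset hDs)
    intro b hb
    have := (mem_filter.1 hb).2
    omega
  have hDsum : fs H' ⊆ ∑ d ∈ D, A' d := by
    rw [← h5]
    intro z hz
    rw [mem_sum_iff] at hz ⊢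
    obtain ⟨f, hf, rfl⟩ := hz
    refine ⟨f, fun i hi => hf i (hDs hi), ?_⟩
    apply Finset.sum_subset hDs
    intro v hv hvD
    have h7 : (A' v).card ≤ 1 := by
      by_contra h8
      exact hvD (mem_filter.2 ⟨hv, by omega⟩)
    exact card_le_one.1 h7 _ (hf v hv) _ (h4 v hv)
  have hwy : w ≠ y := fun e => hyP (e ▸ h.hw)
  have hz := zplus0 (C := {y, w}) (D := D) (L := H') (A := A') h.nz ⟨y, by simp⟩ (by
    rw [Finset.disjoint_left]
    intro a ha haD
    have := hsP a (hDs haD)
    simp only [mem_insert, mem_singleton] at ha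
    rcases ha with rfl | rfl
    · exact this.1 rfl
    · exact this.2.1 h.hw) (by
    intro d hd z hz
    have hd' := hsP d (hDs hd)
    have := h3 d (hDs hd) hz
    simp only [mem_insert, mem_singleton] at this
    rw [mem_S]
    rcases this with rfl | rfl
    · exact ⟨y, by simp, by rw [h.symm]; exact h.hM y hy d hd'.2.1 hd'.1⟩
    · exact ⟨w, by simp, rfl⟩) hDsum
  have hsub : (Pᶜ.erase y) \ D ⊆
      ((({y, w} ∪ D : Finset V)ᶜ).filter (fun b => ∃ z ∈ S c {y, w} b, z ∈ H')) := by
    intro v hv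
    rw [mem_sdiff, mem_erase, mem_compl] at hv
    rw [mem_filter, mem_compl, mem_union, not_or]
    refine ⟨⟨?_, hv.2⟩, 0, ?_, H'.zero_mem⟩
    · simp only [mem_insert, mem_singleton, not_or]
      exact ⟨hv.1.1, fun e => hv.1.2 (e ▸ h.hw)⟩
    · rw [mem_S]
      exact ⟨y, by simp, by rw [h.symm]; exact h.hM y hy v hv.1.2 hv.1.1⟩
  have h7 := card_le_card hsub
  have h8 : ((Pᶜ.erase y) \ D).card + D.card = (Pᶜ.erase y).card :=
    card_sdiff_add_card_eq_card (hDs.trans (filter_subset _ _))
  have h9 := h.cardN hy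
  have h10 := h.hP
  have h11 : H' ≠ ⊤ := fun e => hHt (top_le_iff.1 (e ▸ h1))
  have h12 := arith3 (fs_mul_index H') h2 (two_le_index h11)
  have h13 := h.hm
  have h14 := h.hk
  have h15 : (fs K).card * 2 ≤ Fintype.card G := by
    rw [← h13]; exact Nat.mul_le_mul_left _ h14
  omega

/-- **(2)** -/
theorem block_card (H : AddSubgroup G) {E : Finset G} {δ : G} (hδ : δ ∉ K)
    (hE : ∀ a ∈ E, ∀ b ∈ E, a - b ∈ K) :
    2 * E.card ≤ (fs H).card * (qim H (({0, δ} : Finset G) + E)).card := by
  have h1 : (({0, δ} : Finset G) + E).card ≤ (({0, δ} : Finset G) + E + fs H).card := by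
    apply card_le_card
    intro z hz
    rw [mem_add]
    exact ⟨z, hz, 0, by simp, by simp⟩
  have h2 : 2 * E.card ≤ (({0, δ} : Finset G) + E).card := by
    have h3 : E ∪ E.image (fun e => δ + e) ⊆ ({0, δ} : Finset G) + E := by
      intro z hz
      rw [mem_union, mem_image] at hz
      rw [mem_add]
      rcases hz with hz | ⟨e, he, rfl⟩
      · exact ⟨0, by simp, z, hz, by simp⟩
      · exact ⟨δ, by simp, e, he, rfl⟩
    have h4 : Disjoint E (E.image (fun e => δ + e)) := by
      rw [Finset.disjoint_left]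
      intro a ha ha'
      rw [mem_image] at ha'
      obtain ⟨e, he, rfl⟩ := ha'
      apply hδ
      have := hE _ ha _ he
      simpa using this
    have h5 := card_le_card h3
    rw [card_union_of_disjoint h4, card_image_of_injective _ (add_right_injective δ)] at h5
    omega
  have h6 := card_add_fs H (({0, δ} : Finset G) + E)
  rw [mul_comm (fs H).card, ← h6]
  omega

/-- `|E / H| |H| ≥ 2 |E|` if `E` is in a coset of `K` and `H ⊄ K`. -/
theorem block_card' (H : AddSubgroup G) {E : Finset G} {g : G} (hgH : g ∈ H) (hg : g ∉ K)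
    (hE : ∀ a ∈ E, ∀ b ∈ E, a - b ∈ K) :
    2 * E.card ≤ (fs H).card * (qim H E).card := by
  have h2 : 2 * E.card ≤ (E + fs H).card := by
    have h3 : E ∪ E.image (fun e => g + e) ⊆ E + fs H := by
      intro z hz
      rw [mem_union, mem_image] at hz
      rw [mem_add]
      rcases hz with hz | ⟨e, he, rfl⟩
      · exact ⟨z, hz, 0, by simp, by simp⟩
      · exact ⟨e, he, g, by simpa using hgH, by abel⟩
    have h4 : Disjoint E (E.image (fun e => g + e)) := by
      rw [Finset.disjoint_left]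
      intro a ha ha'
      rw [mem_image] at ha'
      obtain ⟨e, he, rfl⟩ := ha'
      apply hg
      have := hE _ ha _ he
      simpa using this
    have h5 := card_le_card h3
    rw [card_union_of_disjoint h4, card_image_of_injective _ (add_right_injective g)] at h5
    omega
  have h6 := card_add_fs H E
  rw [mul_comm (fs H).card, ← h6]
  omega

/-- The block has an even number of classes mod `H ≤ K`. -/
theorem block_even (H : AddSubgroup G) (hHK : H ≤ K) {E : Finset G} {δ : G} (hδ : δ ∉ K)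
    (hE : ∀ a ∈ E, ∀ b ∈ E, a - b ∈ K) :
    (qim H (({0, δ} : Finset G) + E)).card = 2 * (qim H E).card := by
  have h1 : ({0, δ} : Finset G) + E + fs H = (E + fs H) ∪ (E + fs H).image (fun e => δ + e) := by
    ext z
    rw [mem_union, mem_image, mem_add]
    constructor
    · rintro ⟨a, ha, k, hk, rfl⟩
      rw [mem_add] at ha
      obtain ⟨d, hd, e, he, rfl⟩ := ha
      simp only [mem_insert, mem_singleton] at hd
      rcases hd with rfl | rfl
      · left; rw [mem_add]; exact ⟨e, he, k, hk, by abel⟩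
      · right; exact ⟨e + k, add_mem_add he hk, by abel⟩
    · rintro (hz | ⟨a, ha, rfl⟩)
      · rw [mem_add] at hz
        obtain ⟨e, he, k, hk, rfl⟩ := hz
        refine ⟨0 + e, add_mem_add (by simp) he, k, hk, by abel⟩
      · rw [mem_add] at ha
        obtain ⟨e, he, k, hk, rfl⟩ := ha
        exact ⟨δ + e, add_mem_add (by simp) he, k, hk, by abel⟩
  have h2 : Disjoint (E + fs H) ((E + fs H).image (fun e => δ + e)) := by
    rw [Finset.disjoint_left]
    intro a ha ha'
    rw [mem_image] at ha'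
    obtain ⟨b, hb, rfl⟩ := ha'
    rw [mem_add] at ha hb
    obtain ⟨e, he, k, hk, hek⟩ := ha
    obtain ⟨e', he', k', hk', rfl⟩ := hb
    apply hδ
    have e1 : δ = (e - e') + k - k' := by
      have : δ + (e' + k') = e + k := hek.symm
      rw [eq_sub_of_add_eq this]; abel
    rw [e1]
    exact K.sub_mem (K.add_mem (hE e he e' he') (hHK (mem_fs.1 hk))) (hHK (mem_fs.1 hk'))
  have h3 := card_add_fs H (({0, δ} : Finset G) + E)
  rw [h1, card_union_of_disjoint h2, card_image_of_injective _ (add_right_injective δ),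
    card_add_fs] at h3
  apply Nat.eq_of_mul_eq_mul_right (fs_card_pos H)
  rw [← h3]
  ring

/-- Kneser for a set given as a sum. -/
theorem kneser_eq {ι : Type*} [DecidableEq ι] (T : Finset G) (hT : T ≠ univ) (s : Finset ι)
    (S : ι → Finset G) (B : Finset G) (hB : B.Nonempty) (hS : ∀ i ∈ s, (S i).Nonempty)
    (e : B + ∑ i ∈ s, S i = T) :
    (qim (stab T) B).card + ∑ i ∈ s, ((qim (stab T) (S i)).card - 1) + 1 ≤ (stab T).index := by
  subst e
  exact (kneser_proper s S B hB hS hT).2

open Classical in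
/-- number of pairs `{0, c v w}` meeting two classes -/
theorem pairs_count (w : V) (N : Finset V) (H : AddSubgroup G) :
    N.card ≤ ∑ v ∈ N, ((qim H ({0, c v w} : Finset G)).card - 1) +
      (N.filter (fun v => c v w ∈ H)).card := by
  have h1 : N.card = (N.filter (fun v => ¬ c v w ∈ H)).card +
      (N.filter (fun v => c v w ∈ H)).card := by
    rw [add_comm]; exact (Finset.card_filter_add_card_filter_not _).symm
  rw [h1]
  apply Nat.add_le_add_right
  rw [Finset.card_filter]
  apply Finset.sum_le_sum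
  intro v _
  by_cases hx : c v w ∈ H
  · rw [if_neg (not_not.2 hx)]; exact Nat.zero_le _
  · rw [if_pos hx]
    have := two_le_qim (K := H) (A := ({0, c v w} : Finset G)) (x := 0) (y := c v w)
      (by simp) (by simp) H.zero_mem hx
    omega

end

end Pool.Agent.Lib.MP_12e153_co.Comp
end

section

/-!
# Lemma X, part 2: the master inequality
-/

set_option autoImplicit false
set_option linter.unusedSectionVars false

open Finset
open scoped Pointwise

namespace Pool.Agent.Lib.MP_12e153_co.Comp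

open Pool.Agent.Kneser Pool.Agent.Lib.MP_12e153_co

variable {V : Type*} [Fintype V] [DecidableEq V]
variable {G : Type*} [AddCommGroup G] [Fintype G] [DecidableEq G]
variable {c : V → V → G}

section
variable {K : AddSubgroup G} {P Q : Finset V} {x : V} {A : V → Finset G} {w : V}

/-- the family used in the master inequality -/
def FF (c : V → V → G) (w y : V) (R : Finset V) (S2 : Finset G) (v : V) : Finset G :=
  if v = w then {0, ∑ r ∈ R, c r w} else if v = y then S2 else {0, c v w}

theorem FF_w (c : V → V → G) (w y : V) (R : Finset V) (S2 : Finset G) :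
    FF c w y R S2 w = {0, ∑ r ∈ R, c r w} := by simp [FF]

theorem FF_y (c : V → V → G) {w y : V} (h : y ≠ w) (R : Finset V) (S2 : Finset G) :
    FF c w y R S2 y = S2 := by simp [FF, h]

theorem FF_v (c : V → V → G) {w y v : V} (h : v ≠ w) (h' : v ≠ y) (R : Finset V)
    (S2 : Finset G) : FF c w y R S2 v = {0, c v w} := by simp [FF, h, h']

/-- The sum of the family misses a point. -/
theorem XS.miss (h : XS c K P Q x A w) {y v1 : V} (hy : y ∈ MM c K P Q x)
    (hv1 : v1 ∈ MM c K P Q x) (hne : v1 ≠ y) {R : Finset V} (hR : R ⊆ Q) {E S2 : Finset G}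
    (hES : ∀ e ∈ E, ∀ s ∈ S2, e + s ∈ ∑ t ∈ P.erase w, S c (insert y R) t) :
    -c y w ∉ (({0, c v1 w} : Finset G) + E) +
      ∑ v ∈ insert w (insert y (((Pᶜ.erase y) \ R).erase v1)), FF c w y R S2 v := by
  intro hmem
  have hyP : y ∉ P := (mem_MM.1 hy).1
  have hyQ : y ∉ Q := (mem_MM.1 hy).2.1
  have hv1P : v1 ∉ P := (mem_MM.1 hv1).1
  have hv1Q : v1 ∉ Q := (mem_MM.1 hv1).2.1
  have hyw : y ≠ w := fun e => hyP (e ▸ h.hw)
  have hv1w : v1 ≠ w := fun e => hv1P (e ▸ h.hw)
  have hyR : y ∉ R := fun e => hyQ (hR e)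
  have hv1R : v1 ∉ R := fun e => hv1Q (hR e)
  have hRP : ∀ r ∈ R, r ∉ P := fun r hr hrP => Finset.disjoint_left.1 h.ks.disj hrP (hR hr)
  have hwR : w ∉ R := fun e => hRP w e h.hw
  set N' := (Pᶜ.erase y) \ R with hN'
  have hN'mem : ∀ v, v ∈ N' ↔ v ≠ y ∧ v ∉ P ∧ v ∉ R := by
    intro v
    rw [hN', mem_sdiff, mem_erase, mem_compl, and_assoc]
  have hv1N : v1 ∈ N' := (hN'mem v1).2 ⟨hne, hv1P, hv1R⟩
  rw [mem_add] at hmem
  obtain ⟨b, hb, g, hg, hbg⟩ := hmem
  rw [mem_add] at hb
  obtain ⟨β, hβ, e, he, rfl⟩ := hb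
  rw [mem_sum_iff] at hg
  obtain ⟨f, hf, rfl⟩ := hg
  have hfw : f w ∈ ({0, ∑ r ∈ R, c r w} : Finset G) := by
    have := hf w (mem_insert_self _ _)
    rwa [FF_w] at this
  have hfy : f y ∈ S2 := by
    have := hf y (mem_insert_of_mem (mem_insert_self _ _))
    rwa [FF_y c hyw] at this
  have hfv : ∀ v ∈ N', v ≠ v1 → f v ∈ ({0, c v w} : Finset G) := by
    intro v hv hvv
    have hv' := (hN'mem v).1 hv
    have := hf v (mem_insert_of_mem (mem_insert_of_mem (mem_erase.2 ⟨hvv, hv⟩)))
    rwa [FF_v c (fun e : v = w => hv'.2.1 (e ▸ h.hw)) hv'.1] at this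
  have hes := hES e he (f y) hfy
  rw [mem_sum_iff] at hes
  obtain ⟨g, hg, hgs⟩ := hes
  have hwN : w ∉ insert y (N'.erase v1) := by
    rw [mem_insert, not_or]
    refine ⟨fun e => hyw e.symm, fun e => ?_⟩
    exact ((hN'mem w).1 (mem_of_mem_erase e)).2.1 h.hw
  have hyN : y ∉ N'.erase v1 := fun e => ((hN'mem y).1 (mem_of_mem_erase e)).1 rfl
  rw [sum_insert hwN, sum_insert hyN] at hbg
  -- the choice
  have hcolor : ∀ b, b ∉ insert w (insert y R) →
      (if b ∈ P then g b else if b = v1 then β else f b) ∈ S c (insert w (insert y R)) b := by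
    intro b hb
    rw [mem_insert, mem_insert, not_or, not_or] at hb
    obtain ⟨hbw, hby, hbR⟩ := hb
    by_cases hbP : b ∈ P
    · rw [if_pos hbP]
      exact S_mono (subset_insert _ _) b (hg b (mem_erase.2 ⟨hbw, hbP⟩))
    · rw [if_neg hbP]
      have hby0 : c b y = 0 := by rw [h.symm]; exact h.hM y hy b hbP hby
      have : (if b = v1 then β else f b) ∈ ({0, c b w} : Finset G) := by
        by_cases hbv : b = v1
        · rw [if_pos hbv, hbv]; exact hβ
        · rw [if_neg hbv]
          exact hfv b ((hN'mem b).2 ⟨hby, hbP, hbR⟩) hbv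
      simp only [mem_insert, mem_singleton] at this
      rw [mem_S]
      rcases this with h1 | h1
      · exact ⟨y, by simp, by rw [h1, hby0]⟩
      · exact ⟨w, by simp, by rw [h1]⟩
  have hcompl : (insert w (insert y R))ᶜ = P.erase w ∪ N' := by
    ext b
    rw [mem_compl, mem_insert, mem_insert, mem_union, mem_erase, hN'mem, not_or, not_or]
    constructor
    · rintro ⟨h1, h2, h3⟩
      by_cases hbP : b ∈ P
      · exact Or.inl ⟨h1, hbP⟩
      · exact Or.inr ⟨h2, hbP, h3⟩
    · rintro (⟨h1, h2⟩ | ⟨h1, h2, h3⟩)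
      · exact ⟨h1, fun e => hyP (e ▸ h2), fun e => hRP b e h2⟩
      · exact ⟨fun e => h2 (e ▸ h.hw), h1, h3⟩
  have hdisj : Disjoint (P.erase w) N' := by
    rw [Finset.disjoint_left]
    intro b hb hb'
    exact ((hN'mem b).1 hb').2.1 (mem_of_mem_erase hb)
  have hsum : ∑ b ∈ (insert w (insert y R))ᶜ,
      (if b ∈ P then g b else if b = v1 then β else f b) =
      e + f y + (β + ∑ v ∈ N'.erase v1, f v) := by
    rw [hcompl, sum_union hdisj, ← hgs, ← add_sum_erase N' _ hv1N]
    congr 1
    · exact sum_congr rfl fun b hb => by rw [if_pos (mem_of_mem_erase hb)]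
    · rw [if_neg hv1P, if_pos rfl]
      congr 1
      apply sum_congr rfl
      intro b hb
      rw [mem_erase] at hb
      rw [if_neg ((hN'mem b).1 hb.2).2.1, if_neg hb.1]
  simp only [mem_insert, mem_singleton] at hfw
  rcases hfw with h0 | h0
  · -- root y
    refine h.nz.choice (Q := insert w (insert y R)) (r := y)
      (mem_insert_of_mem (mem_insert_self _ _)) _ hcolor ?_
    have e1 : (insert w (insert y R)).erase y = insert w R := by
      ext b
      simp only [mem_erase, mem_insert]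
      constructor
      · rintro ⟨h1, h2 | h2 | h2⟩
        · exact Or.inl h2
        · exact absurd h2 h1
        · exact Or.inr h2
      · rintro (h2 | h2)
        · exact ⟨fun e => hyw (e.symm.trans h2), Or.inl h2⟩
        · exact ⟨fun e => hyR (e ▸ h2), Or.inr (Or.inr h2)⟩
    rw [e1, sum_insert hwR, hsum]
    have e2 : ∑ r ∈ R, c y r = 0 := sum_eq_zero fun r hr =>
      h.hM y hy r (hRP r hr) (fun e => hyR (e ▸ hr))
    rw [e2]
    rw [h0] at hbg
    calc c y w + 0 + (e + f y + (β + ∑ v ∈ N'.erase v1, f v))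
        = c y w + (β + e + (0 + (f y + ∑ v ∈ N'.erase v1, f v))) := by abel
      _ = 0 := by rw [hbg]; abel
  · -- root w
    refine h.nz.choice (Q := insert w (insert y R)) (r := w) (mem_insert_self _ _) _ hcolor ?_
    have e1 : (insert w (insert y R)).erase w = insert y R := erase_insert (by
      rw [mem_insert, not_or]; exact ⟨fun e => hyw e.symm, hwR⟩)
    rw [e1, sum_insert hyR, hsum]
    have e2 : ∑ r ∈ R, c w r = ∑ r ∈ R, c r w := sum_congr rfl fun r _ => h.symm _ _
    rw [e2, h.symm w y]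
    rw [h0] at hbg
    calc c y w + ∑ r ∈ R, c r w + (e + f y + (β + ∑ v ∈ N'.erase v1, f v))
        = c y w + (β + e + (∑ r ∈ R, c r w + (f y + ∑ v ∈ N'.erase v1, f v))) := by abel
      _ = 0 := by rw [hbg]; abel

open Classical in
/-- **The master inequality.** -/
theorem XS.master (h : XS c K P Q x A w) {y v1 : V} (hy : y ∈ MM c K P Q x)
    (hv1 : v1 ∈ MM c K P Q x) (hne : v1 ≠ y) {R : Finset V} (hR : R ⊆ Q) {E S2 : Finset G}
    (hE : E.Nonempty) (hS2 : S2.Nonempty)
    (hES : ∀ e ∈ E, ∀ s ∈ S2, e + s ∈ ∑ t ∈ P.erase w, S c (insert y R) t) :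
    ∃ H : AddSubgroup G, H ≠ ⊤ ∧
      ((qim H (({0, c v1 w} : Finset G) + E)).card + ((qim H S2).card - 1) +
        ((qim H ({0, ∑ r ∈ R, c r w} : Finset G)).card - 1) +
        (((Pᶜ.erase y) \ R).erase v1).card + 1 ≤
        H.index + ((Pᶜ.erase y).filter (fun v => c v w ∈ H)).card) ∧
      ((qim H E).card + ((Pᶜ.erase y) \ R).card + 1 ≤
        H.index + ((Pᶜ.erase y).filter (fun v => c v w ∈ H)).card) ∧
      (qim H (({0, c v1 w} : Finset G) + E)).card + 1 ≤ H.index ∧
      (qim H E).card + 1 ≤ H.index := by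
  have hmiss := h.miss hy hv1 hne hR hES
  set T := (({0, c v1 w} : Finset G) + E) +
      ∑ v ∈ insert w (insert y (((Pᶜ.erase y) \ R).erase v1)), FF c w y R S2 v with hT
  have hTne : T ≠ univ := fun e => hmiss (e ▸ mem_univ _)
  have hyP : y ∉ P := (mem_MM.1 hy).1
  have hyQ : y ∉ Q := (mem_MM.1 hy).2.1
  have hv1P : v1 ∉ P := (mem_MM.1 hv1).1
  have hv1Q : v1 ∉ Q := (mem_MM.1 hv1).2.1
  have hyw : y ≠ w := fun e => hyP (e ▸ h.hw)
  have hv1w : v1 ≠ w := fun e => hv1P (e ▸ h.hw)
  have hv1R : v1 ∉ R := fun e => hv1Q (hR e)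
  set N' := (Pᶜ.erase y) \ R with hN'
  have hN'mem : ∀ v, v ∈ N' ↔ v ≠ y ∧ v ∉ P ∧ v ∉ R := by
    intro v
    rw [hN', mem_sdiff, mem_erase, mem_compl, and_assoc]
  have hv1N : v1 ∈ N' := (hN'mem v1).2 ⟨hne, hv1P, hv1R⟩
  have hFne : ∀ v, (FF c w y R S2 v).Nonempty := by
    intro v
    unfold FF
    split_ifs
    · exact ⟨0, by simp⟩
    · exact hS2
    · exact ⟨0, by simp⟩
  have hBne : (({0, c v1 w} : Finset G) + E).Nonempty := Finset.Nonempty.add ⟨0, by simp⟩ hE
  have hwN : w ∉ insert y (N'.erase v1) := by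
    rw [mem_insert, not_or]
    refine ⟨fun e => hyw e.symm, fun e => ?_⟩
    exact ((hN'mem w).1 (mem_of_mem_erase e)).2.1 h.hw
  have hyN : y ∉ N'.erase v1 := fun e => ((hN'mem y).1 (mem_of_mem_erase e)).1 rfl
  have hwN2 : w ∉ insert y N' := by
    rw [mem_insert, not_or]
    refine ⟨fun e => hyw e.symm, fun e => ?_⟩
    exact ((hN'mem w).1 e).2.1 h.hw
  have hyN2 : y ∉ N' := fun e => ((hN'mem y).1 e).1 rfl
  have hfilt : ∀ (X : Finset V) (H : AddSubgroup G), X ⊆ N' →
      X.card ≤ ∑ v ∈ X, ((qim H (FF c w y R S2 v)).card - 1) +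
        ((Pᶜ.erase y).filter (fun v => c v w ∈ H)).card := by
    intro X H hX
    have h1 := pairs_count (c := c) w X H
    have h2 : ∑ v ∈ X, ((qim H (FF c w y R S2 v)).card - 1) =
        ∑ v ∈ X, ((qim H ({0, c v w} : Finset G)).card - 1) := by
      apply sum_congr rfl
      intro v hv
      have hv' := (hN'mem v).1 (hX hv)
      rw [FF_v c (fun e : v = w => hv'.2.1 (e ▸ h.hw)) hv'.1]
    have h3 : (X.filter (fun v => c v w ∈ H)).card ≤
        ((Pᶜ.erase y).filter (fun v => c v w ∈ H)).card := by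
      apply card_le_card
      apply filter_subset_filter
      exact hX.trans sdiff_subset
    omega
  have h1 := kneser_eq T hTne (insert w (insert y (N'.erase v1))) (FF c w y R S2)
      (({0, c v1 w} : Finset G) + E) hBne (fun i _ => hFne i) rfl
  rw [sum_insert hwN, sum_insert hyN, FF_w, FF_y c hyw] at h1
  have h2 := hfilt (N'.erase v1) (stab T) (erase_subset _ _)
  have h3 := kneser_eq T hTne (insert w (insert y N')) (FF c w y R S2) E hE
      (fun i _ => hFne i) (by
        rw [hT, sum_insert hwN, sum_insert hyN, sum_insert hwN2, sum_insert hyN2,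
          ← add_sum_erase N' _ hv1N, FF_v c hv1w hne]
        abel)
  rw [sum_insert hwN2, sum_insert hyN2] at h3
  have h4 := hfilt N' (stab T) (Subset.refl _)
  refine ⟨stab T, stab_ne_top T hTne (hBne.add (sum_nonempty _ _ fun i _ => hFne i)), ?_, ?_, ?_, ?_⟩
  · omega
  · omega
  · omega
  · omega

end

end Pool.Agent.Lib.MP_12e153_co.Comp
end

section

/-!
# Lemma X, part 3: case A
-/

set_option autoImplicit false
set_option linter.unusedSectionVars false

open Finset
open scoped Pointwise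

namespace Pool.Agent.Lib.MP_12e153_co.Comp

open Pool.Agent.Kneser Pool.Agent.Lib.MP_12e153_co

variable {V : Type*} [Fintype V] [DecidableEq V]
variable {G : Type*} [AddCommGroup G] [Fintype G] [DecidableEq G]
variable {c : V → V → G}

theorem ac2 {d e q : ℕ} (hd : 1 ≤ d) (he : e + 1 ≤ q) (h : e + d * q + 2 ≤ q + d + d * e) :
    False := by
  obtain ⟨u, rfl⟩ := Nat.exists_eq_add_of_le he
  have := Nat.mul_le_mul_right u hd
  nlinarith

theorem ac1 {d e q : ℕ} (hd : 2 ≤ d) (he : e + 1 ≤ q) (h : e + d * q + 1 ≤ q + d + d * e) :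
    q = e + 1 := by
  obtain ⟨u, rfl⟩ := Nat.exists_eq_add_of_le he
  have := Nat.mul_le_mul_right u hd
  nlinarith

section
variable {K : AddSubgroup G} {P Q : Finset V} {x : V} {A : V → Finset G} {w : V}

open Classical in
theorem XS.cnt_bot (h : XS c K P Q x A w) (y : V) :
    ((Pᶜ.erase y).filter (fun v => c v w ∈ (⊥ : AddSubgroup G))).card = 0 := by
  rw [card_eq_zero, filter_eq_empty_iff]
  intro v hv
  rw [mem_erase, mem_compl] at hv
  rw [AddSubgroup.mem_bot]
  exact h.far' hv.2

theorem pair_qim_bot {a b : G} (h : a ≠ b) : (qim (⊥ : AddSubgroup G) {a, b}).card = 2 := by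
  rw [qim_bot, card_pair h]

theorem XS.coset (h : XS c K P Q x A w) {J : Finset V} (hJ : J ⊆ P) :
    ∀ a ∈ ∑ t ∈ J, A t, ∀ b ∈ ∑ t ∈ J, A t, a - b ∈ K := by
  intro a ha b hb
  rw [mem_sum_iff] at ha hb
  obtain ⟨f, hf, rfl⟩ := ha
  obtain ⟨g, hg, rfl⟩ := hb
  rw [← sum_sub_distrib]
  refine K.sum_mem fun i hi => ?_
  have h1 := h.ks.cls i (hJ hi) _ (hf i hi)
  have h2 := h.ks.cls i (hJ hi) _ (hg i hi)
  have : f i - g i = (f i - c i x) - (g i - c i x) := by abel
  rw [this]
  exact K.sub_mem h1 h2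

theorem XS.E_nonempty (h : XS c K P Q x A w) {J : Finset V} (hJ : J ⊆ P) :
    (∑ t ∈ J, A t).Nonempty :=
  sum_nonempty _ _ fun t ht => ⟨_, h.ks.base t (hJ ht)⟩

theorem XS.card_R (h : XS c K P Q x A w) {y v1 : V} (hy : y ∈ MM c K P Q x)
    (hv1 : v1 ∈ MM c K P Q x) (hne : v1 ≠ y) {R : Finset V} (hR : R ⊆ Q) :
    (((Pᶜ.erase y) \ R).erase v1).card + 1 + R.card + P.card = Fintype.card G ∧
    ((Pᶜ.erase y) \ R).card = (((Pᶜ.erase y) \ R).erase v1).card + 1 := by
  have h1 := h.cardN hy
  have hRP : ∀ r ∈ R, r ∉ P := fun r hr hrP => Finset.disjoint_left.1 h.ks.disj hrP (hR hr)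
  have hyR : y ∉ R := fun e => (mem_MM.1 hy).2.1 (hR e)
  have hv1R : v1 ∉ R := fun e => (mem_MM.1 hv1).2.1 (hR e)
  have hsub : R ⊆ Pᶜ.erase y := by
    intro r hr
    rw [mem_erase, mem_compl]
    exact ⟨fun e => hyR (e ▸ hr), hRP r hr⟩
  have h2 := card_sdiff_add_card_eq_card hsub
  have h3 : v1 ∈ (Pᶜ.erase y) \ R := by
    rw [mem_sdiff, mem_erase, mem_compl]
    exact ⟨⟨hne, (mem_MM.1 hv1).1⟩, hv1R⟩
  have h4 := card_erase_add_one h3
  omega

theorem XS.card_P_le (h : XS c K P Q x A w) :
    P.card ≤ ∑ t ∈ P.erase w, ((A t).card - 1) + 1 := by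
  rw [← card_erase_add_one h.hw]
  apply Nat.add_le_add_right
  rw [Finset.card_eq_sum_ones]
  apply Finset.sum_le_sum
  intro t ht
  have := h.ks.two t (mem_of_mem_erase ht)
  omega

/-- Case A1. -/
theorem XS.caseA1 (h : XS c K P Q x A w) {y v1 : V} (hy : y ∈ MM c K P Q x)
    (hv1 : v1 ∈ MM c K P Q x) (hne : v1 ≠ y) (hδ : c v1 w ∉ K) {R : Finset V} (hR : R ⊆ Q)
    (hRA : ∀ t ∈ P.erase w, A t ⊆ S c R t)
    (hRc : R.card ≤ ∑ t ∈ P.erase w, ((A t).card - 1) + 1) :
    P.card = ∑ t ∈ P.erase w, ((A t).card - 1) + 1 ∧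
    R.card = ∑ t ∈ P.erase w, ((A t).card - 1) + 1 ∧ ∑ r ∈ R, c r w = 0 := by
  classical
  have hsg := h.sg (P.erase w) (erase_subset _ _)
  have hEne := h.E_nonempty (J := P.erase w) (erase_subset _ _)
  obtain ⟨H, hHt, h1, -, h3, -⟩ := h.master hy hv1 hne hR (E := ∑ t ∈ P.erase w, A t)
    (S2 := {0}) hEne ⟨0, by simp⟩ (by
      intro e he s hs
      rw [mem_singleton] at hs
      rw [hs, add_zero]
      exact sum_sets_mono _ _ _ (fun t ht => (hRA t ht).trans (S_mono (subset_insert _ _) t)) he)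
  have hblock := block_card H hδ (h.coset (J := P.erase w) (erase_subset _ _))
  have hP := h.card_P_le
  obtain ⟨hn, -⟩ := h.card_R hy hv1 hne hR
  have hidx := fs_mul_index H
  set F := ∑ t ∈ P.erase w, ((A t).card - 1) with hF
  set e := (qim H (({0, c v1 w} : Finset G) + ∑ t ∈ P.erase w, A t)).card with he
  rcases eq_or_lt_of_le (bot_le : (⊥ : AddSubgroup G) ≤ H) with hH | hH
  · rw [← hH] at h1 hblock hidx
    rw [h.cnt_bot, index_bot'] at h1
    rw [fs_bot_card, ← hH] at *
    refine ⟨by omega, by omega, ?_⟩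
    by_contra hδR
    rw [pair_qim_bot (Ne.symm hδR)] at h1
    omega
  · exfalso
    have hc := h.count hy H hH hHt
    have hd := two_le_fs hH
    refine ac2 (d := (fs H).card) (e := e) (q := H.index) (by omega) h3 ?_
    rw [hidx]
    omega

end

end Pool.Agent.Lib.MP_12e153_co.Comp
end

section

/-!
# Lemma X, part 4: case A, completed
-/

set_option autoImplicit false
set_option linter.unusedSectionVars false

open Finset
open scoped Pointwise

namespace Pool.Agent.Lib.MP_12e153_co.Comp

open Pool.Agent.Kneser Pool.Agent.Lib.MP_12e153_co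

variable {V : Type*} [Fintype V] [DecidableEq V]
variable {G : Type*} [AddCommGroup G] [Fintype G] [DecidableEq G]
variable {c : V → V → G}

section
variable {K : AddSubgroup G} {P Q : Finset V} {x : V} {A : V → Finset G} {w : V}

/-- supporters of the colours of the leaves other than `w` -/
theorem XS.supp (h : XS c K P Q x A w) : ∃ R ⊆ Q, (∀ t ∈ P.erase w, A t ⊆ S c R t) ∧
    R.card ≤ ∑ t ∈ P.erase w, ((A t).card - 1) + 1 := by
  classical
  have : ∀ b : V, ∀ z : G, ∃ u : V, b ∈ P → z ∈ A b → u ∈ Q ∧ c b u = z := by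
    intro b z
    by_cases hb : b ∈ P
    · by_cases hx : z ∈ A b
      · obtain ⟨u, hu, hux⟩ := mem_S.1 (h.ks.sub b hb hx)
        exact ⟨u, fun _ _ => ⟨hu, hux⟩⟩
      · exact ⟨b, fun _ h => absurd h hx⟩
    · exact ⟨b, fun h => absurd h hb⟩
  choose φ hφ using this
  refine ⟨insert x ((P.erase w).biUnion (fun b => ((A b).erase (c b x)).image (φ b))),
    ?_, ?_, ?_⟩
  · intro u hu
    rw [mem_insert, mem_biUnion] at hu
    rcases hu with rfl | ⟨b, hb, hu⟩
    · exact h.ks.mem
    · rw [mem_image] at hu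
      obtain ⟨z, hz, rfl⟩ := hu
      exact (hφ b z (mem_of_mem_erase hb) (mem_erase.1 hz).2).1
  · intro b hb z hz
    rw [mem_S]
    by_cases hxq : z = c b x
    · exact ⟨x, mem_insert_self _ _, hxq.symm⟩
    · refine ⟨φ b z, ?_, (hφ b z (mem_of_mem_erase hb) hz).2⟩
      rw [mem_insert, mem_biUnion]
      exact Or.inr ⟨b, hb, mem_image_of_mem _ (mem_erase.2 ⟨hxq, hz⟩)⟩
  · refine (card_insert_le _ _).trans ?_
    apply Nat.add_le_add_right
    refine card_biUnion_le.trans ?_
    apply Finset.sum_le_sum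
    intro b hb
    refine card_image_le.trans ?_
    rw [card_erase_of_mem (h.ks.base b (mem_of_mem_erase hb))]

theorem XS.rc (h : XS c K P Q x A w) {r : V} (hr : r ∈ Q) : c r w ≠ 0 :=
  h.far' fun hrP => Finset.disjoint_left.1 h.ks.disj hrP hr

/-- Case A. -/
theorem XS.caseA (h : XS c K P Q x A w) {y v1 : V} (hy : y ∈ MM c K P Q x)
    (hv1 : v1 ∈ MM c K P Q x) (hne : v1 ≠ y) (hδ : c v1 w ∉ K) : False := by
  classical
  obtain ⟨R, hR, hRA, hRc⟩ := h.supp
  obtain ⟨hPF, -, -⟩ := h.caseA1 hy hv1 hne hδ hR hRA hRc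
  -- all leaves other than `w` have exactly two colours
  have hPe := card_erase_add_one h.hw
  have h2 : ∀ t ∈ P.erase w, (A t).card = 2 := by
    by_contra hcon
    push Not at hcon
    obtain ⟨t, ht, ht2⟩ := hcon
    have h3 : ∑ t ∈ P.erase w, 1 < ∑ t ∈ P.erase w, ((A t).card - 1) := by
      apply Finset.sum_lt_sum
      · intro i hi
        have := h.ks.two i (mem_of_mem_erase hi)
        omega
      · refine ⟨t, ht, ?_⟩
        have := h.ks.two t (mem_of_mem_erase ht)
        omega
    rw [← Finset.card_eq_sum_ones] at h3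
    omega
  have hex : ∀ t : V, ∃ q : V, t ∈ P.erase w → q ∈ Q ∧ A t = {c t x, c t q} ∧
      c t x ≠ c t q := by
    intro t
    by_cases ht : t ∈ P.erase w
    · have htP := mem_of_mem_erase ht
      have h3 := card_erase_of_mem (h.ks.base t htP)
      rw [h2 t ht] at h3
      obtain ⟨a, ha⟩ := card_eq_one.1 h3
      have haA : a ∈ (A t).erase (c t x) := by rw [ha]; simp
      rw [mem_erase] at haA
      obtain ⟨q, hq, hqa⟩ := mem_S.1 (h.ks.sub t htP haA.2)
      refine ⟨q, fun _ => ⟨hq, ?_, ?_⟩⟩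
      · rw [← insert_erase (h.ks.base t htP), ha, hqa]
      · rw [hqa]; exact haA.1.symm
    · exact ⟨t, fun h => absurd h ht⟩
  choose q hq using hex
  set F := ∑ t ∈ P.erase w, ((A t).card - 1) with hF
  have hFc : (P.erase w).card = F := by omega
  set R0 := insert x ((P.erase w).image q) with hR0
  have hR0Q : R0 ⊆ Q := by
    intro u hu
    rw [hR0, mem_insert, mem_image] at hu
    rcases hu with rfl | ⟨t, ht, rfl⟩
    · exact h.ks.mem
    · exact (hq t ht).1
  have hxR0 : x ∈ R0 := mem_insert_self _ _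
  have hqR0 : ∀ t ∈ P.erase w, q t ∈ R0 := fun t ht =>
    mem_insert_of_mem (mem_image_of_mem _ ht)
  have hi1 : R0.card ≤ ((P.erase w).image q).card + 1 := card_insert_le _ _
  have hi2 : ((P.erase w).image q).card ≤ (P.erase w).card := card_image_le
  obtain ⟨-, hR0c, hR0s⟩ := h.caseA1 hy hv1 hne hδ hR0Q (by
    intro t ht z hz
    rw [(hq t ht).2.1] at hz
    simp only [mem_insert, mem_singleton] at hz
    rw [mem_S]
    rcases hz with rfl | rfl
    · exact ⟨x, hxR0, rfl⟩
    · exact ⟨q t, hqR0 t ht, rfl⟩) (by omega)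
  rw [← hF] at hR0c
  have hqx : ∀ t ∈ P.erase w, q t ≠ x := by
    intro t ht e
    have : x ∈ (P.erase w).image q := e ▸ mem_image_of_mem _ ht
    rw [hR0, insert_eq_of_mem this] at hR0c
    omega
  have hqinj : Set.InjOn q (P.erase w) := by
    rw [← Finset.card_image_iff]
    omega
  have hxw := h.rc h.ks.mem
  by_cases hA2 : ∃ t0 ∈ P.erase w, ∃ u ∈ insert y (R0.erase (q t0)),
      ∃ u' ∈ insert y (R0.erase (q t0)), c t0 u ≠ c t0 u'
  · -- case A2a
    obtain ⟨t0, ht0, u, hu, u', hu', huu⟩ := hA2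
    have hR1Q : R0.erase (q t0) ⊆ Q := (erase_subset _ _).trans hR0Q
    have hq0R := hqR0 t0 ht0
    have hR1c : (R0.erase (q t0)).card = F := by rw [card_erase_of_mem hq0R]; omega
    have hJ : (P.erase w).erase t0 ⊆ P := (erase_subset _ _).trans (erase_subset _ _)
    have hsg := h.sg _ hJ
    have hsumF : ∑ t ∈ (P.erase w).erase t0, ((A t).card - 1) + 1 = F := by
      rw [hF, ← add_sum_erase _ _ ht0, h2 t0 ht0]
      omega
    rw [hsumF] at hsg
    have hAsub : ∀ t ∈ (P.erase w).erase t0, A t ⊆ S c (insert y (R0.erase (q t0))) t := by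
      intro t ht z hz
      rw [mem_erase] at ht
      rw [(hq t ht.2).2.1] at hz
      simp only [mem_insert, mem_singleton] at hz
      rw [mem_S]
      rcases hz with rfl | rfl
      · exact ⟨x, mem_insert_of_mem (mem_erase.2 ⟨(hqx t0 ht0).symm, hxR0⟩), rfl⟩
      · refine ⟨q t, mem_insert_of_mem (mem_erase.2 ⟨?_, hqR0 t ht.2⟩), rfl⟩
        intro e
        exact ht.1 (hqinj (by exact_mod_cast ht.2) (by exact_mod_cast ht0) e)
    have hdR : ∑ r ∈ R0.erase (q t0), c r w ≠ 0 := by
      intro e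
      have h5 := add_sum_erase R0 (fun r => c r w) hq0R
      rw [hR0s, e, add_zero] at h5
      exact h.rc (hR0Q hq0R) h5
    obtain ⟨H, hHt, h1, h1', h3, h3'⟩ := h.master hy hv1 hne hR1Q
      (E := ∑ t ∈ (P.erase w).erase t0, A t) (S2 := {c t0 u, c t0 u'}) (h.E_nonempty hJ)
      ⟨_, mem_insert_self _ _⟩ (by
        intro e he s hs
        rw [← add_sum_erase (P.erase w) _ ht0, add_comm]
        apply add_mem_add
        · exact sum_sets_mono _ _ _ hAsub he
        · rw [mem_S]
          simp only [mem_insert, mem_singleton] at hs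
          rcases hs with rfl | rfl
          · exact ⟨u, hu, rfl⟩
          · exact ⟨u', hu', rfl⟩)
    have hblock := block_card H hδ (h.coset hJ)
    obtain ⟨hn, hn'⟩ := h.card_R hy hv1 hne hR1Q
    have hidx := fs_mul_index H
    set E' := ∑ t ∈ (P.erase w).erase t0, A t with hE'
    set e := (qim H (({0, c v1 w} : Finset G) + E')).card with he
    rcases eq_or_lt_of_le (bot_le : (⊥ : AddSubgroup G) ≤ H) with hH | hH
    · rw [← hH] at h1 hblock hidx
      rw [h.cnt_bot, index_bot', pair_qim_bot (Ne.symm hdR), pair_qim_bot huu] at h1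
      rw [fs_bot_card, ← hH] at *
      omega
    · have hc := h.count hy H hH hHt
      have hd := two_le_fs hH
      have hq1 : H.index = e + 1 := by
        refine ac1 (d := (fs H).card) hd h3 ?_
        rw [hidx]
        omega
      by_cases hHK : H ≤ K
      · have hev := block_even H hHK hδ (h.coset hJ)
        rw [← hE', ← he] at hev
        have hmul := index_mul H K hHK
        have hk := h.hk
        have hk3 : 3 ≤ K.index := by
          by_contra hcon
          have : K.index = 2 := by omega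
          rw [this] at hmul
          omega
        have hm := h.hm
        have hm3 : (fs K).card * 3 ≤ Fintype.card G := by
          rw [← hm]; exact Nat.mul_le_mul_left _ hk3
        have hdh := fs_card_mono hHK
        have hP := h.hP
        omega
      · obtain ⟨g, hgH, hgK⟩ := SetLike.not_le_iff_exists.1 hHK
        have hb' := block_card' H hgH hgK (h.coset hJ)
        rw [← hE'] at hb'
        refine ac2 (d := (fs H).card) (by omega) h3' ?_
        rw [hidx]
        omega
  · -- case A2b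
    push Not at hA2
    have hR1Q : R0.erase x ⊆ Q := (erase_subset _ _).trans hR0Q
    have hR1c : (R0.erase x).card = F := by rw [card_erase_of_mem hxR0]; omega
    have hJ : P.erase w ⊆ P := erase_subset _ _
    have hsg := h.sg _ hJ
    have hAsub : ∀ t ∈ P.erase w, A t ⊆ S c (insert y (R0.erase x)) t := by
      intro t ht z hz
      rw [(hq t ht).2.1] at hz
      simp only [mem_insert, mem_singleton] at hz
      rw [mem_S]
      rcases hz with rfl | rfl
      · exact ⟨y, mem_insert_self _ _, hA2 t ht y (mem_insert_self _ _) x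
          (mem_insert_of_mem (mem_erase.2 ⟨(hqx t ht).symm, hxR0⟩))⟩
      · exact ⟨q t, mem_insert_of_mem (mem_erase.2 ⟨hqx t ht, hqR0 t ht⟩), rfl⟩
    have hdR : ∑ r ∈ R0.erase x, c r w ≠ 0 := by
      intro e
      have h5 := add_sum_erase R0 (fun r => c r w) hxR0
      rw [hR0s, e, add_zero] at h5
      exact hxw h5
    obtain ⟨H, hHt, h1, h1', h3, h3'⟩ := h.master hy hv1 hne hR1Q
      (E := ∑ t ∈ P.erase w, A t) (S2 := {0}) (h.E_nonempty hJ)
      ⟨0, by simp⟩ (by
        intro e he s hs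
        rw [mem_singleton] at hs
        rw [hs, add_zero]
        exact sum_sets_mono _ _ _ hAsub he)
    have hblock := block_card H hδ (h.coset hJ)
    obtain ⟨hn, hn'⟩ := h.card_R hy hv1 hne hR1Q
    have hidx := fs_mul_index H
    set E' := ∑ t ∈ P.erase w, A t with hE'
    set e := (qim H (({0, c v1 w} : Finset G) + E')).card with he
    rcases eq_or_lt_of_le (bot_le : (⊥ : AddSubgroup G) ≤ H) with hH | hH
    · rw [← hH] at h1 hblock hidx
      rw [h.cnt_bot, index_bot', pair_qim_bot (Ne.symm hdR)] at h1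
      rw [fs_bot_card, ← hH] at *
      omega
    · have hc := h.count hy H hH hHt
      have hd := two_le_fs hH
      refine ac2 (d := (fs H).card) (by omega) h3 ?_
      rw [hidx]
      omega

end

end Pool.Agent.Lib.MP_12e153_co.Comp
end
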