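import Pool.Agent.Lib.MP_12e153_co.Steps

section

/-!
Rigidity of sets of four vertices to which every other vertex sends at least two colours.
-/

set_option autoImplicit false
set_option linter.unusedSectionVars false

namespace Pool.Agent.Lib.MP_12e153_co

open Finset

variable {V : Type*} [Fintype V] [DecidableEq V] {p : ℕ} {c : V → V → ZMod p}

/-- The vertices `u` outside `Q` and different from `b` for which the colour of `b u` is none of
the colours from `b` to `Q`. -/
def R (c : V → V → ZMod p) (Q : Finset V) (b : V) : Finset V :=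
  (Qᶜ.erase b).filter fun u => c b u ∉ S c Q b

theorem S_insert (Q : Finset V) (b u : V) : S c (insert u Q) b = insert (c b u) (S c Q b) := by
  unfold S
  rw [image_insert]

theorem F_insert {Q : Finset V} (hQ : Q.Nonempty) {u : V} (hu : u ∉ Q) :
    F c (insert u Q) + ((S c Q u).card - 1) =
      F c Q + ((Qᶜ.erase u).filter fun b => c b u ∉ S c Q b).card := by
  have e1 : (insert u Q)ᶜ = Qᶜ.erase u := by
    ext b; simp
  have e2 : F c Q = ∑ b ∈ Qᶜ.erase u, ((S c Q b).card - 1) + ((S c Q u).card - 1) := by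
    unfold F
    rw [sum_erase_add _ _ (mem_compl.2 hu)]
  have e3 : F c (insert u Q) = ∑ b ∈ Qᶜ.erase u, ((S c Q b).card - 1) +
      ((Qᶜ.erase u).filter fun b => c b u ∉ S c Q b).card := by
    unfold F
    rw [e1, card_filter, ← sum_add_distrib]
    apply sum_congr rfl
    intro b _
    rw [S_insert]
    have hpos : 1 ≤ (S c Q b).card := (hQ.image _).card_pos
    by_cases hb : c b u ∈ S c Q b
    · rw [insert_eq_of_mem hb]
      simp [hb]
    · rw [card_insert_of_notMem hb]
      simp only [hb, not_false_eq_true, if_true]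
      omega
  omega

theorem sum_R (Q : Finset V) :
    ∑ u ∈ Qᶜ, ((Qᶜ.erase u).filter fun b => c b u ∉ S c Q b).card = ∑ b ∈ Qᶜ, (R c Q b).card := by
  unfold R
  have e : ∀ u ∈ Qᶜ, ((Qᶜ.erase u).filter fun b => c b u ∉ S c Q b).card =
      ∑ b ∈ Qᶜ, if b ≠ u ∧ c b u ∉ S c Q b then 1 else 0 := by
    intro u _
    rw [← card_filter]
    congr 1
    ext b
    simp only [mem_filter, mem_erase, mem_compl]
    tauto
  have e' : ∀ b ∈ Qᶜ, ((Qᶜ.erase b).filter fun u => c b u ∉ S c Q b).card =
      ∑ u ∈ Qᶜ, if b ≠ u ∧ c b u ∉ S c Q b then 1 else 0 := by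
    intro b _
    rw [← card_filter]
    congr 1
    ext u
    simp only [mem_filter, mem_erase, mem_compl, ne_comm (a := u)]
    tauto
  rw [sum_congr rfl e, sum_congr rfl e', sum_comm]

theorem Bad.rigid_card [Fact p.Prime] (h : Bad c) (hp : 7 ≤ p) {Q : Finset V} (hQ : Q.card = 4)
    (h2 : ∀ b, b ∉ Q → 2 ≤ (S c Q b).card)
    (hR : ∀ b, b ∉ Q → (S c Q b).card = 2 → 2 ≤ (R c Q b).card) :
    ∀ u, u ∉ Q → (B c (insert u Q)).card ≤ 1 := by
  have hQn : Q.Nonempty := card_pos.1 (by omega)
  have hk : Qᶜ.card + 4 = p + 1 := by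
    rw [← h.card, ← hQ, add_comm]
    exact card_add_card_compl Q
  set k := Qᶜ.card with hkdef
  have s0 := star h.nz hQn
  have b0 := card_B_pos (c := c) hQn
  have f0 : k ≤ F c Q := by
    unfold F
    calc k = ∑ b ∈ Qᶜ, 1 := by simp [hkdef]
      _ ≤ _ := by
        apply sum_le_sum
        intro b hb
        have := h2 b (mem_compl.1 hb)
        omega
  have hu : ∀ u ∈ Qᶜ, (B c (insert u Q)).card + F c Q +
      ((Qᶜ.erase u).filter fun b => c b u ∉ S c Q b).card + 1 ≤ p + ((S c Q u).card - 1) := by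
    intro u hu
    have h1 := star h.nz (Q := insert u Q) (insert_nonempty _ _)
    have h3 := F_insert (c := c) hQn (mem_compl.1 hu)
    omega
  have hsum := sum_le_sum hu
  rw [sum_add_distrib, sum_add_distrib, sum_add_distrib, sum_add_distrib, sum_R, sum_const,
    sum_const, sum_const, ← hkdef] at hsum
  have hFsum : ∑ u ∈ Qᶜ, ((S c Q u).card - 1) = F c Q := rfl
  rw [hFsum] at hsum
  have hRsum : 4 * k ≤ ∑ b ∈ Qᶜ, (R c Q b).card + 2 * F c Q := by
    unfold F
    rw [mul_sum, ← sum_add_distrib]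
    calc 4 * k = ∑ b ∈ Qᶜ, 4 := by simp [hkdef, mul_comm]
      _ ≤ _ := by
        apply sum_le_sum
        intro b hb
        have h3 := h2 b (mem_compl.1 hb)
        by_cases h4 : (S c Q b).card = 2
        · have := hR b (mem_compl.1 hb) h4
          omega
        · omega
  have hBsum : k ≤ ∑ u ∈ Qᶜ, (B c (insert u Q)).card := by
    calc k = ∑ b ∈ Qᶜ, 1 := by simp [hkdef]
      _ ≤ _ := sum_le_sum fun u _ => card_B_pos (insert_nonempty _ _)
  have hF : F c Q = k ∨ F c Q = k + 1 := by omega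
  simp only [smul_eq_mul, mul_one] at hsum
  have hp' : p = k + 3 := by omega
  have hkp : k * p = k * (k + 3) := congrArg (fun t => k * t) hp'
  rcases hF with hF | hF
  · rw [hF, hkp] at hsum
    rw [hF] at hRsum
    have hle : ∑ u ∈ Qᶜ, (B c (insert u Q)).card ≤ k := by
      have : k * (k + 3) = k * k + 3 * k := by ring
      omega
    intro u hu'
    by_contra hcon
    have hlt : ∑ u ∈ Qᶜ, 1 < ∑ u ∈ Qᶜ, (B c (insert u Q)).card :=
      sum_lt_sum (fun u _ => card_B_pos (insert_nonempty _ _)) ⟨u, mem_compl.2 hu', by omega⟩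
    rw [sum_const, smul_eq_mul, mul_one] at hlt
    omega
  · exfalso
    rw [hF, hkp] at hsum
    rw [hF] at hRsum
    have e1 : k * (k + 3) = k * k + 3 * k := by ring
    have e2 : k * (k + 1) = k * k + k := by ring
    omega

/-- Rigidity. -/
theorem Bad.rigid [Fact p.Prime] (h : Bad c) (hp : 7 ≤ p) {Q : Finset V} (hQ : Q.card = 4)
    (h2 : ∀ b, b ∉ Q → 2 ≤ (S c Q b).card)
    (hR : ∀ b, b ∉ Q → (S c Q b).card = 2 → 2 ≤ (R c Q b).card)
    {q u u' : V} (hq : q ∈ Q) (hu : u ∉ Q) (hu' : u' ∉ Q) : c q u = c q u' := by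
  have hB := h.rigid_card hp hQ h2 hR
  have key : ∀ u, u ∉ Q → ∀ q ∈ Q, ∑ r ∈ Q, c q r + c q u = ∑ r ∈ Q, c u r := by
    intro u hu q hq
    have h1 := card_le_one.1 (hB u hu) _ (mem_B h.diag (mem_insert_of_mem hq)) _
      (mem_B h.diag (mem_insert_self u Q))
    rw [sum_insert hu, sum_insert hu, h.diag, zero_add] at h1
    rw [← h1, add_comm]
  have key2 : ∀ u, u ∉ Q → 3 * ∑ r ∈ Q, c u r = ∑ q ∈ Q, ∑ r ∈ Q, c q r := by
    intro u hu
    have h1 := sum_congr rfl (key u hu)
    rw [sum_add_distrib, sum_const, hQ, nsmul_eq_mul] at h1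
    rw [sum_congr rfl fun q _ => h.symm q u] at h1
    push_cast at h1
    linear_combination -h1
  have h3 : (3 : ZMod p) ≠ 0 := by
    intro h0
    have h1 : ((3 : ℕ) : ZMod p) = 0 := by exact_mod_cast h0
    rw [CharP.cast_eq_zero_iff (ZMod p) p] at h1
    have := Nat.le_of_dvd (by norm_num) h1
    omega
  have h4 : ∑ r ∈ Q, c u r = ∑ r ∈ Q, c u' r := by
    apply mul_left_cancel₀ h3
    rw [key2 u hu, key2 u' hu']
  have h5 := key u hu q hq
  have h6 := key u' hu' q hq
  rw [h4, ← h6] at h5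
  exact add_left_cancel h5

theorem R_of_four {Q : Finset V} {b : V} (hC : 4 ≤ (C c b).card)
    (h2 : (S c Q b).card = 2) : 2 ≤ (R c Q b).card := by
  have h1 : C c b \ S c Q b ⊆ (R c Q b).image (c b) := by
    intro j hj
    obtain ⟨hj1, hj2⟩ := mem_sdiff.1 hj
    obtain ⟨u, hu, rfl⟩ := exists_of_mem_C hj1
    apply mem_image_of_mem
    unfold R
    rw [mem_filter, mem_erase, mem_compl]
    exact ⟨⟨hu, fun hq => hj2 (mem_image_of_mem _ hq)⟩, hj2⟩
  have h3 := card_le_card h1
  have h4 : ((R c Q b).image (c b)).card ≤ (R c Q b).card := card_image_le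
  have h5 : (C c b).card ≤ (C c b \ S c Q b).card + (S c Q b).card :=
    card_le_card_sdiff_add_card
  omega

theorem R_of_three [Fact p.Prime] (h : Bad c) {Q : Finset V} {b : V}
    (h2 : (S c Q b).card = 2) : 2 ≤ (R c Q b).card := by
  by_cases hC : 4 ≤ (C c b).card
  · exact R_of_four hC h2
  · have h3 : (C c b).card = 3 := by
      have := h.stepA b
      omega
    have h5 : (C c b).card ≤ (C c b \ S c Q b).card + (S c Q b).card :=
      card_le_card_sdiff_add_card
    obtain ⟨j, hj⟩ : (C c b \ S c Q b).Nonempty := card_pos.1 (by omega)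
    obtain ⟨hj1, hj2⟩ := mem_sdiff.1 hj
    obtain ⟨u, hu, rfl⟩ := exists_of_mem_C hj1
    have hl := h.lemma1 h3 u
    unfold Lone at hl
    push Not at hl
    obtain ⟨u', hu', hc, hne⟩ := hl hu
    have m1 : u ∈ R c Q b := by
      unfold R
      rw [mem_filter, mem_erase, mem_compl]
      exact ⟨⟨hu, fun hq => hj2 (mem_image_of_mem _ hq)⟩, hj2⟩
    have m2 : u' ∈ R c Q b := by
      unfold R
      rw [mem_filter, mem_erase, mem_compl]
      refine ⟨⟨hu', fun hq => hj2 ?_⟩, hc ▸ hj2⟩
      rw [← hc]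
      exact mem_image_of_mem _ hq
    have : 1 < (R c Q b).card := one_lt_card.2 ⟨u, m1, u', m2, hne.symm⟩
    omega

end Pool.Agent.Lib.MP_12e153_co
end

section

/-!
Every vertex sees at least four colours, and if it sees exactly four, at most one of them occurs
only once.
-/

set_option autoImplicit false
set_option linter.unusedSectionVars false

namespace Pool.Agent.Lib.MP_12e153_co

open Finset

variable {V : Type*} [Fintype V] [DecidableEq V] {p : ℕ} {c : V → V → ZMod p}

/-- The number of edges of colour `j` at `x`. -/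
def deg (c : V → V → ZMod p) (x : V) (j : ZMod p) : ℕ :=
  ((univ.erase x).filter fun u => c x u = j).card

theorem deg_pos {x : V} {j : ZMod p} (h : j ∈ C c x) : 1 ≤ deg c x j := by
  obtain ⟨u, hu, rfl⟩ := exists_of_mem_C h
  exact card_pos.2 ⟨u, by simp [hu]⟩

theorem sum_deg (hN : Fintype.card V = p + 1) (x : V) : ∑ j ∈ C c x, deg c x j = p := by
  have h1 := card_eq_sum_card_image (c x) (univ.erase x)
  rw [card_erase_of_mem (mem_univ _), card_univ, hN] at h1
  simp only [Nat.add_sub_cancel] at h1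
  exact h1.symm

theorem two_le_deg_of_not_lone {x : V} {j : ZMod p} (hj : j ∈ C c x)
    (hl : ∀ b, b ≠ x → c x b = j → ¬ Lone c x b) : 2 ≤ deg c x j := by
  obtain ⟨u, hu, rfl⟩ := exists_of_mem_C hj
  have h1 := hl u hu rfl
  unfold Lone at h1
  push Not at h1
  obtain ⟨u', hu', hc, hne⟩ := h1 hu
  have : 1 < deg c x (c x u) := one_lt_card.2 ⟨u, by simp [hu], u', by simp [hu', hc], hne.symm⟩
  omega

theorem lone_of_deg_le_one {x b : V} (hb : b ≠ x) (h : deg c x (c x b) ≤ 1) : Lone c x b := by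
  refine ⟨hb, fun u hu hc => ?_⟩
  exact card_le_one.1 h u (by simp [hu, hc]) b (by simp [hb])

theorem Bad.stepC_aux [Fact p.Prime] (h : Bad c) {v : V} {i1 i2 i3 : ZMod p}
    (hcol : ∀ b, b ≠ v → c v b = i1 ∨ c v b = i2 ∨ c v b = i3) {w w' : V}
    (hw1 : Far c v i1 w) (hw2 : Far c v i2 w) (hw3 : Far c v i3 w') : False := by
  have hc : c v w = i3 := by
    rcases hcol w hw1.1 with e | e | e
    · exact absurd e hw1.2.1
    · exact absurd e hw2.2.1
    · exact e
  have h4 := h.small0 (Q := {v, w, w'}) (by simp) (by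
    intro b hb
    have hbv : b ≠ v := fun e => hb (by simp [e])
    rcases hcol b hbv with e | e | e
    · exact hw1.two_le h (by simp) (by simp) hb e
    · exact hw2.two_le h (by simp) (by simp) hb e
    · exact hw3.two_le h (by simp) (by simp) hb e)
  have h5 : ({v, w, w'} : Finset V).card ≤ 3 := card_le_three
  have h6 : 2 ≤ (B c {v, w, w'}).card := by
    apply tri_two h.symm h.diag hw1.1.symm hw3.1.symm
    rw [hc]
    exact hw3.2.1.symm
  omega

/-- Each vertex sees at least four colours. -/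
theorem Bad.stepC [Fact p.Prime] (h : Bad c) (v : V) : 4 ≤ (C c v).card := by
  by_contra hcon
  have hC : (C c v).card = 3 := by
    have := h.stepA v
    omega
  have hdeg : ∀ j ∈ C c v, 2 ≤ deg c v j := fun j hj =>
    two_le_deg_of_not_lone hj fun b _ _ => h.lemma1 hC b
  have hp6 : 6 ≤ p := by
    have h1 := sum_deg (c := c) h.card v
    have h2 := sum_le_sum hdeg
    rw [h1, sum_const, hC, smul_eq_mul] at h2
    omega
  have hp : 7 ≤ p := by
    rcases hp6.lt_or_eq with h1 | h1
    · omega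
    · exfalso
      have : ¬ Nat.Prime p := by rw [← h1]; decide
      exact this Fact.out
  obtain ⟨i1, i2, i3, h12, h13, h23, hCe⟩ := card_eq_three.1 hC
  have hcol : ∀ b, b ≠ v → c v b = i1 ∨ c v b = i2 ∨ c v b = i3 := by
    intro b hb
    have : c v b ∈ C c v := mem_C hb
    rw [hCe] at this
    simpa using this
  obtain ⟨w1, hw1⟩ := h.far v i1
  obtain ⟨w2, hw2⟩ := h.far v i2
  obtain ⟨w3, hw3⟩ := h.far v i3
  have n12 : w1 ≠ w2 := by
    rintro rfl
    exact h.stepC_aux hcol hw1 hw2 hw3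
  have n13 : w1 ≠ w3 := by
    rintro rfl
    exact h.stepC_aux (i1 := i1) (i2 := i3) (i3 := i2) (fun b hb => by
      rcases hcol b hb with e | e | e <;> simp [e]) hw1 hw3 hw2
  have n23 : w2 ≠ w3 := by
    rintro rfl
    exact h.stepC_aux (i1 := i2) (i2 := i3) (i3 := i1) (fun b hb => by
      rcases hcol b hb with e | e | e <;> simp [e]) hw2 hw3 hw1
  have hQ : ({v, w1, w2, w3} : Finset V).card = 4 := by
    rw [card_insert_of_notMem, card_insert_of_notMem, card_pair n23]
    · simp [n12, n13]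
    · simp [hw1.1.symm, hw2.1.symm, hw3.1.symm]
  have hS : ∀ b, b ∉ ({v, w1, w2, w3} : Finset V) →
      2 ≤ (S c ({v, w1, w2, w3} : Finset V) b).card := by
    intro b hb
    have hbv : b ≠ v := fun e => hb (by simp [e])
    rcases hcol b hbv with e | e | e
    · exact hw1.two_le h (by simp) (by simp) hb e
    · exact hw2.two_le h (by simp) (by simp) hb e
    · exact hw3.two_le h (by simp) (by simp) hb e
  have hrig : ∀ u u' : V, u ∉ ({v, w1, w2, w3} : Finset V) → u' ∉ ({v, w1, w2, w3} : Finset V) →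
      c v u = c v u' := by
    intro u u' hu hu'
    exact h.rigid hp hQ hS (fun b _ h2 => R_of_three h h2) (by simp) hu hu'
  obtain ⟨u, hu⟩ : ∃ u, u ∉ ({v, w1, w2, w3} : Finset V) := by
    by_contra hcc
    push Not at hcc
    have h1 : (univ : Finset V) ⊆ {v, w1, w2, w3} := fun u _ => hcc u
    have h2 := card_le_card h1
    rw [card_univ, h.card, hQ] at h2
    omega
  have huv : u ≠ v := fun e => hu (by simp [e])
  -- the colours other than that of `v u` live on `w1, w2, w3`
  have h1 : ((C c v).erase (c v u)).card = 2 := by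
    rw [card_erase_of_mem (mem_C huv), hC]
  have h2 : ∑ j ∈ (C c v).erase (c v u), 2 ≤ ∑ j ∈ (C c v).erase (c v u),
      ((({w1, w2, w3} : Finset V).filter fun x => c v x ≠ c v u).filter
        fun x => c v x = j).card := by
    apply sum_le_sum
    intro j hj
    obtain ⟨hj1, hj2⟩ := mem_erase.1 hj
    refine (hdeg j hj2).trans (card_le_card ?_)
    intro x hx
    obtain ⟨hx1, hx2⟩ := mem_filter.1 hx
    have hxv : x ≠ v := (mem_erase.1 hx1).1
    rw [mem_filter, mem_filter]
    refine ⟨⟨?_, by rw [hx2]; exact hj1⟩, hx2⟩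
    by_contra hxx
    apply hj1
    rw [← hx2]
    apply hrig
    · simp only [mem_insert, mem_singleton, not_or] at hxx ⊢
      exact ⟨hxv, hxx⟩
    · exact hu
  rw [← card_eq_sum_card_fiberwise (f := c v)
    (s := ({w1, w2, w3} : Finset V).filter fun x => c v x ≠ c v u)
    (t := (C c v).erase (c v u))] at h2
  · rw [sum_const, h1, smul_eq_mul] at h2
    have h3 := card_filter_le ({w1, w2, w3} : Finset V) fun x => c v x ≠ c v u
    have h4 : ({w1, w2, w3} : Finset V).card ≤ 3 := card_le_three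
    omega
  · intro x hx
    have hx' := mem_filter.1 (mem_coe.1 hx)
    apply mem_coe.2
    apply mem_erase.2
    refine ⟨hx'.2, mem_C ?_⟩
    have := hx'.1
    simp only [mem_insert, mem_singleton] at this
    rcases this with e | e | e
    · rw [e]; exact hw1.1
    · rw [e]; exact hw2.1
    · rw [e]; exact hw3.1

theorem Bad.lemma3_aux [Fact p.Prime] (h : Bad c) {x b3 b4 z2 : V} {i1 i2 : ZMod p}
    (hC : (C c x).card = 4) (h3 : Lone c x b3) (h4 : Lone c x b4) (h34 : b3 ≠ b4) (h12 : i1 ≠ i2)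
    (hi1 : i1 ∈ C c x) (hi2 : i2 ∈ C c x) (hi13 : i1 ≠ c x b3) (hi14 : i1 ≠ c x b4)
    (hi23 : i2 ≠ c x b3) (hi24 : i2 ≠ c x b4)
    (hcol : ∀ b, b ≠ x → b ≠ b3 → b ≠ b4 → c x b = i1 ∨ c x b = i2)
    (hz1 : Far c x i1 b3) (hz2 : Far c x i2 z2) : False := by
  have c34 : c x b3 ≠ c x b4 := fun e => h34 (h4.2 b3 h3.1 e)
  have hlone : ∀ b, b ≠ x → b ≠ b3 → b ≠ b4 → ¬ Lone c x b := by
    intro b hb hb3 hb4 hl
    exact h.lemma2 hC h3 h4 hl h34 hb3.symm hb4.symm
  by_cases hz : z2 = b3 ∨ z2 = b4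
  · have h4' := h.small0 (Q := {x, b3, b4}) (by simp) (by
      intro b hb
      have hbx : b ≠ x := fun e => hb (by simp [e])
      have hb3 : b ≠ b3 := fun e => hb (by simp [e])
      have hb4 : b ≠ b4 := fun e => hb (by simp [e])
      rcases hcol b hbx hb3 hb4 with e | e
      · exact hz1.two_le h (by simp) (by simp) hb e
      · exact hz2.two_le h (by simp) (by rcases hz with e' | e' <;> simp [e']) hb e)
    have h5 : ({x, b3, b4} : Finset V).card ≤ 3 := card_le_three
    have h6 : 2 ≤ (B c {x, b3, b4}).card := tri_two h.symm h.diag h3.1.symm h4.1.symm c34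
    omega
  · push Not at hz
    have hc2 : c x z2 = i1 := (hcol z2 hz2.1 hz.1 hz.2).resolve_right hz2.2.1
    have hQ : ({x, b3, z2, b4} : Finset V).card = 4 := by
      rw [card_insert_of_notMem, card_insert_of_notMem, card_pair hz.2]
      · simp [h34, hz.1.symm]
      · simp [h3.1.symm, hz2.1.symm, h4.1.symm]
    have hS : ∀ b, b ∉ ({x, b3, z2, b4} : Finset V) →
        2 ≤ (S c ({x, b3, z2, b4} : Finset V) b).card := by
      intro b hb
      have hbx : b ≠ x := fun e => hb (by simp [e])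
      have hb3 : b ≠ b3 := fun e => hb (by simp [e])
      have hb4 : b ≠ b4 := fun e => hb (by simp [e])
      rcases hcol b hbx hb3 hb4 with e | e
      · exact hz1.two_le h (by simp) (by simp) hb e
      · exact hz2.two_le h (by simp) (by simp) hb e
    have hd1 : 2 ≤ deg c x i1 := by
      apply two_le_deg_of_not_lone hi1
      intro b hb hbc
      exact hlone b hb (fun e => hi13 (by rw [← hbc, e])) (fun e => hi14 (by rw [← hbc, e]))
    have hd2 : 2 ≤ deg c x i2 := by
      apply two_le_deg_of_not_lone hi2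
      intro b hb hbc
      exact hlone b hb (fun e => hi23 (by rw [← hbc, e])) (fun e => hi24 (by rw [← hbc, e]))
    have hp6 : 6 ≤ p := by
      have e1 := sum_deg (c := c) h.card x
      have e2 : ∑ j ∈ ({i1, i2, c x b3, c x b4} : Finset (ZMod p)), deg c x j ≤
          ∑ j ∈ C c x, deg c x j := by
        apply sum_le_sum_of_subset
        intro j hj
        simp only [mem_insert, mem_singleton] at hj
        rcases hj with e | e | e | e
        · rw [e]; exact hi1
        · rw [e]; exact hi2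
        · rw [e]; exact mem_C h3.1
        · rw [e]; exact mem_C h4.1
      rw [sum_insert (by simp [h12, hi13, hi14]), sum_insert (by simp [hi23, hi24]),
        sum_insert (by simp [c34]), sum_singleton, e1] at e2
      have e3 := deg_pos (mem_C (c := c) h3.1)
      have e4 := deg_pos (mem_C (c := c) h4.1)
      omega
    have hp : 7 ≤ p := by
      rcases hp6.lt_or_eq with h1 | h1
      · omega
      · exfalso
        have : ¬ Nat.Prime p := by rw [← h1]; decide
        exact this Fact.out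
    -- a second vertex of colour `i1`
    have hl := hlone z2 hz2.1 hz.1 hz.2
    unfold Lone at hl
    push Not at hl
    obtain ⟨u, hu, huc, hune⟩ := hl hz2.1
    obtain ⟨u', hu', hu'c⟩ := exists_of_mem_C hi2
    have m1 : u ∉ ({x, b3, z2, b4} : Finset V) := by
      simp only [mem_insert, mem_singleton, not_or]
      refine ⟨hu, ?_, hune, ?_⟩
      · rintro rfl; exact hi13 (by rw [huc, hc2])
      · rintro rfl; exact hi14 (by rw [huc, hc2])
    have m2 : u' ∉ ({x, b3, z2, b4} : Finset V) := by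
      simp only [mem_insert, mem_singleton, not_or]
      refine ⟨hu', ?_, ?_, ?_⟩
      · rintro rfl; exact hi23 hu'c.symm
      · rintro rfl; exact h12 (by rw [← hu'c, hc2])
      · rintro rfl; exact hi24 hu'c.symm
    have := h.rigid hp hQ hS (fun b _ h2 => R_of_four (h.stepC b) h2) (by simp : x ∈ _) m1 m2
    apply h12
    rw [← hc2, ← huc, this, hu'c]

/-- At a vertex seeing exactly four colours at most one of them occurs only once. -/
theorem Bad.lemma3 [Fact p.Prime] (h : Bad c) {x b3 b4 : V}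
    (hC : (C c x).card = 4) (h3 : Lone c x b3) (h4 : Lone c x b4) : b3 = b4 := by
  by_contra h34
  have c34 : c x b3 ≠ c x b4 := fun e => h34 (h4.2 b3 h3.1 e)
  have hcard : (((C c x).erase (c x b3)).erase (c x b4)).card = 2 := by
    rw [card_erase_of_mem, card_erase_of_mem, hC]
    · exact mem_C h3.1
    · exact mem_erase.2 ⟨c34.symm, mem_C h4.1⟩
  obtain ⟨i1, i2, h12, heq⟩ := card_eq_two.1 hcard
  have hi1 : i1 ≠ c x b4 ∧ i1 ≠ c x b3 ∧ i1 ∈ C c x := by
    have : i1 ∈ ((C c x).erase (c x b3)).erase (c x b4) := by rw [heq]; simp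
    simpa [mem_erase] using this
  have hi2 : i2 ≠ c x b4 ∧ i2 ≠ c x b3 ∧ i2 ∈ C c x := by
    have : i2 ∈ ((C c x).erase (c x b3)).erase (c x b4) := by rw [heq]; simp
    simpa [mem_erase] using this
  have hcol : ∀ b, b ≠ x → b ≠ b3 → b ≠ b4 → c x b = i1 ∨ c x b = i2 := by
    intro b hb e3 e4
    have : c x b ∈ ((C c x).erase (c x b3)).erase (c x b4) :=
      mem_erase.2 ⟨fun e => e4 (h4.2 b hb e), mem_erase.2 ⟨fun e => e3 (h3.2 b hb e), mem_C hb⟩⟩
    rw [heq] at this
    simpa using this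
  obtain ⟨z1, hz1⟩ := h.far x i1
  obtain ⟨z2, hz2⟩ := h.far x i2
  by_cases a1 : z1 = b3
  · subst a1
    exact h.lemma3_aux hC h3 h4 h34 h12 hi1.2.2 hi2.2.2 hi1.2.1 hi1.1 hi2.2.1 hi2.1 hcol hz1 hz2
  by_cases a2 : z1 = b4
  · subst a2
    exact h.lemma3_aux hC h4 h3 (Ne.symm h34) h12 hi1.2.2 hi2.2.2 hi1.1 hi1.2.1 hi2.1 hi2.2.1
      (fun b e1 e2 e3 => hcol b e1 e3 e2) hz1 hz2
  by_cases a3 : z2 = b3
  · subst a3
    exact h.lemma3_aux hC h3 h4 h34 h12.symm hi2.2.2 hi1.2.2 hi2.2.1 hi2.1 hi1.2.1 hi1.1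
      (fun b e1 e2 e3 => (hcol b e1 e2 e3).symm) hz2 hz1
  by_cases a4 : z2 = b4
  · subst a4
    exact h.lemma3_aux hC h4 h3 (Ne.symm h34) h12.symm hi2.2.2 hi1.2.2 hi2.1 hi2.2.1 hi1.1 hi1.2.1
      (fun b e1 e2 e3 => (hcol b e1 e3 e2).symm) hz2 hz1
  have hc1 : c x z1 = i2 := (hcol z1 hz1.1 a1 a2).resolve_left hz1.2.1
  have hc2 : c x z2 = i1 := (hcol z2 hz2.1 a3 a4).resolve_right hz2.2.1
  have hzz : z1 ≠ z2 := fun e => h12 (by rw [← hc2, ← e, hc1])
  have k1 : c z1 z2 ≠ i1 := hz1.2.2 z2 hz2.1 (Ne.symm hzz) hc2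
  have k2 : c z1 z2 ≠ i2 := by
    rw [h.symm]
    exact hz2.2.2 z1 hz1.1 hzz hc1
  -- the two lone vertices are seen in one colour
  have key : ∀ b b' : V, b ≠ x → b' ≠ x → b ≠ z1 → b ≠ z2 → b' ≠ z1 → b' ≠ z2 → b ≠ b' →
      (∀ u, u ≠ x → u ≠ b → u ≠ b' → c x u = i1 ∨ c x u = i2) →
      c b z1 = c b x ∧ c b z2 = c b x := by
    intro b b' hb hb' hb1 hb2 hb1' hb2' hbb hcol
    by_contra hne
    have h5 := h.small1 (Q := {x, z1, z2}) (by simp) b' (by
      intro u hu hub'
      have hux : u ≠ x := fun e => hu (by simp [e])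
      by_cases hub : u = b
      · subst hub
        by_cases e1 : c u z1 = c u x
        · exact two_le_card_S (q := z2) (q' := x) (by simp) (by simp) fun e => hne ⟨e1, e⟩
        · exact two_le_card_S (q := z1) (q' := x) (by simp) (by simp) e1
      · rcases hcol u hux hub hub' with e | e
        · exact hz1.two_le h (by simp) (by simp) hu e
        · exact hz2.two_le h (by simp) (by simp) hu e)
    have h6 : ({x, z1, z2} : Finset V).card ≤ 3 := card_le_three
    have h7 : 3 ≤ (B c {x, z1, z2}).card := by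
      apply tri_three h.symm h.diag hz1.1.symm hz2.1.symm
      · rw [hc1, hc2]; exact h12.symm
      · rw [hc1]; exact k2
      · rw [hc2]; exact k1
    omega
  have key3 := key b3 b4 h3.1 h4.1 (Ne.symm a1) (Ne.symm a3) (Ne.symm a2) (Ne.symm a4) h34 hcol
  have key4 := key b4 b3 h4.1 h3.1 (Ne.symm a2) (Ne.symm a4) (Ne.symm a1) (Ne.symm a3)
    (Ne.symm h34) (fun u e1 e2 e3 => hcol u e1 e3 e2)
  have last : ∀ b b' : V, b ≠ x → b' ≠ x → b ≠ z1 → b ≠ z2 → b' ≠ z1 → b' ≠ z2 → b ≠ b' →
      (∀ u, u ≠ x → u ≠ b → u ≠ b' → c x u = i1 ∨ c x u = i2) →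
      c b z1 = c b x → c b z2 = c b x → c b' b = c b' x := by
    intro b b' hb hb' hb1 hb2 hb1' hb2' hbb hcol e1 e2
    by_contra hne
    have h5 := h.small0 (Q := {x, z1, z2, b}) (by simp) (by
      intro u hu
      have hux : u ≠ x := fun e => hu (by simp [e])
      have hub : u ≠ b := fun e => hu (by simp [e])
      by_cases hub' : u = b'
      · subst hub'
        exact two_le_card_S (q := b) (q' := x) (by simp) (by simp) hne
      · rcases hcol u hux hub hub' with e | e
        · exact hz1.two_le h (by simp) (by simp) hu e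
        · exact hz2.two_le h (by simp) (by simp) hu e)
    have h6 : ({x, z1, z2, b} : Finset V).card ≤ 4 := card_le_four
    have h7 : 3 ≤ (B c {x, z1, z2, b}).card := by
      apply three_le_card_B h.diag (r := x) (s := z1) (t := z2) (by simp) (by simp) (by simp)
      all_goals
        rw [sum_insert (by simp [hz1.1.symm, hz2.1.symm, hb.symm]),
          sum_insert (by simp [hzz, hb1.symm]), sum_insert (by simp [hb2.symm]), sum_singleton,
          sum_insert (by simp [hz1.1.symm, hz2.1.symm, hb.symm]),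
          sum_insert (by simp [hzz, hb1.symm]), sum_insert (by simp [hb2.symm]), sum_singleton]
        simp only [h.diag, h.symm z1 x, h.symm z2 x, h.symm z2 z1, h.symm x b, h.symm z1 b,
          h.symm z2 b, e1, e2, hc1, hc2]
        intro e
      · exact k1 (by linear_combination -e)
      · exact k2 (by linear_combination -e)
      · exact h12 (by linear_combination -e)
    omega
  have l1 := last b3 b4 h3.1 h4.1 (Ne.symm a1) (Ne.symm a3) (Ne.symm a2) (Ne.symm a4) h34 hcol
    key3.1 key3.2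
  have l2 := last b4 b3 h4.1 h3.1 (Ne.symm a2) (Ne.symm a4) (Ne.symm a1) (Ne.symm a3)
    (Ne.symm h34) (fun u e1 e2 e3 => hcol u e1 e3 e2) key4.1 key4.2
  apply c34
  rw [h.symm x b3, h.symm x b4, ← l1, ← l2, h.symm]

end Pool.Agent.Lib.MP_12e153_co
end
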